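import Pool.Agent.Helper79.FY.Defs
import Pool.Agent.Helper79.HI.Defs

/-!
# GB: the Mumford-Tate conjecture at all points of the base: definitions
-/

namespace Pool.Agent.Helper79.GB

open Matrix Pool.Agent.Helper79.BB Pool.Agent.Helper79.HH Pool.Agent.Helper79.HG Pool.Agent.Helper79.HI
  Pool.Agent.Helper79.FY Pool.Agent.Helper64.Per Pool.Agent.Helper88.MT Pool.Agent.Helper79.DD

/-- `t ↦ (t, w t)`, `t ∈ U`, is a branch of the variety `S₀` of the points `(t, W)` with `S(t) ≠ 0` and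
`W^μ = ∑_l f_l(t) W^l`, which is finite étale over the complement of the hypersurface `S = 0` in the affine space. -/
structure IsEtaleCover (k : Type) [Field k] [Algebra k ℂ] {m : ℕ} (S : MvPolynomial (Fin m) k)
    (U : Set (Fin m → ℂ)) (μ : ℕ) (w : (Fin m → ℂ) → ℂ) : Prop where
  analytic : AnalyticOnNhd ℂ w U
  eqn : ∃ f : Fin μ → MvPolynomial (Fin m) k,
    (∀ t ∈ U, w t ^ μ = ∑ l : Fin μ, MvPolynomial.aeval t (f l) * w t ^ (l : ℕ)) ∧
      ∀ (t : Fin m → ℂ) (W : ℂ), MvPolynomial.aeval t S ≠ 0 →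
        W ^ μ = ∑ l : Fin μ, MvPolynomial.aeval t (f l) * W ^ (l : ℕ) →
        (μ : ℂ) * W ^ (μ - 1) ≠ ∑ l : Fin μ, (l : ℕ) * MvPolynomial.aeval t (f l) * W ^ ((l : ℕ) - 1)

/-- The values at `t` of the functions which are the coordinates of the points of the covers. -/
def yE {m r ℓ : ℕ} {n : ℕ → ℕ}
    (b : Elem m ((Fin r × Fin r) ⊕ (Σ k : ℕ, (Fin r → ZMod (ℓ ^ k)) × Fin (n k)))) (t : Fin m → ℂ)
    (k : ℕ) (v : Fin r → ZMod (ℓ ^ k)) (i : Fin (n k)) : ℂ :=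
  b.f (Sum.inr ⟨k, (v, i)⟩) t

end Pool.Agent.Helper79.GB
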