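import Pool.Agent.Helper79.FY.Lift
import Pool.Agent.Helper79.GB.DefsM

/-!
# GB: the local system, seen from another chart

(helper79)
-/

set_option linter.unusedSectionVars false

namespace Pool.Agent.Helper79.GB

open Matrix Pool.Agent.Helper79.BB Pool.Agent.Helper79.HH Pool.Agent.Helper79.HG Pool.Agent.Helper79.FY
  Pool.Agent.Helper64.Per

section

variable {κ : Type} [Field κ] [Algebra κ ℂ] {m r ℓ μ : ℕ} [Fact ℓ.Prime] {U : Set (Fin m → ℂ)}
  {w : (Fin m → ℂ) → ℂ} {S : MvPolynomial (Fin m) κ} {P : (Fin m → ℂ) → Matrix (Fin r) (Fin r) ℂ}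
  {Y : ∀ k : ℕ, CoverData κ (Fin r → ZMod (ℓ ^ k)) U w} {lev : Fin r → ℤ} {j : ℤ}
  {ψ : Matrix (Fin r) (Fin r) ℤ} {b : Elem m (Ix Y)}

/-- The values of a polynomial at analytic functions are analytic. -/
theorem analytic_mv {κ : Type} [CommRing κ] [Algebra κ ℂ] {m : ℕ} {X : Type}
    {D : Set (Fin m → ℂ)} (Q : MvPolynomial X κ) (τ : (Fin m → ℂ) → X → ℂ)
    (hτ : ∀ i, AnalyticOnNhd ℂ (fun t => τ t i) D) :
    AnalyticOnNhd ℂ (fun t => MvPolynomial.aeval (τ t) Q) D := by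
  intro z hz
  exact AnalyticAt.aeval_mvPolynomial (fun i => hτ i z hz) Q

theorem analytic_proj {m : ℕ} {D : Set (Fin m → ℂ)} (i : Fin m) :
    AnalyticOnNhd ℂ (fun t : Fin m → ℂ => t i) D := fun z _ =>
  (ContinuousLinearMap.proj (R := ℂ) (φ := fun _ : Fin m => ℂ) i).analyticAt z

/-- The equation of the cover. -/
theorem eqn_cont (hb : FY.Reach S (base P Y) b) (k : ℕ) :
    ∀ t ∈ b.U, ∀ (X : Fin (Y k).N → ℂ) (Z : ℂ),
    MvPolynomial.aeval (Sum.elim (Sum.elim t fun _ => b.w t) (Sum.elim X fun _ => Z)) (Y k).Φ =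
      MvPolynomial.aeval (Sum.elim t fun _ => b.w t) (Y k).q *
        ∏ v, (Z - ∑ i, X i * b.f (Sum.inr ⟨k, (v, i)⟩) t) := by
  intro t ht X Z
  refine sub_eq_zero.1 (reach_rel (S := S) (a := base P Y) (b := b)
    (G := fun t ω φ => MvPolynomial.aeval (Sum.elim (Sum.elim t fun _ => ω)
      (Sum.elim X fun _ => Z)) (Y k).Φ - MvPolynomial.aeval (Sum.elim t fun _ => ω) (Y k).q *
        ∏ v, (Z - ∑ i, X i * φ (Sum.inr ⟨k, (v, i)⟩))) ?_ hb ?_ t ht)
  · intro c hc
    refine AnalyticOnNhd.sub ?_ (AnalyticOnNhd.mul ?_ ?_)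
    · refine analytic_mv _ _ ?_
      rintro ((i | i) | (i | i))
      · exact analytic_proj i
      · exact hc.2.2.1
      · exact analyticOnNhd_const
      · exact analyticOnNhd_const
    · refine analytic_mv _ _ ?_
      rintro (i | i)
      · exact analytic_proj i
      · exact hc.2.2.1
    · refine Finset.analyticOnNhd_fun_prod _ fun v _ => ?_
      refine analyticOnNhd_const.sub ?_
      refine Finset.analyticOnNhd_fun_sum _ fun i _ => ?_
      exact analyticOnNhd_const.mul (hc.2.2.2 _)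
  · intro t ht
    rw [sub_eq_zero]
    have h1 := (Y k).eqn t ht X Z
    have h2 : ∀ v i, (base P Y).f (Sum.inr ⟨k, (v, i)⟩) t = (Y k).y v i t := fun v i =>
      congrFun (base_inr (P := P) k v i) t
    simp only [h2]
    exact h1

/-- The étale covers, seen from another chart. -/
noncomputable def chartY (h : IsLocalSystem S P Y lev j ψ) (hb : FY.Reach S (base P Y) b) (k : ℕ) :
    CoverData κ (Fin r → ZMod (ℓ ^ k)) b.U b.w where
  N := (Y k).N
  y v i := b.f (Sum.inr ⟨k, (v, i)⟩)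
  q := (Y k).q
  Φ := (Y k).Φ
  analytic _ _ := (reach_analytic h.analytic hb).2.2.2 _
  inj t ht := (h.cover b hb t ht k).2
  q_ne t ht := (h.cover b hb t ht k).1
  eqn := eqn_cont hb k

theorem base_chartY (h : IsLocalSystem S P Y lev j ψ) (hb : FY.Reach S (base P Y) b) :
    base (pmat b) (chartY h hb) = b := by
  have h1 : fns (pmat b) (chartY h hb) 1 = b.f := by
    funext x t
    rcases x with ⟨x, y⟩ | ⟨k, v, i⟩
    · change (pmat b t * (1 : Matrix (Fin r) (Fin r) ℤ).map (Int.cast : ℤ → ℂ)) x y = _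
      rw [Matrix.map_one _ Int.cast_zero Int.cast_one, Matrix.mul_one]
      rfl
    · change b.f (Sum.inr ⟨k, (actZ (1 : Matrix (Fin r) (Fin r) ℤ) v, i)⟩) t = _
      rw [actZ_one]
      rfl
  change (⟨b.U, b.w, fns (pmat b) (chartY h hb) 1⟩ : Elem m (Ix Y)) = b
  rw [h1]

theorem chart_reach (h : IsLocalSystem S P Y lev j ψ) (hb : FY.Reach S (base P Y) b)
    {c : Elem m (Ix Y)} : FY.Reach S (base (pmat b) (chartY h hb)) c ↔ FY.Reach S (base P Y) c := by
  have h1 : FY.Reach S (base (pmat b) (chartY h hb)) c ↔ FY.Reach S b c := by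
    rw [base_chartY]
    exact Iff.rfl
  rw [h1]
  exact ⟨fun hc => hb.trans hc, fun hc => (reach_symm h.dom hb).trans hc⟩

theorem chart_sys (h : IsLocalSystem S P Y lev j ψ) (hb : FY.Reach S (base P Y) b) :
    IsLocalSystem S (pmat b) (chartY h hb) lev j ψ where
  ne := h.ne
  analytic := by
    rw [base_chartY]
    exact reach_analytic h.analytic hb
  dom := reach_dom h.dom hb
  ext c hc := h.ext c ((chart_reach h hb).1 hc)
  int c c' hc hc' := h.int c c' ((chart_reach h hb).1 hc) ((chart_reach h hb).1 hc')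
  cover c hc := h.cover c ((chart_reach h hb).1 hc)
  det c hc := h.det c ((chart_reach h hb).1 hc)
  pol c hc := h.pol c ((chart_reach h hb).1 hc)
  trans c hc := h.trans c ((chart_reach h hb).1 hc)

theorem MG_chart (h : IsLocalSystem S P Y lev j ψ) (hb : FY.Reach S (base P Y) b) :
    MG (pmat b) (chartY h hb) S ψ (chart_sys h hb).dom = MG P Y S ψ h.dom := by
  ext γ
  have h1 : γ ∈ MG (pmat b) (chartY h hb) S ψ (chart_sys h hb).dom ↔
      ((γ : Matrix (Fin r) (Fin r) ℤ)ᵀ * ψ * (γ : Matrix (Fin r) (Fin r) ℤ) = ψ ∧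
        FY.Reach S b (gact (γ : Matrix (Fin r) (Fin r) ℤ) b)) := by
    have h2 : γ ∈ MG (pmat b) (chartY h hb) S ψ (chart_sys h hb).dom ↔
      ((γ : Matrix (Fin r) (Fin r) ℤ)ᵀ * ψ * (γ : Matrix (Fin r) (Fin r) ℤ) = ψ ∧
        FY.Reach S (base (pmat b) (chartY h hb)) (gact (γ : Matrix (Fin r) (Fin r) ℤ)
          (base (pmat b) (chartY h hb)))) := Iff.rfl
    rw [h2, base_chartY]
    rfl
  have h3 : γ ∈ MG P Y S ψ h.dom ↔
      ((γ : Matrix (Fin r) (Fin r) ℤ)ᵀ * ψ * (γ : Matrix (Fin r) (Fin r) ℤ) = ψ ∧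
        FY.Reach S (base P Y) (gact (γ : Matrix (Fin r) (Fin r) ℤ) (base P Y))) := Iff.rfl
  rw [h1, h3]
  refine and_congr_right fun _ => ⟨fun hγ => ?_, fun hγ => ?_⟩
  · -- base → b → γ b → γ base
    have h4 := reach_gact (γ : Matrix (Fin r) (Fin r) ℤ) hb
    have h5 := reach_symm (a := gact (γ : Matrix (Fin r) (Fin r) ℤ) (base P Y)) h.dom h4
    exact (hb.trans hγ).trans h5
  · have h4 := reach_gact (γ : Matrix (Fin r) (Fin r) ℤ) hb
    exact (reach_symm h.dom hb).trans (hγ.trans h4)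

theorem pts_chartY (h : IsLocalSystem S P Y lev j ψ) (hb : FY.Reach S (base P Y) b) (t : Fin m → ℂ) :
    HI.pts (chartY h hb) t = yE b t := rfl

/-- The equation of the variety, in another chart. -/
theorem etale_chart (h : IsLocalSystem S P Y lev j ψ) (hw : IsEtaleCover κ S U μ w)
    (hb : FY.Reach S (base P Y) b) : IsEtaleBranch κ b.U μ b.w := by
  obtain ⟨hwa, f, hf, hsep⟩ := hw
  have hba := reach_analytic h.analytic hb
  have h1 : ∀ t ∈ b.U, b.w t ^ μ = ∑ l : Fin μ, MvPolynomial.aeval t (f l) * b.w t ^ (l : ℕ) := by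
    intro t ht
    refine sub_eq_zero.1 (reach_rel (S := S) (a := base P Y) (b := b)
      (G := fun t ω φ => ω ^ μ - ∑ l : Fin μ, MvPolynomial.aeval t (f l) * ω ^ (l : ℕ)) ?_ hb ?_ t ht)
    · intro c hc
      refine (hc.2.2.1.pow μ).sub (Finset.analyticOnNhd_fun_sum _ fun l _ => ?_)
      exact (analytic_mv (f l) (fun t => t) analytic_proj).mul (hc.2.2.1.pow l)
    · intro t ht
      rw [sub_eq_zero]
      exact hf t ht
  exact ⟨hba.2.2.1, f, fun t ht => ⟨h1 t ht, hsep t (b.w t) (reach_dom h.dom hb t ht) (h1 t ht)⟩⟩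

theorem etale_base (h : ∀ t ∈ U, MvPolynomial.aeval t S ≠ 0) (hw : IsEtaleCover κ S U μ w) :
    IsEtaleBranch κ U μ w := by
  obtain ⟨hwa, f, hf, hsep⟩ := hw
  exact ⟨hwa, f, fun t ht => ⟨hf t ht, hsep t (w t) (h t ht) (hf t ht)⟩⟩

end

/-- The monodromy group of the period matrix, in another chart. -/
theorem MM_reach {m r : ℕ} {S : MvPolynomial (Fin m) ℂ} {a b : Element m (Fin r)}
    {ψ : Matrix (Fin r) (Fin r) ℚ} (hd : ∀ t ∈ a.U, MvPolynomial.eval t S ≠ 0)
    (hb : FX.Reach S a b) : FX.MM S b ψ (FX.reach_dom hd hb) = FX.MM S a ψ hd := by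
  ext γ
  change (_ ∧ FX.Reach S b (FX.rmul b (zc (γ : Matrix (Fin r) (Fin r) ℤ)))) ↔
    (_ ∧ FX.Reach S a (FX.rmul a (zc (γ : Matrix (Fin r) (Fin r) ℤ))))
  refine and_congr_right fun _ => ⟨fun hγ => ?_, fun hγ => ?_⟩
  · have h4 := FX.reach_mul hb (zc (γ : Matrix (Fin r) (Fin r) ℤ))
    have h5 := FX.reach_symm (a := FX.rmul a (zc (γ : Matrix (Fin r) (Fin r) ℤ))) hd h4
    exact (hb.trans hγ).trans h5
  · have h4 := FX.reach_mul hb (zc (γ : Matrix (Fin r) (Fin r) ℤ))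
    exact (FX.reach_symm hd hb).trans (hγ.trans h4)

end Pool.Agent.Helper79.GB
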