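import Pool.Agent.Helper79.FX.Main

/-!
# GB: the type of the fixed vectors is the same at all points

(helper79)
-/

set_option linter.unusedSectionVars false

namespace Pool.Agent.Helper79.GB

open Matrix Module Pool.Agent.Helper79.BB Pool.Agent.Helper79.HH Pool.Agent.Helper79.HG
  Pool.Agent.Helper79.HI Pool.Agent.Helper79.HJ Pool.Agent.Helper64.Per Pool.Agent.Helper88.MT
  Pool.Agent.Helper79.FX Pool.Agent.Helper79.DD

variable {m r μ : ℕ}

/-- Rational vectors fixed by a group are fixed by its closure. -/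
theorem zar_fix {v : Fin r → ℚ} {Γ : Subgroup (GL (Fin r) ℚ)}
    (hv : ∀ γ ∈ Γ, (γ : Matrix (Fin r) (Fin r) ℚ) *ᵥ v = v) {g : GL (Fin r) ℂ}
    (hg : g ∈ zar ℂ (Γ : Set (GL (Fin r) ℚ))) :
    (g : Matrix (Fin r) (Fin r) ℂ) *ᵥ (fun i => ((v i : ℚ) : ℂ)) = fun i => ((v i : ℚ) : ℂ) := by
  funext i
  have h1 : ∀ {A : Type} [CommRing A] [Algebra ℚ A] (a : GL (Fin r) A),
      evGL a (∑ k, MvPolynomial.C (v k) * MvPolynomial.X (some (i, k)) - MvPolynomial.C (v i) :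
        GLPoly r ℚ) = ∑ k, algebraMap ℚ A (v k) * a i k - algebraMap ℚ A (v i) := by
    intro A _ _ a
    unfold evGL
    rw [map_sub, map_sum, MvPolynomial.aeval_C]
    congr 1
    refine Finset.sum_congr rfl fun k _ => ?_
    rw [map_mul, MvPolynomial.aeval_C, MvPolynomial.aeval_X]
    rfl
  have h2 := hg (∑ k, MvPolynomial.C (v k) * MvPolynomial.X (some (i, k)) - MvPolynomial.C (v i))
    (by
      intro γ hγ
      rw [h1]
      have h3 := congrFun (hv γ hγ) i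
      rw [Matrix.mulVec, dotProduct] at h3
      rw [sub_eq_zero]
      change ∑ k, v k * (γ : Matrix (Fin r) (Fin r) ℚ) i k = v i
      rw [← h3]
      exact Finset.sum_congr rfl fun k _ => mul_comm _ _)
  rw [h1, sub_eq_zero] at h2
  rw [Matrix.mulVec, dotProduct]
  refine Eq.trans ?_ h2
  exact Finset.sum_congr rfl fun k _ => mul_comm _ _

theorem type_of_fixed {lev : Fin r → ℤ} {ψ : Matrix (Fin r) (Fin r) ℚ}
    {P : Matrix (Fin r) (Fin r) ℂ} (hpol : IsPolarized lev 2 ψ P) (hP : IsUnit P.det)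
    {v : Fin r → ℂ} (hv : Em lev 2 ψ 2 P *ᵥ v = v) : v ∈ hodgePart lev 2 P 1 := by
  classical
  obtain ⟨Q, deg, hQu, hQ⟩ := exists_basis hpol.span
  rw [Em_eq hpol hP hQu hQ] at hv
  set c : Fin r → ℂ := Q⁻¹ *ᵥ v with hc
  have hvc : v = Q *ᵥ c := by
    rw [hc, Matrix.mulVec_mulVec, Matrix.mul_nonsing_inv _ hQu, Matrix.one_mulVec]
  have h1 : ∀ i, (2 : ℂ) ^ (2 * deg i - 2) * c i = c i := by
    intro i
    have h2 := congrArg (fun x => (Q⁻¹ *ᵥ x) i) hv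
    simp only [HJ.sc, Matrix.mulVec_mulVec] at h2
    rw [← Matrix.mul_assoc, ← Matrix.mul_assoc, Matrix.nonsing_inv_mul _ hQu, Matrix.one_mul,
      ← Matrix.mulVec_mulVec] at h2
    rw [Matrix.mulVec_diagonal] at h2
    exact h2
  have h2 : ∀ i, deg i ≠ 1 → c i = 0 := by
    intro i hi
    by_contra hne
    have h3 : (2 : ℂ) ^ (2 * deg i - 2) = 1 := by
      have h4 := h1 i
      exact mul_right_cancel₀ hne (by rw [h4, one_mul])
    have h5 : ((2 : ℝ) ^ (2 * deg i - 2)) = 1 := by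
      have h6 := congrArg (fun z : ℂ => ‖z‖) h3
      simp only [norm_zpow, norm_one] at h6
      rw [← h6]
      norm_num
    rw [zpow_eq_one_iff_right₀ (by norm_num) (by norm_num)] at h5
    omega
  rw [hvc]
  have h3 : Q *ᵥ c = ∑ i, c i • (fun x => Q x i) := by
    funext x
    rw [Matrix.mulVec, dotProduct, Finset.sum_apply]
    exact Finset.sum_congr rfl fun i _ => mul_comm _ _
  rw [h3]
  refine Submodule.sum_mem _ fun i _ => ?_
  by_cases hi : deg i = 1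
  · rw [← hi]
    exact Submodule.smul_mem _ _ (hQ i)
  · rw [h2 i hi, zero_smul]
    exact Submodule.zero_mem _

theorem fixed_of_type {lev : Fin r → ℤ} {ψ : Matrix (Fin r) (Fin r) ℚ}
    {P : Matrix (Fin r) (Fin r) ℂ} (hpol : IsPolarized lev 2 ψ P) (hP : IsUnit P.det)
    {v : Fin r → ℂ} (hv : v ∈ hodgePart lev 2 P 1) (u : ℂ) : Em lev 2 ψ u P *ᵥ v = v := by
  obtain ⟨Q, deg, hQu, hQ⟩ := exists_basis hpol.span
  rw [Em_eq hpol hP hQu hQ, sc_mulVec hpol hQu hQ _ hv]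
  norm_num

/-- The type of the fixed vectors. -/
theorem type_transport {S : MvPolynomial (Fin m) ℂ} {a : Element m (Fin r)} {lev : Fin r → ℤ}
    {ψ : Matrix (Fin r) (Fin r) ℚ} {k : Type} [Field k] [Algebra k ℂ] (h : IsVHS S a lev 2 ψ)
    (hne : a.U.Nonempty) (hw : IsBranchM k a.U μ a.w)
    {Γ : Subgroup (GL (Fin r) ℤ)} (hΓ : Γ ≤ MM S a ψ h.dom) (hfin : Γ.relIndex (MM S a ψ h.dom) ≠ 0)
    (hdet : ∀ γ ∈ qp Γ, (γ : Matrix (Fin r) (Fin r) ℚ).det = 1) {b c : Element m (Fin r)}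
    (hb : Reach S a b) (hc : Reach S a c) {t t₁ : Fin m → ℂ} (ht : t ∈ b.U) (ht₁ : t₁ ∈ c.U)
    {v : Fin r → ℚ} (hv : ∀ γ ∈ qp Γ, (γ : Matrix (Fin r) (Fin r) ℚ) *ᵥ v = v)
    (hv₁ : (fun i => ((v i : ℚ) : ℂ)) ∈ hodgePart lev 2 (c.P t₁) 1) :
    (fun i => ((v i : ℚ) : ℂ)) ∈ hodgePart lev 2 (b.P t) 1 := by
  have hpol := h.pol b hb t ht
  have hPu := h.det b hb t ht
  have hpol₁ := h.pol c hc t₁ ht₁
  have hPu₁ := h.det c hc t₁ ht₁
  have h20 : (2 : ℂ) ≠ 0 := by norm_num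
  have hmk : ∀ {M : Matrix (Fin r) (Fin r) ℂ}, M.det = 1 → ∃ g : GL (Fin r) ℂ,
      (g : Matrix (Fin r) (Fin r) ℂ) = M := fun {M} hM =>
    ⟨Matrix.GeneralLinearGroup.mkOfDetNeZero M (by rw [hM]; exact one_ne_zero), rfl⟩
  obtain ⟨g, hg⟩ := hmk (Em_det hpol hPu h20)
  obtain ⟨g₁, hg₁⟩ := hmk (Em_det hpol₁ hPu₁ h20)
  have h1 := fixed_part h hne hw hΓ hfin hdet hb hc ht ht₁ h20 hg hg₁
  have h2 := zar_fix hv h1
  refine type_of_fixed hpol hPu ?_
  have h3 : (g₁ : Matrix (Fin r) (Fin r) ℂ) *ᵥ (fun i => ((v i : ℚ) : ℂ)) =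
      fun i => ((v i : ℚ) : ℂ) := by
    rw [hg₁]
    exact fixed_of_type hpol₁ hPu₁ hv₁ 2
  rw [Units.val_mul, ← Matrix.mulVec_mulVec, h3] at h2
  have h4 := congrArg (fun x => (g : Matrix (Fin r) (Fin r) ℂ) *ᵥ x) h2
  simp only [Matrix.mulVec_mulVec] at h4
  rw [← Units.val_mul, mul_inv_cancel, Units.val_one, Matrix.one_mulVec] at h4
  rw [← hg]
  exact h4.symm

end Pool.Agent.Helper79.GB
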