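import Pool.Agent.Helper79.FZ.Main
import Pool.Agent.Helper79.GB.Chart
import Pool.Agent.Helper79.GB.TypeX

/-!
# GB: the proof of the Mumford-Tate conjecture at one point

The proof is that of `most` in `Pool/Agent/Helper79/FZ/Main.lean` (helper79)
-/

set_option linter.unusedSectionVars false

namespace Pool.Agent.Helper79.GB

open Matrix Module Pool.Agent.Helper79.BB Pool.Agent.Helper79.HH Pool.Agent.Helper79.HG
  Pool.Agent.Helper79.HI Pool.Agent.Helper64.Per Pool.Agent.Helper88.MT Pool.Agent.Helper79.DD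
  Pool.Agent.Helper46.GG Pool.Agent.Helper79.FX Pool.Agent.Helper79.FY Pool.Agent.Helper79.FZ

section

variable {κ : Type} [Field κ] [Algebra κ ℂ] {m r ℓ : ℕ} [Fact ℓ.Prime] {U : Set (Fin m → ℂ)}
  {w : (Fin m → ℂ) → ℂ} {S : MvPolynomial (Fin m) κ} {P : (Fin m → ℂ) → Matrix (Fin r) (Fin r) ℂ}
  {Y : ∀ k : ℕ, CoverData κ (Fin r → ZMod (ℓ ^ k)) U w} {lev : Fin r → ℤ} {j : ℤ}
  {ψ : Matrix (Fin r) (Fin r) ℤ}

theorem fg_reach {a b : Elem m (Ix Y)} (h : FY.Reach S a b) :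
    FX.Reach (S.map (algebraMap κ ℂ)) ⟨a.U, a.w, pmat a⟩ ⟨b.U, b.w, pmat b⟩ := by
  induction h with
  | refl => exact Relation.ReflTransGen.refl
  | @tail b c _ h2 ih =>
    obtain ⟨⟨hb, hc, O, hO, hO1, hOa, hOb, ht⟩, hS⟩ := h2
    refine Relation.ReflTransGen.tail ih ⟨⟨⟨hb.1, hb.2.1, hb.2.2.1, fun _ _ => hb.2.2.2 _⟩,
      ⟨hc.1, hc.2.1, hc.2.2.1, fun _ _ => hc.2.2.2 _⟩, O, hO, hO1,
      hOa, hOb, fun t htO => ⟨(ht t htO).1, ?_⟩⟩, fun t ht => ?_⟩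
    · ext x y
      exact (ht t htO).2 _
    · rw [MvPolynomial.eval_map, ← MvPolynomial.aeval_def]
      exact hS t ht

theorem fg_base {b : Elem m (Ix Y)} (h : FY.Reach S (base P Y) b) :
    FX.Reach (S.map (algebraMap κ ℂ)) ⟨U, w, P⟩ ⟨b.U, b.w, pmat b⟩ := by
  have h1 := fg_reach h
  have h2 : (⟨(base P Y).U, (base P Y).w, pmat (base P Y)⟩ : Element m (Fin r)) = ⟨U, w, P⟩ := by
    rw [pmat_base]
    rfl
  rwa [h2] at h1

end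

/-- The Mumford-Tate conjecture at a point which satisfies the conditions of the counts. -/
theorem eq_at {κ : IntermediateField ℚ Qbar} [FiniteDimensional ℚ κ] {m μ r : ℕ}
    {S : MvPolynomial (Fin m) κ} {U : Set (Fin m → ℂ)} {w : (Fin m → ℂ) → ℂ}
    (hw : IsEtaleBranch κ U μ w) {P : (Fin m → ℂ) → Matrix (Fin r) (Fin r) ℂ} {ℓ : ℕ} [Fact ℓ.Prime]
    {Y : ∀ k : ℕ, CoverData κ (Fin r → ZMod (ℓ ^ k)) U w} {lev : Fin r → ℤ}
    (hlev : ∀ x, 0 ≤ lev x ∧ lev x ≤ 2) {ψ : Matrix (Fin r) (Fin r) ℤ}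
    (h : IsLocalSystem S P Y lev 2 ψ) {N : Submodule ℚ (Fin r → ℚ)}
    {Γ : Subgroup (GL (Fin r) ℤ)}
    (hΓ : Γ ≤ MM (S.map (algebraMap κ ℂ)) ⟨U, w, P⟩ (ψ.map (Int.cast : ℤ → ℚ)) h.vhs.dom)
    (hfin : Γ.relIndex (MM (S.map (algebraMap κ ℂ)) ⟨U, w, P⟩ (ψ.map (Int.cast : ℤ → ℚ)) h.vhs.dom) ≠ 0)
    (hdense : DenseG (qp Γ)) (hdet1 : ∀ γ ∈ qp Γ, (γ : Matrix (Fin r) (Fin r) ℚ).det = 1)
    (hperf : ∀ L : Submodule ℚ (Matrix (Fin r) (Fin r) ℚ),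
        (∀ x ∈ lieS (qp Γ), ∀ y ∈ lieS (qp Γ), x * y - y * x ∈ L) → lieS (qp Γ) ≤ L)
    (hNfix : ∀ γ ∈ qp Γ, ∀ v ∈ N, (γ : Matrix (Fin r) (Fin r) ℚ) *ᵥ v = v)
    (hcz : CentZero (ψ.map (Int.cast : ℤ → ℚ)) N (lieS (qp Γ)))
    {K : ℕ} (hK : Level Γ ℓ K) {t : Fin m → ℂ} (htU : t ∈ U) (halg : ∀ i, IsAlgebraic ℚ (t i))
    (hNH : ∀ v ∈ N, (fun i => ((v i : ℚ) : ℂ)) ∈ hodgePart lev 2 (P t) 1)
    (hMT : MTContains lev 2 (P t) (HH.tangent (Mono (ψ.map (Int.cast : ℤ → ℚ)) U w P)))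
    (hgal : ∀ π : Equiv.Perm (Fin r → ZMod (ℓ ^ K)), Relation.ReflTransGen Elem.Next
      (⟨U, w, fun e : (Fin r → ZMod (ℓ ^ K)) × Fin (Y K).N => (Y K).y e.1 e.2⟩ :
        Elem m ((Fin r → ZMod (ℓ ^ K)) × Fin (Y K).N))
      ⟨U, w, fun e => (Y K).y (π e.1) e.2⟩ →
      ∃ σ : Qbar ≃ₐ[kapM κ t (w t)] Qbar, ∀ a' i (u : Qbar),
        (u : ℂ) = (Y K).y a' i t → ((σ u : Qbar) : ℂ) = (Y K).y (π a') i t) :
    EqHolds (G := Qbar ≃ₐ[kapM κ t (w t)] Qbar) (fun σ z => σ z) (HI.pts Y t) lev ψ N (P t) := by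
  classical
  have hv := h.vhs
  have hne : U.Nonempty := ⟨t, htU⟩
  have hdetP := hv.det ⟨U, w, P⟩ Relation.ReflTransGen.refl t htU
  have hpol : IsPolarized lev 2 (ψ.map (Int.cast : ℤ → ℚ)) (P t) :=
    hv.pol ⟨U, w, P⟩ Relation.ReflTransGen.refl t htU
  have hiso := FX.isom_qp hv.dom hΓ
  have hMG : Γ ≤ MG P Y S ψ h.dom := fun γ hγ => mem_MG_of_MM h hne (hΓ hγ)
  have hMM : MG P Y S ψ h.dom = MM (S.map (algebraMap κ ℂ)) ⟨U, w, P⟩ (ψ.map (Int.cast : ℤ → ℚ))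
      h.vhs.dom :=
    le_antisymm (fun γ hγ => mem_MM_of_MG h hγ) fun γ hγ => mem_MG_of_MM h hne hγ
  have hfin' : Γ.relIndex (MG P Y S ψ h.dom) ≠ 0 := by
    rw [hMM]
    exact hfin
  obtain ⟨H, hHψ, hHs⟩ := exists_lattice hlev hdetP hpol
  have hψd : ψ.det ≠ 0 := by rw [← hHψ]; exact H.det_ne_zero
  have hsym : ψᵀ = ψ := by rw [← hHψ]; exact H.symm
  have hNk := kills (Γ := qp Γ) hNfix
  have hconn : IsConnMono Y lev ψ P {t} t Γ :=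
    h.isConnMono_of hw hΓ hfin hdense hdet1 hperf (by
      intro s hs
      rw [Set.mem_singleton_iff] at hs
      rw [hs]
      exact htU) rfl halg
  have hAd := adStable hv hw.branch htU hΓ hfin hdet1
  have htr : ∀ x ∈ lieS (qp Γ), (∀ y ∈ lieS (qp Γ), (x * y).trace = 0) → x = 0 := fun x hx h0 =>
    trace_nondeg hpol hdetP hAd hiso hx h0
  have hpos := pos_of_hodge hpol hNH
  intro ρ hρ hρ1 hρ2 G' hG' hGc
  obtain ⟨G₀, hG₀, hG₀'⟩ := exists_gal h hw hMG hfin' hdense hψd hdet1 htr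
    (fun x hx => skew hiso hx) hNk hcz hsym hpos htU halg hρ hρ1 hρ2
  refine q1_of hw.branch hlev hψd hconn hdetP hpol hρ hG₀ (Or.inr ⟨?_, hG₀'⟩) hK rfl
    htU halg hdetP hpol ?_ ?_ ρ hρ G' hG' hGc
  · intro u b hb
    obtain ⟨v, hv1, hv2⟩ := exists_sqrt hb.1
    have hv0 : v ≠ 0 := by
      intro h
      rw [h, norm_zero] at hv1
      exact zero_ne_one hv1
    exact circle_mem_zar hpol hdetP hdet1 hiso hAd hNk hcz hNH hv0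
      (hodgeElt_iff hpol hdetP hv1 hv2 hb)
  · exact hMT
  · exact hgal

end Pool.Agent.Helper79.GB
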