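import Pool.Agent.Helper79.HG.StatW
import Pool.Agent.Helper64.Per.Defs

/-!
# GB-01: the complement of a hypersurface is deep in itself

Let `Q` be a polynomial. By induction on `Q` (as in `exists_poly_bound` of `Pool/Agent/Helper79/HG/CountW.lean`, which may be copied) there are `d` and `C ≥ 1` with
`‖Q(y) - Q(x)‖ ≤ C ‖y - x‖ (1 + ‖x‖ + ‖y‖) ^ d` for all `x`, `y`. Take `N = d + 1` and `c = 1 / (2 * C * 3 ^ d)`: if
`‖y - x‖ * (1 + ‖x‖) ^ N ≤ c * τ ^ N`, `τ = min 1 ‖Q(x)‖`, and `Q(x) ≠ 0`, then `‖y - x‖ ≤ c τ ≤ 1`, `1 + ‖x‖ + ‖y‖ ≤ 3 (1 + ‖x‖)`, so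
`‖Q(y) - Q(x)‖ ≤ C 3 ^ d ‖y - x‖ (1 + ‖x‖) ^ d ≤ τ / 2 < ‖Q(x)‖` and `Q(y) ≠ 0`.
-/

namespace Pool.Agent.Helper79.GB

open Pool.Agent.Helper64.Per

private theorem bl_growth {κ : IntermediateField ℚ Qbar} {m : ℕ} (R : MvPolynomial (Fin m) κ) :
    ∃ (d : ℕ) (C : ℝ), 1 ≤ C ∧ ∀ x : Fin m → ℂ, ‖MvPolynomial.aeval x R‖ ≤ C * (1 + ‖x‖) ^ d := by
  induction R using MvPolynomial.induction_on with
  | C c =>
    refine ⟨0, 1 + ‖(algebraMap κ ℂ c)‖, by linarith [norm_nonneg (algebraMap κ ℂ c)], fun x => ?_⟩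
    rw [MvPolynomial.aeval_C, pow_zero, mul_one]
    linarith
  | add p q hp hq =>
    obtain ⟨d, C, hC, h⟩ := hp
    obtain ⟨d', C', hC', h'⟩ := hq
    refine ⟨d + d', C + C', by linarith, fun x => ?_⟩
    have h1 : 1 ≤ 1 + ‖x‖ := by linarith [norm_nonneg x]
    rw [map_add]
    refine (norm_add_le _ _).trans ?_
    rw [add_mul]
    refine add_le_add ((h x).trans ?_) ((h' x).trans ?_)
    · exact mul_le_mul_of_nonneg_left (pow_le_pow_right₀ h1 (by omega)) (by linarith)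
    · exact mul_le_mul_of_nonneg_left (pow_le_pow_right₀ h1 (by omega)) (by linarith)
  | mul_X p i hp =>
    obtain ⟨d, C, hC, h⟩ := hp
    refine ⟨d + 1, C, hC, fun x => ?_⟩
    rw [map_mul, MvPolynomial.aeval_X, norm_mul, pow_succ, ← mul_assoc]
    refine mul_le_mul (h x) ?_ (norm_nonneg _) (by positivity)
    have := norm_le_pi_norm x i
    linarith

private theorem bl_lip {κ : IntermediateField ℚ Qbar} {m : ℕ} (R : MvPolynomial (Fin m) κ) :
    ∃ (d : ℕ) (C : ℝ), 1 ≤ C ∧ ∀ x y : Fin m → ℂ,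
      ‖MvPolynomial.aeval y R - MvPolynomial.aeval x R‖ ≤
        C * ‖y - x‖ * (1 + ‖x‖ + ‖y‖) ^ d := by
  induction R using MvPolynomial.induction_on with
  | C c =>
    refine ⟨0, 1, le_rfl, fun x y => ?_⟩
    rw [MvPolynomial.aeval_C, MvPolynomial.aeval_C, sub_self, norm_zero]
    positivity
  | add p q hp hq =>
    obtain ⟨d, C, hC, h⟩ := hp
    obtain ⟨d', C', hC', h'⟩ := hq
    refine ⟨d + d', C + C', by linarith, fun x y => ?_⟩
    have h1 : 1 ≤ 1 + ‖x‖ + ‖y‖ := by linarith [norm_nonneg x, norm_nonneg y]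
    rw [map_add, map_add]
    have e : MvPolynomial.aeval y p + MvPolynomial.aeval y q -
        (MvPolynomial.aeval x p + MvPolynomial.aeval x q) =
        (MvPolynomial.aeval y p - MvPolynomial.aeval x p) +
        (MvPolynomial.aeval y q - MvPolynomial.aeval x q) := by ring
    rw [e]
    refine (norm_add_le _ _).trans ?_
    rw [add_mul, add_mul]
    refine add_le_add ((h x y).trans ?_) ((h' x y).trans ?_)
    · exact mul_le_mul_of_nonneg_left (pow_le_pow_right₀ h1 (by omega)) (by positivity)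
    · exact mul_le_mul_of_nonneg_left (pow_le_pow_right₀ h1 (by omega)) (by positivity)
  | mul_X p i hp =>
    obtain ⟨d, C, hC, h⟩ := hp
    obtain ⟨d', C', hC', h'⟩ := bl_growth p
    refine ⟨d + d' + 1, C + C', by linarith, fun x y => ?_⟩
    have hx := norm_nonneg x
    have hy := norm_nonneg y
    have h1 : 1 ≤ 1 + ‖x‖ + ‖y‖ := by linarith
    have h0 : 0 ≤ ‖y - x‖ := norm_nonneg _
    rw [map_mul, map_mul, MvPolynomial.aeval_X, MvPolynomial.aeval_X]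
    have e : MvPolynomial.aeval y p * y i - MvPolynomial.aeval x p * x i =
        (MvPolynomial.aeval y p - MvPolynomial.aeval x p) * y i +
        MvPolynomial.aeval x p * (y i - x i) := by ring
    have h2 : ‖(MvPolynomial.aeval y p - MvPolynomial.aeval x p) * y i‖ ≤
        C * ‖y - x‖ * (1 + ‖x‖ + ‖y‖) ^ (d + d' + 1) := by
      rw [norm_mul]
      calc ‖MvPolynomial.aeval y p - MvPolynomial.aeval x p‖ * ‖y i‖
          ≤ (C * ‖y - x‖ * (1 + ‖x‖ + ‖y‖) ^ d) * (1 + ‖x‖ + ‖y‖) := by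
            refine mul_le_mul (h x y) ?_ (norm_nonneg _) (by positivity)
            have := norm_le_pi_norm y i
            linarith
        _ = C * ‖y - x‖ * (1 + ‖x‖ + ‖y‖) ^ (d + 1) := by rw [pow_succ]; ring
        _ ≤ _ := mul_le_mul_of_nonneg_left (pow_le_pow_right₀ h1 (by omega)) (by positivity)
    have h3 : ‖MvPolynomial.aeval x p * (y i - x i)‖ ≤
        C' * ‖y - x‖ * (1 + ‖x‖ + ‖y‖) ^ (d + d' + 1) := by
      rw [norm_mul]
      calc ‖MvPolynomial.aeval x p‖ * ‖y i - x i‖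
          ≤ (C' * (1 + ‖x‖) ^ d') * ‖y - x‖ := by
            refine mul_le_mul (h' x) ?_ (norm_nonneg _) (by positivity)
            exact norm_le_pi_norm (y - x) i
        _ ≤ (C' * (1 + ‖x‖ + ‖y‖) ^ d') * ‖y - x‖ := by
            refine mul_le_mul_of_nonneg_right ?_ h0
            refine mul_le_mul_of_nonneg_left ?_ (by linarith)
            exact pow_le_pow_left₀ (by linarith) (by linarith) _
        _ = C' * ‖y - x‖ * (1 + ‖x‖ + ‖y‖) ^ d' := by ring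
        _ ≤ _ := mul_le_mul_of_nonneg_left (pow_le_pow_right₀ h1 (by omega)) (by positivity)
    rw [e]
    refine (norm_add_le _ _).trans ?_
    calc _ ≤ C * ‖y - x‖ * (1 + ‖x‖ + ‖y‖) ^ (d + d' + 1) +
          C' * ‖y - x‖ * (1 + ‖x‖ + ‖y‖) ^ (d + d' + 1) := add_le_add h2 h3
      _ = _ := by ring

theorem deepW_self {κ : IntermediateField ℚ Qbar} {m : ℕ} (Q : MvPolynomial (Fin m) κ) :
    HG.DeepW Q {x | MvPolynomial.aeval x Q ≠ 0} {x | MvPolynomial.aeval x Q ≠ 0} := by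
  obtain ⟨d, C, hC, hQ⟩ := bl_lip Q
  have hC0 : 0 < C := by linarith
  have h3 : (0 : ℝ) < 3 ^ d := by positivity
  have h31 : (1 : ℝ) ≤ 3 ^ d := one_le_pow₀ (by norm_num)
  refine ⟨d + 1, 1 / (2 * C * 3 ^ d), by positivity, fun x hx y hy => ?_⟩
  have hx0 : MvPolynomial.aeval x Q ≠ 0 := hx
  have hnx : 0 < ‖MvPolynomial.aeval x Q‖ := norm_pos_iff.2 hx0
  change MvPolynomial.aeval y Q ≠ 0
  intro hy0
  obtain ⟨τ, hτ⟩ : ∃ τ : ℝ, τ = min 1 ‖MvPolynomial.aeval x Q‖ := ⟨_, rfl⟩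
  have hτ0 : 0 < τ := by rw [hτ]; exact lt_min one_pos hnx
  have hτ1 : τ ≤ 1 := by rw [hτ]; exact min_le_left _ _
  have hτ2 : τ ≤ ‖MvPolynomial.aeval x Q‖ := by rw [hτ]; exact min_le_right _ _
  rw [← hτ] at hy
  have hn : 0 ≤ ‖x‖ := norm_nonneg x
  have hyx : 0 ≤ ‖y - x‖ := norm_nonneg _
  have hτN : τ ^ (d + 1) ≤ τ := by
    rw [pow_succ]
    have := pow_le_one₀ hτ0.le hτ1 (n := d)
    nlinarith
  have hc1 : 1 / (2 * C * 3 ^ d) ≤ 1 := by
    rw [div_le_one (by positivity)]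
    nlinarith
  have h4 : ‖y - x‖ ≤ 1 := by
    have h5 : 1 ≤ (1 + ‖x‖) ^ (d + 1) := one_le_pow₀ (by linarith)
    calc ‖y - x‖ ≤ ‖y - x‖ * (1 + ‖x‖) ^ (d + 1) := le_mul_of_one_le_right hyx h5
      _ ≤ 1 / (2 * C * 3 ^ d) * τ ^ (d + 1) := hy
      _ ≤ 1 * 1 := mul_le_mul hc1 (hτN.trans hτ1) (by positivity) zero_le_one
      _ = 1 := one_mul 1
  have h5 : ‖y‖ ≤ ‖x‖ + 1 := by
    have : y = x + (y - x) := by abel
    rw [this]
    refine (norm_add_le _ _).trans ?_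
    linarith
  have h6 : ‖MvPolynomial.aeval x Q‖ ≤ τ / 2 := by
    have h7 := hQ x y
    rw [hy0, zero_sub, norm_neg] at h7
    have hn1 : (1 : ℝ) ≤ 1 + ‖x‖ := by linarith
    calc ‖MvPolynomial.aeval x Q‖ ≤ C * ‖y - x‖ * (1 + ‖x‖ + ‖y‖) ^ d := h7
      _ ≤ C * ‖y - x‖ * (3 * (1 + ‖x‖)) ^ d := by
          refine mul_le_mul_of_nonneg_left ?_ (by positivity)
          exact pow_le_pow_left₀ (by positivity) (by linarith) _
      _ = C * 3 ^ d * (‖y - x‖ * (1 + ‖x‖) ^ d) := by rw [mul_pow]; ring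
      _ ≤ C * 3 ^ d * (‖y - x‖ * (1 + ‖x‖) ^ (d + 1)) := by
          refine mul_le_mul_of_nonneg_left ?_ (by positivity)
          exact mul_le_mul_of_nonneg_left (pow_le_pow_right₀ hn1 (by omega)) hyx
      _ ≤ C * 3 ^ d * (1 / (2 * C * 3 ^ d) * τ ^ (d + 1)) :=
          mul_le_mul_of_nonneg_left hy (by positivity)
      _ = τ ^ (d + 1) / 2 := by
          field_simp
      _ ≤ τ / 2 := by linarith
  linarith

end Pool.Agent.Helper79.GB
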