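import Pool.Agent.Helper79.GB.TwoX
import Pool.Agent.Helper79.FY.Clause

/-!
# GB-08: the exact sequence of the fundamental groups, for two points in two charts

Copy the proof of `galois_clause` (`Pool/Agent/Helper79/FY/Clause.lean`, with its private lemmas), with the point `t` in the chart `b` (covers `chartY h hb`) and `t₀` in `U`:
* the finite set of values: the coordinates of `t` and `t₀`, `b.w t` and `w t₀`, the values of the functions of level `K` at `t` (chart `b`) and at `t₀`.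
* step 1: `two_points_chart` instead of `two_points`.
* step 2: as before, with `(chartY h hb K).inj` at `t`, `(Y K).inj` at `t₀`, and `algebraic_point` for `chartY h hb K` (`etale_chart` gives `IsBranchM κ b.U μ b.w`).
* step 3 (conjugation): this is the second part of `galois_clause` for the chart `b` at the points `t`, `t` (`chart_sys`, `etale_chart`; `MG_chart` for `hΓ` and `hfin`), for all `σ` in another subgroup of finite index (intersect the two subgroups).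
-/

set_option linter.unusedSectionVars false

namespace Pool.Agent.Helper79.GB

open Matrix Pool.Agent.Helper79.BB Pool.Agent.Helper79.HH Pool.Agent.Helper79.HG Pool.Agent.Helper64.Per
  Pool.Agent.Helper79.HI Pool.Agent.Helper79.FX Pool.Agent.Helper79.FY

variable {κ : IntermediateField ℚ Qbar} [FiniteDimensional ℚ κ] {m r ℓ μ : ℕ} [Fact ℓ.Prime]
  {U : Set (Fin m → ℂ)}
  {w : (Fin m → ℂ) → ℂ} {S : MvPolynomial (Fin m) κ} {P : (Fin m → ℂ) → Matrix (Fin r) (Fin r) ℂ}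
  {Y : ∀ k : ℕ, CoverData κ (Fin r → ZMod (ℓ ^ k)) U w} {lev : Fin r → ℤ} {j : ℤ}
  {ψ : Matrix (Fin r) (Fin r) ℤ} {b : Elem m (Ix Y)}

private theorem finiteIndex_fixing (K : IntermediateField ℚ Qbar) [FiniteDimensional ℚ K] :
    K.fixingSubgroup.FiniteIndex := by
  let φ : (Qbar ≃ₐ[ℚ] Qbar) → (K →ₐ[ℚ] Qbar) := fun σ => (σ : Qbar →ₐ[ℚ] Qbar).comp K.val
  have hφ : ∀ σ τ, φ σ = φ τ → σ⁻¹ * τ ∈ K.fixingSubgroup := by
    intro σ τ h
    have h1 : ∀ x : K, σ (x : Qbar) = τ (x : Qbar) := fun x => DFunLike.congr_fun h x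
    rw [IntermediateField.mem_fixingSubgroup_iff]
    intro x hx
    rw [AlgEquiv.mul_apply, ← h1 ⟨x, hx⟩]
    exact σ.symm_apply_apply _
  have : Finite (K →ₐ[ℚ] Qbar) := inferInstance
  have hinj : Function.Injective
      (fun c : (Qbar ≃ₐ[ℚ] Qbar) ⧸ K.fixingSubgroup => φ c.out) := by
    intro c d h
    have h1 := hφ _ _ h
    rw [← QuotientGroup.out_eq' c, ← QuotientGroup.out_eq' d]
    exact QuotientGroup.eq.2 h1
  have hfin : Finite ((Qbar ≃ₐ[ℚ] Qbar) ⧸ K.fixingSubgroup) := Finite.of_injective _ hinj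
  exact Subgroup.finiteIndex_of_finite_quotient

/-- The elements of `Qbar` whose values are in a finite set are fixed by a group of finite index. -/
private theorem exists_fix (κ : IntermediateField ℚ Qbar) [FiniteDimensional ℚ κ] {s : Set ℂ}
    (hs : s.Finite) :
    ∃ G₁ : Subgroup (Qbar ≃ₐ[ℚ] Qbar), G₁.FiniteIndex ∧ ∀ σ ∈ G₁,
      (∀ x ∈ κ, σ x = x) ∧ ∀ z : Qbar, (z : ℂ) ∈ s → σ z = z := by
  have hfin : Finite ({u : Qbar | (u : ℂ) ∈ s} : Set Qbar) := by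
    rw [Set.finite_coe_iff]
    exact hs.preimage (f := fun u : Qbar => (u : ℂ)) Subtype.val_injective.injOn
  have halg : Algebra.IsAlgebraic ℚ Qbar := (algebraicClosure.isAlgClosure ℚ ℂ).isAlgebraic
  have hint : ∀ u ∈ ({u : Qbar | (u : ℂ) ∈ s} : Set Qbar),
      IsIntegral ℚ u := fun u _ => (Algebra.IsAlgebraic.isAlgebraic (R := ℚ) u).isIntegral
  have h2 : FiniteDimensional ℚ (IntermediateField.adjoin ℚ {u : Qbar | (u : ℂ) ∈ s}) :=
    IntermediateField.finiteDimensional_adjoin hint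
  have h3 : FiniteDimensional ℚ
      (κ ⊔ IntermediateField.adjoin ℚ {u : Qbar | (u : ℂ) ∈ s} : IntermediateField ℚ Qbar) :=
    IntermediateField.finiteDimensional_sup _ _
  refine ⟨(κ ⊔ IntermediateField.adjoin ℚ {u : Qbar | (u : ℂ) ∈ s}).fixingSubgroup,
    finiteIndex_fixing _, fun σ hσ => ?_⟩
  rw [IntermediateField.mem_fixingSubgroup_iff] at hσ
  refine ⟨fun x hx => hσ x ((le_sup_left : κ ≤ _) hx), fun z hz => hσ z ?_⟩
  exact (le_sup_right : _ ≤ κ ⊔ IntermediateField.adjoin ℚ {u : Qbar | (u : ℂ) ∈ s})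
    (IntermediateField.subset_adjoin ℚ _ hz)

/-- The permutation given by `g`. -/
private noncomputable def permP (g : GL (Fin r) ℤ_[ℓ]) (k : ℕ) :
    Equiv.Perm (Fin r → ZMod (ℓ ^ k)) where
  toFun v := actP g v
  invFun v := actP g⁻¹ v
  left_inv v := by
    change actP g⁻¹ (actP g v) = v
    rw [← actP_mul, inv_mul_cancel, actP_one]
  right_inv v := by
    change actP g (actP g⁻¹ v) = v
    rw [← actP_mul, mul_inv_cancel, actP_one]

private theorem actP_inv_actP (g : GL (Fin r) ℤ_[ℓ]) {k : ℕ} (v : Fin r → ZMod (ℓ ^ k)) :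
    actP g⁻¹ (actP g v) = v := by
  rw [← actP_mul, inv_mul_cancel, actP_one]

private theorem actP_actP_inv (g : GL (Fin r) ℤ_[ℓ]) {k : ℕ} (v : Fin r → ZMod (ℓ ^ k)) :
    actP g (actP g⁻¹ v) = v := by
  rw [← actP_mul, mul_inv_cancel, actP_one]

theorem galois_clause_chart (h : IsLocalSystem S P Y lev j ψ) (hw : IsEtaleCover κ S U μ w)
    (hb : FY.Reach S (base P Y) b)
    {Γ : Subgroup (GL (Fin r) ℤ)} (hΓ : Γ ≤ MG P Y S ψ h.dom)
    (hfin : Γ.relIndex (MG P Y S ψ h.dom) ≠ 0) (hdense : DenseG (qp Γ)) {t t₀ : Fin m → ℂ}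
    (ht : t ∈ b.U) (ht₀ : t₀ ∈ U) (halg : ∀ i, IsAlgebraic ℚ (t i))
    (halg₀ : ∀ i, IsAlgebraic ℚ (t₀ i)) :
    ∃ G₁ : Subgroup (Qbar ≃ₐ[ℚ] Qbar), G₁.FiniteIndex ∧ ∀ σ ∈ G₁, ∀ g g₀ : GL (Fin r) ℤ_[ℓ],
      IsGalElt σ (pts (chartY h hb) t) g → IsGalElt σ (pts Y t₀) g₀ →
        toQl (g * g₀⁻¹) ∈ zar ℚ_[ℓ] (qp Γ : Set (GL (Fin r) ℚ)) ∧
        ∀ a ∈ zar ℚ_[ℓ] (qp Γ : Set (GL (Fin r) ℚ)),
          toQl g * a * (toQl g)⁻¹ ∈ zar ℚ_[ℓ] (qp Γ : Set (GL (Fin r) ℚ)) := by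
  obtain ⟨K, hK⟩ := exists_level_sub ℓ hΓ hfin
  have hwe : IsEtaleBranch κ U μ w := etale_base h.dom hw
  have hwc : IsEtaleBranch κ b.U μ b.w := etale_chart h hw hb
  have hb₀ : IsBranchM κ U μ w := by
    obtain ⟨f, hf⟩ := hwe.eqn
    exact ⟨hwe.analytic, f, fun t ht => (hf t ht).1⟩
  have hbc : IsBranchM κ b.U μ b.w := by
    obtain ⟨f, hf⟩ := hwc.eqn
    exact ⟨hwc.analytic, f, fun t ht => (hf t ht).1⟩
  set t' : Fin m → Qbar := fun i => ⟨t i, mem_algebraicClosure_iff.2 (halg i)⟩ with ht'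
  set t₀' : Fin m → Qbar := fun i => ⟨t₀ i, mem_algebraicClosure_iff.2 (halg₀ i)⟩ with ht₀'
  have hcv : cv t' = t := rfl
  have hcv₀ : cv t₀' = t₀ := rfl
  have hfs : (Set.range t ∪ Set.range t₀ ∪ {b.w t, w t₀} ∪
      Set.range (fun p : (Fin r → ZMod (ℓ ^ K)) × Fin (chartY h hb K).N =>
        (chartY h hb K).y p.1 p.2 t) ∪
      Set.range (fun p : (Fin r → ZMod (ℓ ^ K)) × Fin (Y K).N => (Y K).y p.1 p.2 t₀)).Finite :=
    ((((Set.finite_range t).union (Set.finite_range t₀)).union (Set.toFinite _)).union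
      (Set.finite_range _)).union (Set.finite_range _)
  obtain ⟨G₁, hG₁, hfix⟩ := exists_fix κ hfs
  obtain ⟨G₂, hG₂, hconj₂⟩ := galois_clause (chart_sys h hb) hwc (Γ := Γ)
    (by rw [MG_chart]; exact hΓ) (by rw [MG_chart]; exact hfin) hdense ht ht halg halg
  refine ⟨G₁ ⊓ G₂, inferInstance, fun σ hσ g g₀ hg hg₀ => ?_⟩
  have hσ₁ : σ ∈ G₁ := hσ.1
  obtain ⟨h1, h2⟩ := hfix σ hσ₁
  obtain ⟨σ', hσt, hσt₀⟩ : ∃ τ' : Qbar ≃ₐ[κ] Qbar,
      (∀ k, ActsBy (chartY h hb) τ' k t' (permP g k)) ∧ ∀ k, ActsBy Y τ' k t₀' (permP g₀ k) := by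
    refine ⟨AlgEquiv.ofRingEquiv (f := ((σ : Qbar ≃ₐ[ℚ] Qbar) : Qbar ≃+* Qbar))
      (fun x => h1 x x.2), fun k => ⟨fun i => ?_, fun z hz => ?_, ?_⟩,
      fun k => ⟨fun i => ?_, fun z hz => ?_, ?_⟩⟩
    · exact h2 (t' i) (Or.inl (Or.inl (Or.inl (Or.inl ⟨i, rfl⟩))))
    · exact h2 z (Or.inl (Or.inl (Or.inr (Or.inl hz))))
    · intro v i z hz
      exact hg k v i z hz
    · exact h2 (t₀' i) (Or.inl (Or.inl (Or.inl (Or.inr ⟨i, rfl⟩))))
    · exact h2 z (Or.inl (Or.inl (Or.inr (Or.inr hz))))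
    · intro v i z hz
      exact hg₀ k v i z hz
  -- 1
  have hcl : InCl (MG P Y S ψ h.dom) (g₀⁻¹ * g) := by
    intro k
    obtain ⟨γ, hγ, hγ'⟩ := two_points_chart h hw hb σ' k (t := t') (t₀ := t₀') ht ht₀
      (hσt k) (hσt₀ k)
    refine ⟨γ, hγ, fun v => ?_⟩
    have h3 : actP g v = actP g₀ (actZ (γ : Matrix (Fin r) (Fin r) ℤ) v) := hγ' v
    rw [actP_mul, h3, actP_inv_actP]
  -- 2
  have hlev : ∀ v : Fin r → ZMod (ℓ ^ K), actP g v = v := by
    intro v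
    refine (chartY h hb K).inj t ht (funext fun i => ?_)
    change (chartY h hb K).y (actP g v) i t = (chartY h hb K).y v i t
    have h3 := (algebraic_point hbc (chartY h hb K) ht halg).2 v i
    have h4 := hg K v i ⟨_, mem_algebraicClosure_iff.2 h3⟩ rfl
    rw [h2 _ (Or.inl (Or.inr ⟨(v, i), rfl⟩))] at h4
    exact h4.symm
  have hlev₀ : ∀ v : Fin r → ZMod (ℓ ^ K), actP g₀ v = v := by
    intro v
    refine (Y K).inj t₀ ht₀ (funext fun i => ?_)
    change (Y K).y (actP g₀ v) i t₀ = (Y K).y v i t₀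
    have h3 := (algebraic_point hb₀ (Y K) ht₀ halg₀).2 v i
    have h4 := hg₀ K v i ⟨_, mem_algebraicClosure_iff.2 h3⟩ rfl
    rw [h2 _ (Or.inr ⟨(v, i), rfl⟩)] at h4
    exact h4.symm
  have hmem : toQl (g₀⁻¹ * g) ∈ zar ℚ_[ℓ] (qp Γ : Set (GL (Fin r) ℚ)) := by
    refine hK _ hcl fun v => ?_
    have h3 := actP_inv_actP g₀ v
    rw [hlev₀] at h3
    rw [actP_mul, hlev, h3]
  -- 3
  have hconj : ∀ a ∈ zar ℚ_[ℓ] (qp Γ : Set (GL (Fin r) ℚ)),
      toQl g * a * (toQl g)⁻¹ ∈ zar ℚ_[ℓ] (qp Γ : Set (GL (Fin r) ℚ)) :=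
    (hconj₂ σ hσ.2 g g hg hg).2
  refine ⟨?_, hconj⟩
  have h5 := hconj _ hmem
  have h6 : toQl g * toQl (g₀⁻¹ * g) * (toQl g)⁻¹ = toQl (g * g₀⁻¹) := by
    unfold toQl
    rw [map_mul, map_mul, map_inv]
    group
  rw [h6] at h5
  exact h5

end Pool.Agent.Helper79.GB
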