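import Pool.Agent.Helper79.GB.Defs
import Pool.Agent.Helper79.FX.FinW

/-!
# GB-05: continuation to convex open sets, and the branches `w` over a convex open set

* `IsVHS.periodMap`: clear.
* `IsPeriodMap.reach_ext`: the proof of `IsVHS.reach_ext` in `Pool/Agent/Helper79/FX/Chain.lean`.
* `exists_w_reps`: the proof of `finite_w` in `Pool/Agent/Helper79/FX/FinW.lean` (copy its private lemmas): the maximal list of reached elements over `D` with pairwise different `w` has at most `μ` members, for `Q (μ + 1)` is impossible there; take the maximal `n ≤ μ` with `Q n`.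
* `reach_empty`: a step `Next` needs a nonempty open set in `a.U`.
-/

namespace Pool.Agent.Helper79.GB

open Matrix Pool.Agent.Helper79.BB Pool.Agent.Helper79.HH Pool.Agent.Helper79.HJ Pool.Agent.Helper79.FX
  Pool.Agent.Helper64.Per Pool.Agent.Helper79.DD

variable {m r μ : ℕ} {S : MvPolynomial (Fin m) ℂ} {a b : Element m (Fin r)} {lev : Fin r → ℤ} {j : ℤ}
  {ψ : Matrix (Fin r) (Fin r) ℚ} {k : Type} [Field k] [Algebra k ℂ]

omit [Field k] [Algebra k ℂ] in
private theorem cl_mul {D : Set (Fin m → ℂ)} (hc : IsPreconnected D) (ho : IsOpen D)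
    {g h : (Fin m → ℂ) → ℂ} (hg : AnalyticOnNhd ℂ g D) (hh : AnalyticOnNhd ℂ h D)
    (hgh : ∀ t ∈ D, g t * h t = 0) : (∀ t ∈ D, g t = 0) ∨ ∀ t ∈ D, h t = 0 := by
  by_cases h1 : ∀ t ∈ D, g t = 0
  · exact Or.inl h1
  · right
    push Not at h1
    obtain ⟨x, hx, hgx⟩ := h1
    have h2 : Set.EqOn h 0 D := by
      refine hh.eqOn_zero_of_preconnected_of_eventuallyEq_zero hc hx ?_
      filter_upwards [(hg x hx).continuousAt.eventually_ne hgx, ho.mem_nhds hx] with t ht htD
      exact (mul_eq_zero.1 (hgh t htD)).resolve_left ht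
    exact fun t ht => h2 ht

omit [Field k] [Algebra k ℂ] in
private theorem cl_prod {D : Set (Fin m → ℂ)} (hc : IsPreconnected D) (ho : IsOpen D)
    (hD : D.Nonempty) {α : Type*} (s : Finset α) (g : α → (Fin m → ℂ) → ℂ)
    (hg : ∀ i ∈ s, AnalyticOnNhd ℂ (g i) D) (h0 : ∀ i ∈ s, ∃ t ∈ D, g i t ≠ 0) :
    ∃ t ∈ D, ∀ i ∈ s, g i t ≠ 0 := by
  classical
  have key : ∀ s' ⊆ s, ∃ t ∈ D, ∏ i ∈ s', g i t ≠ 0 := by
    intro s'
    induction s' using Finset.induction_on with
    | empty =>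
      intro _
      obtain ⟨t, ht⟩ := hD
      exact ⟨t, ht, by simp⟩
    | insert i s' hi ih =>
      intro hs
      obtain ⟨t, ht, ht0⟩ := ih ((Finset.subset_insert i s').trans hs)
      by_contra hno
      push Not at hno
      have his : i ∈ s := hs (Finset.mem_insert_self i s')
      have h1 : AnalyticOnNhd ℂ (fun t => ∏ j ∈ s', g j t) D := by
        have := Finset.analyticOnNhd_fun_prod s' (f := g) (s := D) (𝕜 := ℂ)
          fun j hj => hg j (hs (Finset.mem_insert_of_mem hj))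
        exact this
      rcases cl_mul hc ho (hg i his) h1 (fun t ht => by
        have h3 := hno t ht
        rw [Finset.prod_insert hi] at h3
        exact h3) with h2 | h2
      · obtain ⟨x, hx, hx0⟩ := h0 i his
        exact hx0 (h2 x hx)
      · exact ht0 (h2 t ht)
  obtain ⟨t, ht, ht0⟩ := key s subset_rfl
  exact ⟨t, ht, fun i hi => Finset.prod_ne_zero_iff.1 ht0 i hi⟩

private theorem cl_eqn (ha : a.IsAnalytic) {f : Fin μ → MvPolynomial (Fin m) k}
    (hf : ∀ t ∈ a.U, a.w t ^ μ = ∑ l : Fin μ, MvPolynomial.aeval t (f l) * a.w t ^ (l : ℕ))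
    {b : Element m (Fin r)} (h : Reach S a b) : b.IsAnalytic ∧
      ∀ t ∈ b.U, b.w t ^ μ = ∑ l : Fin μ, MvPolynomial.aeval t (f l) * b.w t ^ (l : ℕ) := by
  induction h with
  | refl => exact ⟨ha, hf⟩
  | @tail b c _ hbc ih =>
    obtain ⟨⟨hb, hc, O, hO, ⟨x, hx⟩, hOb, hOc, heq⟩, -⟩ := hbc
    refine ⟨hc, ?_⟩
    have h1 : AnalyticOnNhd ℂ (fun t => c.w t ^ μ -
        ∑ l : Fin μ, MvPolynomial.aeval t (f l) * c.w t ^ (l : ℕ)) c.U := by
      refine (hc.2.2.1.pow μ).sub ?_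
      have := Finset.analyticOnNhd_fun_sum (Finset.univ : Finset (Fin μ)) (s := c.U) (𝕜 := ℂ)
        (f := fun l t => MvPolynomial.aeval t (f l) * c.w t ^ (l : ℕ)) fun l _ => by
          refine AnalyticOnNhd.mul ?_ (hc.2.2.1.pow l)
          intro z _
          exact AnalyticAt.aeval_mvPolynomial
            (fun i => (ContinuousLinearMap.proj (R := ℂ) (φ := fun _ : Fin m => ℂ) i).analyticAt z)
            (f l)
      exact this
    have h2 : Set.EqOn (fun t => c.w t ^ μ -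
        ∑ l : Fin μ, MvPolynomial.aeval t (f l) * c.w t ^ (l : ℕ)) 0 c.U := by
      refine h1.eqOn_zero_of_preconnected_of_eventuallyEq_zero hc.2.1 (hOc hx) ?_
      filter_upwards [hO.mem_nhds hx] with t ht
      change c.w t ^ μ - ∑ l : Fin μ, MvPolynomial.aeval t (f l) * c.w t ^ (l : ℕ) = 0
      rw [← (heq t ht).1, sub_eq_zero]
      exact ih.2 t (hOb ht)
    exact fun t ht => sub_eq_zero.1 (h2 ht)

private theorem cl_roots (c : Fin μ → ℂ) (z : Fin (μ + 1) → ℂ) (hz : Function.Injective z)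
    (h : ∀ i, z i ^ μ = ∑ l : Fin μ, c l * z i ^ (l : ℕ)) : False := by
  classical
  let q : Polynomial ℂ := ∑ l : Fin μ, Polynomial.C (c l) * Polynomial.X ^ (l : ℕ)
  have hq : q.degree < μ := Polynomial.degree_sum_fin_lt c
  have hm : (Polynomial.X ^ μ - q).Monic := Polynomial.monic_X_pow_sub hq
  have hd : (Polynomial.X ^ μ - q).degree = (μ : WithBot ℕ) := by
    rw [Polynomial.degree_sub_eq_left_of_degree_lt]
    · exact Polynomial.degree_X_pow μ
    · rw [Polynomial.degree_X_pow]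
      exact hq
  have hroot : ∀ i, (Polynomial.X ^ μ - q).IsRoot (z i) := by
    intro i
    rw [Polynomial.IsRoot.def, Polynomial.eval_sub, Polynomial.eval_pow, Polynomial.eval_X, h i,
      Polynomial.eval_finsetSum, sub_eq_zero]
    refine Finset.sum_congr rfl fun l _ => ?_
    simp
  have h1 : (Finset.univ.image z).card ≤ (Polynomial.X ^ μ - q).natDegree := by
    apply Polynomial.card_le_degree_of_subset_roots
    intro x hx
    rw [Finset.mem_val, Finset.mem_image] at hx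
    obtain ⟨i, -, rfl⟩ := hx
    exact (Polynomial.mem_roots hm.ne_zero).2 (hroot i)
  rw [Finset.card_image_of_injective _ hz, Finset.card_univ, Fintype.card_fin,
    Polynomial.natDegree_eq_of_degree_eq_some hd] at h1
  omega

theorem periodMap_of_VHS (h : IsVHS S a lev j ψ) : IsPeriodMap k S a := by
  refine ⟨h.ne, h.analytic, h.dom, h.ext, ?_, h.det⟩
  intro b c hb hc hU hw
  obtain ⟨γ, -, hγ⟩ := h.int b c hb hc hU hw
  refine ⟨Matrix.GeneralLinearGroup.map (Int.castRingHom k) γ, fun t ht => ?_⟩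
  rw [hγ t ht]
  congr 1
  ext i j
  change (((γ : Matrix (Fin r) (Fin r) ℤ) i j : ℤ) : ℂ) =
    algebraMap k ℂ (((γ : Matrix (Fin r) (Fin r) ℤ) i j : ℤ) : k)
  rw [map_intCast]

theorem IsPeriodMap.reach_ext (h : IsPeriodMap k S a) (hb : Reach S a b) {D : Set (Fin m → ℂ)}
    (hD : IsOpen D) (hD' : Convex ℝ D) (hDS : ∀ t ∈ D, MvPolynomial.eval t S ≠ 0) {t : Fin m → ℂ}
    (ht : t ∈ b.U) (ht' : t ∈ D) : ∃ c : Element m (Fin r), Reach S a c ∧ c.U = D ∧
      ∀ᶠ s in nhds t, b.w s = c.w s ∧ b.P s = c.P s := by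
  obtain ⟨w, P, h1, h2⟩ := h.ext b hb D hD hD' hDS t ⟨ht, ht'⟩
  have hb' := reach_analytic h.analytic hb
  refine ⟨⟨D, w, P⟩, hb.tail ⟨⟨hb', h1, ?_⟩, hDS⟩, rfl, h2⟩
  obtain ⟨O, hO, hOo, htO⟩ := eventually_nhds_iff.mp h2
  refine ⟨O ∩ (b.U ∩ D), hOo.inter (hb'.1.inter hD), ⟨t, htO, ht, ht'⟩, fun s hs => hs.2.1,
    fun s hs => hs.2.2, fun s hs => hO s hs.1⟩

theorem exists_w_reps (ha : a.IsAnalytic) (hw : IsBranchM k a.U μ a.w) {D : Set (Fin m → ℂ)}
    (hD : D.Nonempty) :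
    ∃ n ≤ μ, ∃ G : Fin n → Element m (Fin r), (∀ i, Reach S a (G i) ∧ (G i).U = D) ∧
      ∀ b, Reach S a b → b.U = D → ∃ i, ∀ t ∈ D, b.w t = (G i).w t := by
  classical
  obtain ⟨f, hf⟩ := hw.eqn
  let Q : ℕ → Prop := fun n => ∃ G : Fin n → Element m (Fin r),
    (∀ i, Reach S a (G i) ∧ (G i).U = D) ∧ ∀ i j, i ≠ j → ∃ t ∈ D, (G i).w t ≠ (G j).w t
  have hQ0 : Q 0 := ⟨fun i => i.elim0, fun i => i.elim0, fun i => i.elim0⟩
  have hQ1 : ¬ Q (μ + 1) := by
    rintro ⟨G, hG, hne⟩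
    have hDo : IsOpen D := by
      rw [← (hG 0).2]
      exact (cl_eqn ha hf (hG 0).1).1.1
    have hDc : IsPreconnected D := by
      rw [← (hG 0).2]
      exact (cl_eqn ha hf (hG 0).1).1.2.1
    have han : ∀ i, AnalyticOnNhd ℂ (G i).w D := by
      intro i
      rw [← (hG i).2]
      exact (cl_eqn ha hf (hG i).1).1.2.2.1
    obtain ⟨t, ht, ht0⟩ := cl_prod hDc hDo hD (Finset.univ : Finset (Fin (μ + 1))).offDiag
      (fun p t => (G p.1).w t - (G p.2).w t) (fun p _ => (han p.1).sub (han p.2)) (fun p hp => by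
        obtain ⟨t, ht, ht0⟩ := hne p.1 p.2 (Finset.mem_offDiag.1 hp).2.2
        exact ⟨t, ht, sub_ne_zero.2 ht0⟩)
    refine cl_roots (fun l => MvPolynomial.aeval t (f l)) (fun i => (G i).w t) ?_ ?_
    · intro i j hij
      by_contra hne'
      exact ht0 (i, j) (Finset.mem_offDiag.2 ⟨Finset.mem_univ _, Finset.mem_univ _, hne'⟩)
        (sub_eq_zero.2 hij)
    · intro i
      exact (cl_eqn ha hf (hG i).1).2 t (by rw [(hG i).2]; exact ht)
  have hex : ∃ n ≤ μ, Q n ∧ ¬ Q (n + 1) := by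
    by_contra hno
    push Not at hno
    have : ∀ n ≤ μ + 1, Q n := fun n => by
      induction n with
      | zero => exact fun _ => hQ0
      | succ n ih => exact fun hn => hno n (by omega) (ih (by omega))
    exact hQ1 (this _ le_rfl)
  obtain ⟨n, hnμ, ⟨G, hG, hne⟩, hn⟩ := hex
  refine ⟨n, hnμ, G, hG, fun b hb hbD => ?_⟩
  by_contra hno
  push Not at hno
  apply hn
  refine ⟨Fin.cons b G, ?_, ?_⟩
  · intro i
    refine Fin.cases ?_ (fun i => ?_) i
    · exact ⟨hb, hbD⟩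
    · exact hG i
  · intro i j
    refine Fin.cases ?_ (fun i => ?_) i
    · refine Fin.cases ?_ (fun j => ?_) j
      · exact fun h => absurd rfl h
      · intro _
        exact hno j
    · refine Fin.cases ?_ (fun j => ?_) j
      · intro _
        obtain ⟨t, ht, ht0⟩ := hno i
        exact ⟨t, ht, Ne.symm ht0⟩
      · intro hij
        exact hne i j fun h => hij (congrArg Fin.succ h)

theorem reach_empty (hne : ¬ a.U.Nonempty) (h : Reach S a b) : b = a := by
  rcases Relation.ReflTransGen.cases_head h with h1 | ⟨c, ⟨⟨-, -, O, -, ⟨x, hx⟩, hOa, -⟩, -⟩, -⟩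
  · exact h1.symm
  · exact absurd ⟨x, hOa hx⟩ hne

end Pool.Agent.Helper79.GB
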