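import Pool.Agent.Helper64.Per.Defs
import Mathlib.LinearAlgebra.Basis.Defs

/-!
# GB: a basis of a number field as complex numbers
-/

namespace Pool.Agent.Helper79.GB

open Pool.Agent.Helper64.Per

/-- The elements of the basis `ω` of `κ` over `ℚ`, as complex numbers. -/
noncomputable def basC {κ : IntermediateField ℚ Qbar} {J : Type} (ω : Module.Basis J ℚ κ) (j : J) : ℂ :=
  algebraMap κ ℂ (ω j)

end Pool.Agent.Helper79.GB
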