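import Pool.Agent.Helper79.FX.Stat

/-!
# GB: all points of the base: definitions
-/

namespace Pool.Agent.Helper79.GB

open Matrix Pool.Agent.Helper79.BB Pool.Agent.Helper79.HH Pool.Agent.Helper79.FX
  Pool.Agent.Helper64.Per Pool.Agent.Helper79.DD

variable {m r : ℕ}

/-- The function element `a = (U, w, P)` is given by a branch `w` over `U` of a finite étale covering of the complement of the
hypersurface `S = 0` in `ℂ^m`, and the period matrix `P` of a local system of `k`-vector spaces of dimension `r` over this covering, for
example given by a local system of lattices.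

* `ext`: all continuations `b` of `a` can be continued to all convex open sets in the complement of `S = 0` which meet the domain of `b`;
* `mono`: two continuations with the same domain and the same branch `w` differ by a change of the basis of the local system;
* `det`: the continued period matrix is invertible. -/
structure IsPeriodMap (k : Type) [Field k] [Algebra k ℂ] (S : MvPolynomial (Fin m) ℂ) (a : Element m (Fin r)) :
    Prop where
  ne : S ≠ 0
  analytic : a.IsAnalytic
  dom : ∀ t ∈ a.U, MvPolynomial.eval t S ≠ 0
  ext : ∀ b, Reach S a b → ∀ D : Set (Fin m → ℂ), IsOpen D → Convex ℝ D →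
    (∀ t ∈ D, MvPolynomial.eval t S ≠ 0) → ∀ t ∈ b.U ∩ D,
      ∃ (w : (Fin m → ℂ) → ℂ) (P : (Fin m → ℂ) → Matrix (Fin r) (Fin r) ℂ),
        (⟨D, w, P⟩ : Element m (Fin r)).IsAnalytic ∧ ∀ᶠ s in nhds t, b.w s = w s ∧ b.P s = P s
  mono : ∀ b c, Reach S a b → Reach S a c → b.U = c.U → (∀ t ∈ b.U, b.w t = c.w t) →
    ∃ γ : GL (Fin r) k,
      ∀ t ∈ b.U, c.P t = b.P t * (γ : Matrix (Fin r) (Fin r) k).map (algebraMap k ℂ)
  det : ∀ b, Reach S a b → ∀ t ∈ b.U, IsUnit (b.P t).det

end Pool.Agent.Helper79.GB
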