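import Pool.Agent.Helper79.GB.RelT

/-!
# The relations between periods are invariant under changes of the basis with entries in the number field

`rel_rmulK`: the version of `rel_rmul` for `γ ∈ GL_r(κ)` (helper88).
-/

namespace Pool.Agent.Helper79.GB

open Matrix Pool.Agent.Helper79.BB Pool.Agent.Helper79.HH Pool.Agent.Helper64.Per

variable {κ : IntermediateField ℚ Qbar} {m : ℕ}

/-- substitution `M ↦ M * A` -/
private noncomputable def rkSub {r : ℕ} (R : Type) [CommRing R] (A : Matrix (Fin r) (Fin r) R) :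
    MvPolynomial (Fin r × Fin r) R →ₐ[R] MvPolynomial (Fin r × Fin r) R :=
  MvPolynomial.aeval fun x => ∑ l, MvPolynomial.C (A l x.2) * MvPolynomial.X (x.1, l)

private theorem rk_sub_aeval {r : ℕ} {R : Type} [CommRing R] [Algebra R ℂ]
    (A : Matrix (Fin r) (Fin r) R) (q : MvPolynomial (Fin r × Fin r) R)
    (M : Matrix (Fin r) (Fin r) ℂ) :
    MvPolynomial.aeval (fun p : Fin r × Fin r => M p.1 p.2) (rkSub R A q) =
      MvPolynomial.aeval (fun p : Fin r × Fin r => (M * A.map (algebraMap R ℂ)) p.1 p.2) q := by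
  rw [rkSub, MvPolynomial.comp_aeval_apply]
  refine congrArg (fun f => MvPolynomial.aeval f q) ?_
  funext x
  rw [map_sum, Matrix.mul_apply]
  refine Finset.sum_congr rfl fun l _ => ?_
  rw [map_mul, MvPolynomial.aeval_C, MvPolynomial.aeval_X, Matrix.map_apply, mul_comm]

private theorem rk_totalDegree {r : ℕ} {R : Type} [Field R] (A : Matrix (Fin r) (Fin r) R)
    (q : MvPolynomial (Fin r × Fin r) R) : (rkSub R A q).totalDegree ≤ q.totalDegree := by
  classical
  have key : ∀ (h : Fin r × Fin r → MvPolynomial (Fin r × Fin r) R)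
      (_ : ∀ x, (h x).totalDegree ≤ 1), (MvPolynomial.aeval h q).totalDegree ≤ q.totalDegree := by
    intro h hh
    rw [MvPolynomial.aeval_def, MvPolynomial.eval₂_eq]
    refine MvPolynomial.totalDegree_finsetSum_le fun d hd => ?_
    refine (MvPolynomial.totalDegree_mul _ _).trans ?_
    rw [MvPolynomial.algebraMap_eq, MvPolynomial.totalDegree_C, zero_add]
    refine (MvPolynomial.totalDegree_finsetProd _ _).trans ?_
    refine le_trans (Finset.sum_le_sum fun x _ => ?_) (MvPolynomial.le_totalDegree hd)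
    refine (MvPolynomial.totalDegree_pow _ _).trans ?_
    calc d x * (h x).totalDegree ≤ d x * 1 := Nat.mul_le_mul_left _ (hh x)
      _ = d x := mul_one _
  refine key _ fun x => ?_
  refine MvPolynomial.totalDegree_finsetSum_le fun l _ => ?_
  refine (MvPolynomial.totalDegree_mul _ _).trans ?_
  rw [MvPolynomial.totalDegree_C, zero_add, MvPolynomial.totalDegree_X]

/-- substitution in the matrix variables -/
private theorem rk_subP {r : ℕ} (A : Matrix (Fin r) (Fin r) Qbar)
    (q : MvPolynomial ((Fin m ⊕ Unit) ⊕ Fin r × Fin r) Qbar) :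
    ∃ q' : MvPolynomial ((Fin m ⊕ Unit) ⊕ Fin r × Fin r) Qbar,
      ∀ (x : Fin m → ℂ) (y : ℂ) (M : Matrix (Fin r) (Fin r) ℂ),
        evP q' x y M = evP q x y (M * A.map (algebraMap Qbar ℂ)) := by
  refine ⟨MvPolynomial.aeval (Sum.elim (fun i => MvPolynomial.X (Sum.inl i))
    (fun p : Fin r × Fin r => ∑ l, MvPolynomial.C (A l p.2) *
      MvPolynomial.X (Sum.inr (p.1, l)))) q, fun x y M => ?_⟩
  unfold evP
  rw [MvPolynomial.comp_aeval_apply]
  refine congrArg (fun f => MvPolynomial.aeval f q) ?_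
  funext z
  rcases z with z | z
  · rw [Sum.elim_inl, MvPolynomial.aeval_X]
    rfl
  · rw [Sum.elim_inr, Sum.elim_inr, map_sum, Matrix.mul_apply]
    refine Finset.sum_congr rfl fun l _ => ?_
    rw [map_mul, MvPolynomial.aeval_C, MvPolynomial.aeval_X, Matrix.map_apply, mul_comm]
    rfl

private theorem rk_map_mul {r : ℕ} {A B : Matrix (Fin r) (Fin r) κ} (h : A * B = 1) :
    A.map (algebraMap κ ℂ) * B.map (algebraMap κ ℂ) = 1 := by
  have h1 : (A * B).map (algebraMap κ ℂ) = A.map (algebraMap κ ℂ) * B.map (algebraMap κ ℂ) :=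
    Matrix.map_mul
  rw [h] at h1
  have h2 : (1 : Matrix (Fin r) (Fin r) κ).map (algebraMap κ ℂ) = 1 :=
    Matrix.map_one _ (map_zero _) (map_one _)
  rw [h2] at h1
  exact h1.symm

/-- Relations of degree at most `δ` for the period matrix `P γ`, `γ ∈ GL_r(κ)`, give relations of degree at most `δ` for `P`. -/
theorem rel_rmulK {r : ℕ} {U : Set (Fin m → ℂ)} {w : (Fin m → ℂ) → ℂ}
    {P : (Fin m → ℂ) → Matrix (Fin r) (Fin r) ℂ} {t : Fin m → ℂ} (γ : GL (Fin r) κ) {δ : ℕ}
    (h : HasRelationM U w (fun u => P u * (γ : Matrix (Fin r) (Fin r) κ).map (algebraMap κ ℂ)) t κ δ) :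
    HasRelationM U w P t κ δ := by
  set A : Matrix (Fin r) (Fin r) κ := (γ : Matrix (Fin r) (Fin r) κ) with hA
  set B : Matrix (Fin r) (Fin r) κ := ((γ⁻¹ : GL (Fin r) κ) : Matrix (Fin r) (Fin r) κ) with hB
  have hAB : A.map (algebraMap κ ℂ) * B.map (algebraMap κ ℂ) = 1 :=
    rk_map_mul (by rw [hA, hB, ← Units.val_mul, mul_inv_cancel, Units.val_one])
  have hBA : B.map (algebraMap κ ℂ) * A.map (algebraMap κ ℂ) = 1 :=
    rk_map_mul (by rw [hA, hB, ← Units.val_mul, inv_mul_cancel, Units.val_one])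
  have hAd : IsUnit (A.map (algebraMap κ ℂ)).det := by
    have h1 := congrArg Matrix.det hAB
    rw [Matrix.det_mul, Matrix.det_one] at h1
    exact IsUnit.of_mul_eq_one _ h1
  have hBd : IsUnit (B.map (algebraMap κ ℂ)).det := by
    have h1 := congrArg Matrix.det hBA
    rw [Matrix.det_mul, Matrix.det_one] at h1
    exact IsUnit.of_mul_eq_one _ h1
  -- the matrices over `kapM`
  have hle : κ ≤ kapM κ t (w t) := le_sup_left
  set K := kapM κ t (w t) with hK
  set i : κ →+* K := (IntermediateField.inclusion hle).toRingHom with hi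
  have hcomp : ∀ z : κ, algebraMap K ℂ (i z) = algebraMap κ ℂ z := fun z => rfl
  have hmap : ∀ C : Matrix (Fin r) (Fin r) κ, (C.map i).map (algebraMap K ℂ) =
      C.map (algebraMap κ ℂ) := fun C => by
    ext a b
    rfl
  have hmapQ : ∀ C : Matrix (Fin r) (Fin r) κ, (C.map (algebraMap κ Qbar)).map (algebraMap Qbar ℂ) =
      C.map (algebraMap κ ℂ) := fun C => by
    ext a b
    rfl
  obtain ⟨p, hp1, hp2, hp3⟩ := h
  refine ⟨rkSub _ (A.map i) p, (rk_totalDegree _ p).trans hp1, fun M hM => ?_,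
    fun hcon => hp3 fun M hM => ?_⟩
  · have h1 : M * A.map (algebraMap κ ℂ) ∈ ZClosure (P t * A.map (algebraMap κ ℂ)) := by
      refine ⟨?_, fun q hq => ?_⟩
      · rw [Matrix.det_mul]
        exact hM.1.mul hAd
      · rw [← hmapQ, ← rk_sub_aeval] at hq ⊢
        exact hM.2 _ hq
    have h2 := hp2 _ h1
    unfold evK at h2 ⊢
    rw [rk_sub_aeval, hmap]
    exact h2
  · have h1 : M * B.map (algebraMap κ ℂ) ∈ BFibreM U w P t := by
      refine ⟨?_, fun q hq => ?_⟩
      · rw [Matrix.det_mul]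
        exact hM.1.mul hBd
      · obtain ⟨q', hq'⟩ := rk_subP (m := m) (B.map (algebraMap κ Qbar)) q
        rw [hmapQ] at hq'
        rw [← hq']
        refine hM.2 q' fun u hu => ?_
        rw [hq', Matrix.mul_assoc, hAB, Matrix.mul_one]
        exact hq u hu
    have h2 := hcon _ h1
    unfold evK at h2 ⊢
    rw [rk_sub_aeval, hmap, Matrix.mul_assoc, hBA, Matrix.mul_one] at h2
    exact h2

end Pool.Agent.Helper79.GB
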