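import Pool.Agent.Helper79.GB.Defs

/-!
# GB: the bad sets, with the definitions of `Pool/Agent/Helper79/DD/StatU.lean`
-/

namespace Pool.Agent.Helper79.GB

open Matrix Pool.Agent.Helper79.BB Pool.Agent.Helper79.HH Pool.Agent.Helper79.FX
  Pool.Agent.Helper64.Per Pool.Agent.Helper79.DD

variable {m r : ℕ}

section

variable {κ : IntermediateField ℚ Qbar} {J : Type} [Fintype J] (ω : Module.Basis J ℚ κ)
  (N : Finset (ℕ × J)) (S : MvPolynomial (Fin m) κ) (a : Element m (Fin r))

/-- The integer parameters `x` with coordinates of absolute value at most `X` such that for a root `θ` of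
`F_x` with `G_0(θ) ≠ 0` and the point `t = (G_1(θ) / G_0(θ), …, G_m(θ) / G_0(θ))` there is a continuation `b = (U, w, P)` of
`a` in the complement of `S = 0` with `t ∈ U` and a relation of degree at most `δ` over `κ(s)` at the point `s = (t, w t)`. -/
def RelPointG (δ D e X : ℕ) : Set (DD.Px m D e J N → ℤ) :=
  {x | (∀ p, |x p| ≤ X) ∧ ∃ θ : ℂ, polyU ω N x θ = 0 ∧ denU ω N x θ ≠ 0 ∧
    ∃ b, Reach (S.map (algebraMap κ ℂ)) a b ∧ pointU ω N x θ ∈ b.U ∧
      HasRelationM b.U b.w b.P (pointU ω N x θ) κ δ}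

/-- The integer parameters `x` with coordinates of absolute value at most `X` such that for a root `θ` of
`F_x` with `G_0(θ) ≠ 0` and the point `t = (G_1(θ) / G_0(θ), …, G_m(θ) / G_0(θ))` there is a continuation `b` of
`a` in the complement of `S = 0`, with `t` in its domain, for which `t` is not Hodge generic. -/
def NotGenericG (lev : Fin r → ℤ) (j : ℤ) (D e X : ℕ) : Set (DD.Px m D e J N → ℤ) :=
  {x | (∀ p, |x p| ≤ X) ∧ ∃ θ : ℂ, polyU ω N x θ = 0 ∧ denU ω N x θ ≠ 0 ∧
    ∃ b, Reach (S.map (algebraMap κ ℂ)) a b ∧ pointU ω N x θ ∈ b.U ∧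
      ¬ IsGeneric (S.map (algebraMap κ ℂ)) b lev j (pointU ω N x θ)}

end

end Pool.Agent.Helper79.GB
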