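import Pool.Agent.Helper79.GB.Main
import Pool.Agent.Helper79.GB.RelTK
import Pool.Agent.Helper79.GB.Sets
import Pool.Agent.Helper79.GB.Cls
import Pool.Agent.Helper79.FX.Main

/-!
# GB: period relations and Hodge generic points, for all points of the base

(helper79)
-/

set_option linter.unusedSectionVars false

namespace Pool.Agent.Helper79.GB

open Matrix Module Pool.Agent.Helper79.BB Pool.Agent.Helper79.HH Pool.Agent.Helper79.HJ
  Pool.Agent.Helper79.FX Pool.Agent.Helper64.Per Pool.Agent.Helper79.DD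

theorem eval_map_eq {κ : Type} [Field κ] [Algebra κ ℂ] {m : ℕ} (S : MvPolynomial (Fin m) κ)
    (t : Fin m → ℂ) : MvPolynomial.eval t (S.map (algebraMap κ ℂ)) = MvPolynomial.aeval t S := by
  rw [MvPolynomial.eval_map, MvPolynomial.aeval_def]

theorem ne_of_map {κ : Type} [Field κ] [Algebra κ ℂ] {m : ℕ} {S : MvPolynomial (Fin m) κ}
    (h : S.map (algebraMap κ ℂ) ≠ 0) : S ≠ 0 := by
  rintro rfl
  exact h (map_zero _)

section

variable {κ : IntermediateField ℚ Qbar} {m : ℕ} {F : FamiliesM κ m} {μ r₀ r : ℕ}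
  {E : F.Sub μ r₀ (Fin r)} {S : MvPolynomial (Fin m) κ} {a b : Element m (Fin r)}

/-- Two elements with the same domain and equal functions on it have the same relations. -/
theorem rel_congr {ι : Type} [Fintype ι] [DecidableEq ι] {a b : Element m ι} (ha : a.IsAnalytic)
    (hb : b.IsAnalytic) (hU : a.U = b.U) {t : Fin m → ℂ} (ht : t ∈ a.U)
    (heq : ∀ s ∈ a.U, a.w s = b.w s ∧ a.P s = b.P s) {δ : ℕ}
    (h : HasRelationM a.U a.w a.P t κ δ) : HasRelationM b.U b.w b.P t κ δ := by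
  refine rel_germ ha hb ht (by rw [← hU]; exact ht) ?_ h
  filter_upwards [ha.1.mem_nhds ht] with s hs
  exact heq s hs

theorem isReach_rel (h : IsPeriodMap κ (S.map (algebraMap κ ℂ)) a) {f : Fin μ → MvPolynomial (Fin m) κ}
    (hwa : AnalyticOnNhd ℂ a.w a.U)
    (hf : ∀ t ∈ a.U, a.w t ^ μ = ∑ l : Fin μ, MvPolynomial.aeval t (f l) * a.w t ^ (l : ℕ))
    (hP : E.IsPeriod a.U a.w a.P) (δ : ℕ) :
    IsReach E S f μ δ fun x => ∃ b, Reach (S.map (algebraMap κ ℂ)) a b ∧ x ∈ b.U ∧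
      HasRelationM b.U b.w b.P x κ δ := by
  intro x₀ R₀ hR₀ hball
  have hDS : ∀ t ∈ Metric.ball x₀ R₀, MvPolynomial.eval t (S.map (algebraMap κ ℂ)) ≠ 0 := by
    intro t ht h0
    rw [eval_map_eq] at h0
    exact hball t ht (by rw [map_mul, h0, mul_zero])
  have hflat : IsFlat E a.U a.w a.P := by
    rcases a.U.eq_empty_or_nonempty with he | ⟨t₁, ht₁⟩
    · intro t ht
      rw [he] at ht
      exact ht.elim
    · refine flat_of_period h.analytic.1 hP ?_
      rcases Nat.eq_zero_or_pos μ with h0 | h0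
      · subst h0
        have h1 := hf _ ht₁
        simp at h1
      · exact h0
  obtain ⟨n, hn, G, hG, hGw⟩ := exists_w_reps (S := S.map (algebraMap κ ℂ)) h.analytic
    (⟨hwa, f, hf⟩ : IsBranchM κ a.U μ a.w) (D := Metric.ball x₀ R₀)
    ⟨x₀, Metric.mem_ball_self hR₀⟩
  refine ⟨n, hn, G, fun k => ⟨reach_analytic h.analytic (hG k).1, (hG k).2,
    eqn_reach h.analytic hf (hG k).1, flat_reach (hG k).1 hflat⟩, ?_⟩
  rintro x hx ⟨b, hb, hxb, hrel⟩
  obtain ⟨c, hc, hcU, heq⟩ := h.reach_ext hb Metric.isOpen_ball (convex_ball x₀ R₀) hDS hxb hx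
  obtain ⟨k, hk⟩ := hGw c hc hcU
  have hba := reach_analytic h.analytic hb
  have hca := reach_analytic h.analytic hc
  have hGa := reach_analytic h.analytic (hG k).1
  have hxc : x ∈ c.U := by rw [hcU]; exact hx
  have hxG : x ∈ (G k).U := by rw [(hG k).2]; exact hx
  refine ⟨k, h.det _ (hG k).1 x hxG, ?_⟩
  obtain ⟨γ, hγ⟩ := h.mono (G k) c (hG k).1 hc ((hG k).2.trans hcU.symm) (fun t ht => by
    rw [(hG k).2] at ht
    exact (hk t ht).symm)
  have h1 : HasRelationM c.U c.w c.P x κ δ := rel_germ hba hca hxb hxc heq hrel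
  refine rel_rmulK γ ?_
  have h2 : (rmul (G k) ((γ : Matrix (Fin r) (Fin r) κ).map (algebraMap κ ℂ))).IsAnalytic := by
    refine ⟨hGa.1, hGa.2.1, hGa.2.2.1, fun i j => ?_⟩
    change AnalyticOnNhd ℂ (fun t => ((G k).P t *
      (γ : Matrix (Fin r) (Fin r) κ).map (algebraMap κ ℂ)) i j) (G k).U
    simp only [Matrix.mul_apply]
    exact Finset.analyticOnNhd_fun_sum _ fun l _ => (hGa.2.2.2 i l).mul analyticOnNhd_const
  exact rel_congr (b := rmul (G k) ((γ : Matrix (Fin r) (Fin r) κ).map (algebraMap κ ℂ)))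
    hca h2 (hcU.trans (hG k).2.symm) hxc (fun s hs => by
      rw [hcU] at hs
      exact ⟨hk s hs, hγ s (by rw [(hG k).2]; exact hs)⟩) h1

end

theorem relG_count {κ : IntermediateField ℚ Qbar} [FiniteDimensional ℚ κ] {m : ℕ} (hm : 1 ≤ m)
    {F : FamiliesM κ m} {μ r₀ r : ℕ} (E : F.Sub μ r₀ (Fin r)) {S : MvPolynomial (Fin m) κ}
    {a : Element m (Fin r)} (h : IsPeriodMap κ (S.map (algebraMap κ ℂ)) a) (hw : IsBranchM κ a.U μ a.w)
    (hP : E.IsPeriod a.U a.w a.P) {J : Type} [Fintype J] (ω : Module.Basis J ℚ κ)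
    {D : ℕ} (hD : 1 ≤ D) (e : ℕ) (N : Finset (ℕ × J)) (hN : ∃ j, (0, j) ∈ N) :
    ∃ A : ℕ, ∀ δ X : ℕ, 1 ≤ X → ((RelPointG ω N S a δ D e X).ncard : ℝ) ≤
      Real.exp (((δ : ℝ) + 2) ^ A) *
        (X : ℝ) ^ ((((D + 1 + m * (e + 1)) * Module.finrank ℚ κ + N.card : ℕ) : ℝ) -
          1 / ((δ : ℝ) + 2) ^ A) := by
  classical
  rcases Nat.eq_zero_or_pos r with hr | hr
  · subst hr
    refine ⟨0, fun δ X _ => ?_⟩
    have : RelPointG ω N S a δ D e X = ∅ := by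
      rw [Set.eq_empty_iff_forall_notMem]
      rintro x ⟨_, θ, _, _, b, hb, hxb, ρ, _, h1, h2⟩
      apply h2
      intro M _
      have h3 := h1 (b.P (pointU ω N x θ)) ⟨h.det b hb _ hxb, fun q hq => hq⟩
      rwa [Subsingleton.elim M (b.P (pointU ω N x θ))]
    rw [this, Set.ncard_empty, Nat.cast_zero]
    positivity
  · have : Nonempty (Fin r) := ⟨⟨0, hr⟩⟩
    obtain ⟨f, hf⟩ := hw.eqn
    obtain ⟨A, hA⟩ := mainR hm E (ne_of_map h.ne) f μ ω hN hD e
    exact ⟨A, fun δ X hX => hA δ _ (isReach_rel h hw.analytic hf hP δ) X hX⟩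

/-- The continuations of a variation of Hodge structure. -/
theorem vhs_reach {m r : ℕ} {S : MvPolynomial (Fin m) ℂ} {a b : Element m (Fin r)} {lev : Fin r → ℤ}
    {j : ℤ} {ψ : Matrix (Fin r) (Fin r) ℚ} (h : IsVHS S a lev j ψ) (hb : Reach S a b) :
    IsVHS S b lev j ψ :=
  ⟨h.ne, reach_analytic h.analytic hb, reach_dom h.dom hb,
    fun c hc => h.ext c (hb.trans hc), fun c c' hc hc' => h.int c c' (hb.trans hc) (hb.trans hc'),
    fun c hc => h.det c (hb.trans hc), fun c hc => h.pol c (hb.trans hc),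
    fun c hc => h.trans c (hb.trans hc)⟩

theorem genericG_count {κ : IntermediateField ℚ Qbar} [FiniteDimensional ℚ κ] {m : ℕ} (hm : 1 ≤ m)
    {F : FamiliesM κ m} {μ r₀ r : ℕ} (E : F.Sub μ r₀ (Fin r)) {S : MvPolynomial (Fin m) κ}
    {a : Element m (Fin r)} {lev : Fin r → ℤ} {j : ℤ} {ψ : Matrix (Fin r) (Fin r) ℚ}
    (h : IsVHS (S.map (algebraMap κ ℂ)) a lev j ψ) (hw : IsBranchM κ a.U μ a.w)
    (hP : E.IsPeriod a.U a.w a.P) {J : Type} [Fintype J] (ω : Module.Basis J ℚ κ)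
    {D : ℕ} (hD : 1 ≤ D) (e : ℕ) (N : Finset (ℕ × J)) (hN : ∃ j, (0, j) ∈ N) :
    ∃ C θ₀ : ℝ, 0 < θ₀ ∧ ∀ X : ℕ, 1 ≤ X → ((NotGenericG ω N S a lev j D e X).ncard : ℝ) ≤
        C * (X : ℝ) ^ ((((D + 1 + m * (e + 1)) * Module.finrank ℚ κ + N.card : ℕ) : ℝ) - θ₀) := by
  classical
  obtain ⟨A, hA⟩ := relG_count hm E (periodMap_of_VHS h) hw hP ω hD e N hN
  set δ : ℕ := 2 * Fintype.card (Fin r) + 2 with hδ
  refine ⟨Real.exp (((δ : ℝ) + 2) ^ A), 1 / ((δ : ℝ) + 2) ^ A, by positivity, fun X hX => ?_⟩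
  refine le_trans ?_ (hA δ X hX)
  have hfin : (RelPointG ω N S a δ D e X).Finite := (AA.box_card X _ fun a ha => ha.1).1
  have hsub : NotGenericG ω N S a lev j D e X ⊆ RelPointG ω N S a δ D e X := by
    rintro x ⟨hx, θ, hθ, hq, b, hb, hxb, hne⟩
    refine ⟨hx, θ, hθ, hq, b, hb, hxb, ?_⟩
    by_contra hrel
    apply hne
    obtain ⟨f, hf⟩ := hw.eqn
    have hbw : IsBranchM κ b.U μ b.w := ⟨(reach_analytic h.analytic hb).2.2.1, f,
      eqn_reach h.analytic hf hb⟩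
    exact generic_of (vhs_reach h hb) hbw hxb
      (mtContains_of_noRel hxb hrel (h.det b hb _ hxb) (h.pol b hb _ hxb))
  exact_mod_cast Set.ncard_le_ncard hsub hfin

end Pool.Agent.Helper79.GB
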