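import Pool.Agent.Helper79.BB.Main
import Pool.Agent.Helper79.FX.Chain

/-!
# GB-03: the differential equations of the period matrix, continued along chains

* `IsFlat E U w P`: the functions `w^l P_(a,k)` satisfy the equations of the sub-connection `E` on `U`.
* `flat_of_period`: the beginning of the proof of `words_sys` in `Pool/Agent/Helper79/BB/Main.lean` (`hPan` and `hode` there).
* `words_of_flat`: the end of that proof (`words_analyticM`, `words_odeM`).
* `flat_next`: the two sides are analytic functions on `b.U` (`AnalyticOnNhd.fderiv`, sums, products, `AnalyticAt.aeval_mvPolynomial`; see `AnU.analytic_pd` in `Pool/Agent/Helper79/HG/An.lean`) and agree on the nonempty open set `O`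
  (`Filter.EventuallyEq.fderiv_eq`: `pd` only depends on the germ), so on `b.U` by the identity theorem (`AnalyticOnNhd.eqOn_zero_of_preconnected_of_eventuallyEq_zero` for the difference).
* `flat_reach`, `eqn_reach`: induction on the chain (for `eqn_reach` copy `fw_eqn` of `Pool/Agent/Helper79/FX/FinW.lean`).
-/

namespace Pool.Agent.Helper79.GB

open Matrix Pool.Agent.Helper79.BB Pool.Agent.Helper79.HH Pool.Agent.Helper79.FX
  Pool.Agent.Helper64.Per Pool.Agent.Helper79.CU Pool.Agent.Helper79.AA Pool.Agent.Helper79.GX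
  Pool.Agent.Helper79.GA

section

variable {κ : IntermediateField ℚ Qbar} {m : ℕ} {F : FamiliesM κ m} {μ r₀ : ℕ} {ι : Type}
  [Fintype ι] [DecidableEq ι] (E : F.Sub μ r₀ ι)

/-- The functions `w^l P_(a,k)` satisfy the equations of the sub-connection `E`. -/
def IsFlat (U : Set (Fin m → ℂ)) (w : (Fin m → ℂ) → ℂ) (P : (Fin m → ℂ) → Matrix ι ι ℂ) : Prop :=
  ∀ t ∈ U, ∀ (s : Fin m) (p : Fin μ × ι) (k : ι),
    MvPolynomial.aeval t F.T * pd s (fun t => w t ^ (p.1 : ℕ) * P t p.2 k) t =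
      ∑ q : Fin μ × ι, MvPolynomial.aeval t (SubTensorM.B E s p q) * (w t ^ (q.1 : ℕ) * P t q.2 k)

variable {E}

theorem flat_of_period {U : Set (Fin m → ℂ)} (hU : IsOpen U) {w : (Fin m → ℂ) → ℂ}
    {P : (Fin m → ℂ) → Matrix ι ι ℂ} (hP : E.IsPeriod U w P) (hμ : 0 < μ) : IsFlat E U w P := by
  classical
  obtain ⟨g', Vs, cc, hVs, hPV⟩ := hP
  obtain ⟨W, hW⟩ : ∃ W : (Fin m → ℂ) → Matrix (Fin μ × ι) ι ℂ, W = fun t p k =>
    ∑ I, MvPolynomial.aeval t (SubTensorM.M E p I) * (tpow r₀ (Vs t) * cc) I k := ⟨_, rfl⟩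
  have hWP : ∀ t ∈ U, ∀ (l : Fin μ) (x y : ι), w t ^ (l : ℕ) * P t x y = W t (l, x) y := by
    rw [hW]
    exact hPV
  have hWode : ∀ t ∈ U, ∀ p k, ∀ s, MvPolynomial.aeval t F.T * pd s (fun t => W t p k) t =
        ∑ q, MvPolynomial.aeval t (SubTensorM.B E s p q) * W t q k := by
    intro t ht p k
    rw [hW]
    exact (sub_odeM E hVs cc ht p k).2
  intro t ht s p k
  have h1 : (fun t => w t ^ (p.1 : ℕ) * P t p.2 k) =ᶠ[nhds t] fun t => W t p k := by
    filter_upwards [hU.mem_nhds ht] with z hz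
    exact hWP z hz p.1 p.2 k
  rw [pd_congr h1, hWode t ht p k s]
  exact Finset.sum_congr rfl fun q _ => by rw [← hWP t ht q.1 q.2 k]

theorem words_of_flat {U : Set (Fin m → ℂ)} (hU : IsOpen U) {w : (Fin m → ℂ) → ℂ}
    (hw : AnalyticOnNhd ℂ w U) {P : (Fin m → ℂ) → Matrix ι ι ℂ}
    (hP : ∀ i k, AnalyticOnNhd ℂ (fun t => P t i k) U) (h : IsFlat E U w P) (e : ℕ) :
    (∀ α : Fin e → Al μ ι, AnalyticOnNhd ℂ (fun t => wd e (w t) (P t) α) U) ∧
    ∀ t ∈ U, ∀ s (α : Fin e → Al μ ι),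
      MvPolynomial.aeval t F.T * pd s (fun t => wd e (w t) (P t) α) t =
      ∑ α', MvPolynomial.aeval t (tens e (wm (SubTensorM.B E s)) α α') * wd e (w t) (P t) α' := by
  exact ⟨fun α => words_analyticM hw hP e α,
    fun t ht s α => words_odeM hU hw hP s (fun t ht p k => h t ht s p k) e α ht⟩

theorem flat_next {a b : Element m ι} (h : a.Next b) (ha : IsFlat E a.U a.w a.P) :
    IsFlat E b.U b.w b.P := by
  obtain ⟨ha', hb, O, hO, ⟨x, hx⟩, hOa, hOb, heq⟩ := h
  intro t ht s p k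
  have hwP : ∀ (q : Fin μ × ι), AnalyticOnNhd ℂ (fun t => b.w t ^ (q.1 : ℕ) * b.P t q.2 k) b.U :=
    fun q => (hb.2.2.1.pow _).mul (hb.2.2.2 q.2 k)
  have hpoly : ∀ f : MvPolynomial (Fin m) κ,
      AnalyticOnNhd ℂ (fun t => MvPolynomial.aeval t f) b.U := by
    intro f z _
    exact analytic_aeval f z
  have h1 : AnalyticOnNhd ℂ (fun t => MvPolynomial.aeval t F.T *
        pd s (fun t => b.w t ^ (p.1 : ℕ) * b.P t p.2 k) t -
      ∑ q : Fin μ × ι, MvPolynomial.aeval t (SubTensorM.B E s p q) *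
        (b.w t ^ (q.1 : ℕ) * b.P t q.2 k)) b.U := by
    refine AnalyticOnNhd.sub ((hpoly _).mul ?_) ?_
    · intro z hz
      exact pd_analyticAt (hwP p z hz) s
    · exact Finset.analyticOnNhd_fun_sum _ fun q _ => (hpoly _).mul (hwP q)
  have h2 : Set.EqOn (fun t => MvPolynomial.aeval t F.T *
        pd s (fun t => b.w t ^ (p.1 : ℕ) * b.P t p.2 k) t -
      ∑ q : Fin μ × ι, MvPolynomial.aeval t (SubTensorM.B E s p q) *
        (b.w t ^ (q.1 : ℕ) * b.P t q.2 k)) 0 b.U := by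
    refine h1.eqOn_zero_of_preconnected_of_eventuallyEq_zero hb.2.1 (hOb hx) ?_
    filter_upwards [hO.mem_nhds hx] with t ht
    show _ - _ = (0 : ℂ)
    rw [sub_eq_zero]
    have h3 : (fun t => b.w t ^ (p.1 : ℕ) * b.P t p.2 k) =ᶠ[nhds t]
        fun t => a.w t ^ (p.1 : ℕ) * a.P t p.2 k := by
      filter_upwards [hO.mem_nhds ht] with z hz
      rw [(heq z hz).1, (heq z hz).2]
    rw [pd_congr h3, ha t (hOa ht) s p k]
    exact Finset.sum_congr rfl fun q _ => by rw [(heq t ht).1, (heq t ht).2]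
  exact sub_eq_zero.1 (h2 ht)

end

section

variable {κ : IntermediateField ℚ Qbar} {m : ℕ} {F : FamiliesM κ m} {μ r₀ r : ℕ}
  {E : F.Sub μ r₀ (Fin r)} {S : MvPolynomial (Fin m) ℂ} {a b : Element m (Fin r)}

theorem flat_reach (h : Reach S a b) (ha : IsFlat E a.U a.w a.P) : IsFlat E b.U b.w b.P := by
  induction h with
  | refl => exact ha
  | tail _ h2 ih => exact flat_next h2.1 ih

/-- The equation of `w`. -/
theorem eqn_reach {k : Type} [Field k] [Algebra k ℂ] (ha : a.IsAnalytic)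
    {f : Fin μ → MvPolynomial (Fin m) k}
    (hf : ∀ t ∈ a.U, a.w t ^ μ = ∑ l : Fin μ, MvPolynomial.aeval t (f l) * a.w t ^ (l : ℕ))
    (h : Reach S a b) :
    ∀ t ∈ b.U, b.w t ^ μ = ∑ l : Fin μ, MvPolynomial.aeval t (f l) * b.w t ^ (l : ℕ) := by
  have key : b.IsAnalytic ∧
      ∀ t ∈ b.U, b.w t ^ μ = ∑ l : Fin μ, MvPolynomial.aeval t (f l) * b.w t ^ (l : ℕ) := by
    induction h with
    | refl => exact ⟨ha, hf⟩
    | @tail b c _ hbc ih =>
      obtain ⟨⟨hb, hc, O, hO, ⟨x, hx⟩, hOb, hOc, heq⟩, -⟩ := hbc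
      refine ⟨hc, ?_⟩
      have h1 : AnalyticOnNhd ℂ (fun t => c.w t ^ μ -
          ∑ l : Fin μ, MvPolynomial.aeval t (f l) * c.w t ^ (l : ℕ)) c.U := by
        refine (hc.2.2.1.pow μ).sub ?_
        have := Finset.analyticOnNhd_fun_sum (Finset.univ : Finset (Fin μ)) (s := c.U) (𝕜 := ℂ)
          (f := fun l t => MvPolynomial.aeval t (f l) * c.w t ^ (l : ℕ)) fun l _ => by
            refine AnalyticOnNhd.mul ?_ (hc.2.2.1.pow l)
            intro z _
            exact analytic_aeval (f l) z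
        exact this
      have h2 : Set.EqOn (fun t => c.w t ^ μ -
          ∑ l : Fin μ, MvPolynomial.aeval t (f l) * c.w t ^ (l : ℕ)) 0 c.U := by
        refine h1.eqOn_zero_of_preconnected_of_eventuallyEq_zero hc.2.1 (hOc hx) ?_
        filter_upwards [hO.mem_nhds hx] with t ht
        change c.w t ^ μ - ∑ l : Fin μ, MvPolynomial.aeval t (f l) * c.w t ^ (l : ℕ) = 0
        rw [← (heq t ht).1, sub_eq_zero]
        exact ih.2 t (hOb ht)
      exact fun t ht => sub_eq_zero.1 (h2 ht)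
  exact key.2

end

end Pool.Agent.Helper79.GB
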