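import Pool.Agent.Helper79.GB.Chart
import Pool.Agent.Helper79.FX.Chain

/-!
# GB-09: the continuations of the powers of a combination of the points of a cover

`Zel k o x x' π b` is the function element with domain `b.U`, branch `b.w` and matrix `(z_(π c)(t) ^ i)_(i,c)`, `z_π(t) = ∑_a x'^(o a) ∑_i x^i y_(π a, i)(t)` the combinations of `HG.zc`, for the points `y` of the cover `Y k`, in the chart `b`.
* `zE_chart`: by definition (`HG.sc`, `HG.zc` in `Pool/Agent/Helper79/HG/Level.lean`).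
* `Zel_analytic`: sums, products, powers of analytic functions.
* `Zel_reach`: a step `b → c` of `FY.Reach` gives a step of `FX.Reach` (the matrices only depend on the values of the functions; as `h45_fg_reach` in `Pool/Agent/Helper79/FY/Lift.lean`; `MvPolynomial.eval t (S.map _) = MvPolynomial.aeval t S` by `MvPolynomial.eval_map`).
* `conj_cont`: let `Q` vanish at `(t, b.w t, z_1(t))` for all `t ∈ b.U`. Then `Q` vanishes at `(t, w t, z_1(t))` for `t ∈ U` (`reach_rel` for the chain `b → base`, `reach_symm`), so if the hypothesis on `b.U` holds for `π'` then the one on `U` holds (if `Q` vanishes for `z_1` on `U` then on `b.U`, then for `z_π'` on `b.U`, then for `z_π'` on `U`), so there is `c` with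
  `z_π' = z_(π c)` on `U` and by `reach_rel` again on `b.U`.
-/

set_option linter.unusedSectionVars false

namespace Pool.Agent.Helper79.GB

open Matrix Pool.Agent.Helper79.BB Pool.Agent.Helper79.HH Pool.Agent.Helper79.HG Pool.Agent.Helper79.FY
  Pool.Agent.Helper64.Per

variable {κ : Type} [Field κ] [Algebra κ ℂ] {m r ℓ : ℕ} [Fact ℓ.Prime] {U : Set (Fin m → ℂ)}
  {w : (Fin m → ℂ) → ℂ} {S : MvPolynomial (Fin m) κ} {P : (Fin m → ℂ) → Matrix (Fin r) (Fin r) ℂ}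
  {Y : ∀ k : ℕ, CoverData κ (Fin r → ZMod (ℓ ^ k)) U w} {lev : Fin r → ℤ} {j : ℤ}
  {ψ : Matrix (Fin r) (Fin r) ℤ}

/-- A combination of the coordinates of the points of the cover `Y k`. -/
noncomputable def sE (k x : ℕ) (b : Elem m (Ix Y)) (a : Fin r → ZMod (ℓ ^ k)) (t : Fin m → ℂ) : ℂ :=
  ∑ i : Fin (Y k).N, (x : ℂ) ^ (i : ℕ) * b.f (Sum.inr ⟨k, (a, i)⟩) t

/-- A combination of the points of the cover `Y k`. -/
noncomputable def zE (k : ℕ) (o : (Fin r → ZMod (ℓ ^ k)) → ℕ) (x x' : ℕ) (b : Elem m (Ix Y))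
    (π : Equiv.Perm (Fin r → ZMod (ℓ ^ k))) (t : Fin m → ℂ) : ℂ :=
  ∑ a, (((x' : ℤ) ^ o a : ℤ) : ℂ) * sE k x b (π a) t

/-- The function element of the powers of the combinations. -/
noncomputable def Zel (k : ℕ) (o : (Fin r → ZMod (ℓ ^ k)) → ℕ) (x x' : ℕ) {M : ℕ}
    (π : Fin M → Equiv.Perm (Fin r → ZMod (ℓ ^ k))) (b : Elem m (Ix Y)) : Element m (Fin M) :=
  ⟨b.U, b.w, fun t => Matrix.of fun i c : Fin M => zE k o x x' b (π c) t ^ (i : ℕ)⟩

/-- The combination as a function of the values of the functions. -/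
private noncomputable def lz_phi (k : ℕ) (o : (Fin r → ZMod (ℓ ^ k)) → ℕ) (x x' : ℕ)
    (π : Equiv.Perm (Fin r → ZMod (ℓ ^ k))) (φ : Ix Y → ℂ) : ℂ :=
  ∑ a, (((x' : ℤ) ^ o a : ℤ) : ℂ) *
    ∑ i : Fin (Y k).N, (x : ℂ) ^ (i : ℕ) * φ (Sum.inr ⟨k, (π a, i)⟩)

private theorem lz_eq (k : ℕ) (o : (Fin r → ZMod (ℓ ^ k)) → ℕ) (x x' : ℕ)
    (π : Equiv.Perm (Fin r → ZMod (ℓ ^ k))) (b : Elem m (Ix Y)) (t : Fin m → ℂ) :
    zE k o x x' b π t = lz_phi k o x x' π fun i => b.f i t := rfl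

private theorem lz_analytic {k : ℕ} {o : (Fin r → ZMod (ℓ ^ k)) → ℕ} {x x' : ℕ}
    {π : Equiv.Perm (Fin r → ZMod (ℓ ^ k))} {b : Elem m (Ix Y)} (hb : b.IsAnalytic) :
    AnalyticOnNhd ℂ (zE k o x x' b π) b.U := by
  have h1 : AnalyticOnNhd ℂ (fun t => ∑ a, (((x' : ℤ) ^ o a : ℤ) : ℂ) *
      ∑ i : Fin (Y k).N, (x : ℂ) ^ (i : ℕ) * b.f (Sum.inr ⟨k, (π a, i)⟩) t) b.U := by
    refine Finset.analyticOnNhd_fun_sum _ fun a _ => ?_
    refine analyticOnNhd_const.mul ?_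
    refine Finset.analyticOnNhd_fun_sum _ fun i _ => ?_
    exact analyticOnNhd_const.mul (hb.2.2.2 _)
  exact h1

theorem Zel_analytic {k : ℕ} {o : (Fin r → ZMod (ℓ ^ k)) → ℕ} {x x' M : ℕ}
    {π : Fin M → Equiv.Perm (Fin r → ZMod (ℓ ^ k))} {b : Elem m (Ix Y)} (hb : b.IsAnalytic) :
    (Zel k o x x' π b).IsAnalytic := by
  refine ⟨hb.1, hb.2.1, hb.2.2.1, fun i c => ?_⟩
  have h1 : AnalyticOnNhd ℂ (fun t => zE k o x x' b (π c) t ^ (i : ℕ)) b.U :=
    (lz_analytic hb).pow _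
  exact h1

theorem Zel_reach {k : ℕ} {o : (Fin r → ZMod (ℓ ^ k)) → ℕ} {x x' M : ℕ}
    {π : Fin M → Equiv.Perm (Fin r → ZMod (ℓ ^ k))} {b c : Elem m (Ix Y)} (h : FY.Reach S b c) :
    FX.Reach (S.map (algebraMap κ ℂ)) (Zel k o x x' π b) (Zel k o x x' π c) := by
  induction h with
  | refl => exact Relation.ReflTransGen.refl
  | @tail b c _ h2 ih =>
    obtain ⟨⟨hb, hc, O, hO, hO1, hOa, hOb, ht⟩, hS⟩ := h2
    refine Relation.ReflTransGen.tail ih ⟨⟨Zel_analytic hb, Zel_analytic hc, O, hO, hO1,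
      hOa, hOb, fun t htO => ⟨(ht t htO).1, ?_⟩⟩, fun t ht => ?_⟩
    · ext i d
      change zE k o x x' b (π d) t ^ (i : ℕ) = zE k o x x' c (π d) t ^ (i : ℕ)
      have h3 : (fun i => b.f i t) = fun i => c.f i t := funext fun i => (ht t htO).2 i
      rw [lz_eq, lz_eq, h3]
    · rw [MvPolynomial.eval_map, ← MvPolynomial.aeval_def]
      exact hS t ht

private theorem lz_rel {k : ℕ} {o : (Fin r → ZMod (ℓ ^ k)) → ℕ} {x x' : ℕ}
    {π : Equiv.Perm (Fin r → ZMod (ℓ ^ k))} {a b : Elem m (Ix Y)} (hab : FY.Reach S a b)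
    (Q : MvPolynomial ((Fin m ⊕ Unit) ⊕ Unit) κ)
    (hQ : ∀ t ∈ a.U, MvPolynomial.aeval (Sum.elim (Sum.elim t fun _ => a.w t)
      fun _ => zE k o x x' a π t) Q = 0) :
    ∀ t ∈ b.U, MvPolynomial.aeval (Sum.elim (Sum.elim t fun _ => b.w t)
      fun _ => zE k o x x' b π t) Q = 0 := by
  refine reach_rel (S := S) (a := a) (b := b)
    (G := fun t ω φ => MvPolynomial.aeval (Sum.elim (Sum.elim t fun _ => ω)
      fun _ => lz_phi k o x x' π φ) Q) ?_ hab hQ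
  intro c hc
  refine analytic_mv _ _ ?_
  rintro ((i | i) | i)
  · exact analytic_proj i
  · exact hc.2.2.1
  · exact lz_analytic hc

theorem conj_cont (h : IsLocalSystem S P Y lev j ψ) {b : Elem m (Ix Y)}
    (hb : FY.Reach S (base P Y) b) {k : ℕ} {o : (Fin r → ZMod (ℓ ^ k)) → ℕ} {x x' M : ℕ}
    {π : Fin M → Equiv.Perm (Fin r → ZMod (ℓ ^ k))}
    (hconj : ∀ π' : Equiv.Perm (Fin r → ZMod (ℓ ^ k)),
      (∀ Q : MvPolynomial ((Fin m ⊕ Unit) ⊕ Unit) κ,
        (∀ t ∈ U, MvPolynomial.aeval (Sum.elim (Sum.elim t fun _ => w t)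
          fun _ => zE k o x x' (base P Y) 1 t) Q = 0) →
        ∀ t ∈ U, MvPolynomial.aeval (Sum.elim (Sum.elim t fun _ => w t)
          fun _ => zE k o x x' (base P Y) π' t) Q = 0) →
        ∃ c, ∀ t ∈ U, zE k o x x' (base P Y) π' t = zE k o x x' (base P Y) (π c) t)
    (π' : Equiv.Perm (Fin r → ZMod (ℓ ^ k)))
    (hQ : ∀ Q : MvPolynomial ((Fin m ⊕ Unit) ⊕ Unit) κ,
        (∀ t ∈ b.U, MvPolynomial.aeval (Sum.elim (Sum.elim t fun _ => b.w t)
          fun _ => zE k o x x' b 1 t) Q = 0) →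
        ∀ t ∈ b.U, MvPolynomial.aeval (Sum.elim (Sum.elim t fun _ => b.w t)
          fun _ => zE k o x x' b π' t) Q = 0) :
    ∃ c, ∀ t ∈ b.U, zE k o x x' b π' t = zE k o x x' b (π c) t := by
  have hb' : FY.Reach S b (base P Y) := reach_symm h.dom hb
  obtain ⟨c, hc⟩ := hconj π' fun Q h1 => lz_rel hb' Q (hQ Q (lz_rel hb Q h1))
  refine ⟨c, fun t ht => ?_⟩
  refine sub_eq_zero.1 (reach_rel (S := S) (a := base P Y) (b := b)
    (G := fun t ω φ => lz_phi k o x x' π' φ - lz_phi k o x x' (π c) φ) ?_ hb ?_ t ht)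
  · intro d hd
    exact (lz_analytic hd).sub (lz_analytic hd)
  · intro t ht
    exact sub_eq_zero.2 (hc t ht)

end Pool.Agent.Helper79.GB
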