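import Pool.Agent.Helper79.BB.StatM
import Pool.Agent.Helper79.HH.Core

/-!
# GB-04: the relations between periods only depend on the germ and are invariant under integral changes of the basis

* `rel_germ`: let `t ∈ U ∩ U'`, the functions equal near `t`. Then `w t = w' t`, `P t = P' t`, and a polynomial `q` vanishes on the graph over `U` if and only if it vanishes on the graph over `U'`: `evP q u (w u) (P u)` is analytic on `U` (see
  `Pool/Agent/Helper79/HH/Cont.lean`, `evP_next`), zero near `t` if it is zero on `U'`, so zero on `U` by the identity theorem. So `BFibreM U w P t = BFibreM U' w' P' t`. For the fields `kapM κ t (w t)` and `kapM κ t (w' t)`: `rw` the equality `w t = w' t` after generalising (for instance prove first that for all `y`, `M`, `B` with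
  `y = w t`, `M = P t`, `B = BFibreM ..` the property only depends on them: unfold `HasRelationM` and `BFibreM`, and use `subst`/`▸`).
* `rel_rmul`: let `g = γ.map Int.cast`. If `r` is a relation for `P t * g` then `r' = r((X_(i,k)) ↦ ∑_l X_(i,l) g_(l,k))` is a relation for `P t` of at most the same total degree: `evK r' M = evK r (M * g)`. `M ∈ ZClosure (P t)` implies `M * g ∈ ZClosure (P t * g)` (see the definition in `Pool/Agent/Helper64/Per/Defs.lean`: the entries of `g` are
  rational), and `M ∈ BFibreM U w (P * g) t` implies `M * g⁻¹ ∈ BFibreM U w P t`. `totalDegree` of a substitution by linear forms: `MvPolynomial.totalDegree_aeval_le`-type lemma (or `MvPolynomial.aeval`, induction, or search for one in `Pool/Agent`, for example `totalDegree` and `bind₁`).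
-/

namespace Pool.Agent.Helper79.GB

open Matrix Pool.Agent.Helper79.BB Pool.Agent.Helper79.HH Pool.Agent.Helper64.Per

variable {κ : IntermediateField ℚ Qbar} {m : ℕ}

private theorem rt_evP_iff {ι : Type} [Fintype ι] [DecidableEq ι] {a b : Element m ι}
    (ha : a.IsAnalytic) (hb : b.IsAnalytic) {t : Fin m → ℂ} (hta : t ∈ a.U) (htb : t ∈ b.U)
    (heq : ∀ᶠ s in nhds t, a.w s = b.w s ∧ a.P s = b.P s)
    (q : MvPolynomial ((Fin m ⊕ Unit) ⊕ ι × ι) Qbar)
    (hq : ∀ t ∈ a.U, evP q t (a.w t) (a.P t) = 0) : ∀ t ∈ b.U, evP q t (b.w t) (b.P t) = 0 := by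
  obtain ⟨O, hO1, hO2, hO3⟩ := eventually_nhds_iff.1 heq
  refine evP_next ⟨ha, hb, O ∩ (a.U ∩ b.U), hO2.inter (ha.1.inter hb.1), ⟨t, hO3, hta, htb⟩,
    fun x hx => hx.2.1, fun x hx => hx.2.2, fun x hx => hO1 x hx.1⟩ q hq

/-- substitution `M ↦ M * A` -/
private noncomputable def rtSub {r : ℕ} (R : Type) [CommRing R] (A : Matrix (Fin r) (Fin r) ℤ) :
    MvPolynomial (Fin r × Fin r) R →ₐ[R] MvPolynomial (Fin r × Fin r) R :=
  MvPolynomial.aeval fun x => ∑ l, MvPolynomial.C ((A l x.2 : ℤ) : R) * MvPolynomial.X (x.1, l)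

private theorem rt_sub_aeval {r : ℕ} {R : Type} [CommRing R] [Algebra R ℂ]
    (A : Matrix (Fin r) (Fin r) ℤ) (q : MvPolynomial (Fin r × Fin r) R)
    (M : Matrix (Fin r) (Fin r) ℂ) :
    MvPolynomial.aeval (fun p : Fin r × Fin r => M p.1 p.2) (rtSub R A q) =
      MvPolynomial.aeval (fun p : Fin r × Fin r => (M * A.map (Int.cast : ℤ → ℂ)) p.1 p.2) q := by
  rw [rtSub, MvPolynomial.comp_aeval_apply]
  refine congrArg (fun f => MvPolynomial.aeval f q) ?_
  funext x
  rw [map_sum, Matrix.mul_apply]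
  refine Finset.sum_congr rfl fun l _ => ?_
  rw [map_mul, MvPolynomial.aeval_C, MvPolynomial.aeval_X, map_intCast, Matrix.map_apply, mul_comm]

private theorem rt_totalDegree {r : ℕ} {R : Type} [Field R] (A : Matrix (Fin r) (Fin r) ℤ)
    (q : MvPolynomial (Fin r × Fin r) R) : (rtSub R A q).totalDegree ≤ q.totalDegree := by
  classical
  have key : ∀ (h : Fin r × Fin r → MvPolynomial (Fin r × Fin r) R)
      (_ : ∀ x, (h x).totalDegree ≤ 1), (MvPolynomial.aeval h q).totalDegree ≤ q.totalDegree := by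
    intro h hh
    rw [MvPolynomial.aeval_def, MvPolynomial.eval₂_eq]
    refine MvPolynomial.totalDegree_finsetSum_le fun d hd => ?_
    refine (MvPolynomial.totalDegree_mul _ _).trans ?_
    rw [MvPolynomial.algebraMap_eq, MvPolynomial.totalDegree_C, zero_add]
    refine (MvPolynomial.totalDegree_finsetProd _ _).trans ?_
    refine le_trans (Finset.sum_le_sum fun x _ => ?_) (MvPolynomial.le_totalDegree hd)
    refine (MvPolynomial.totalDegree_pow _ _).trans ?_
    calc d x * (h x).totalDegree ≤ d x * 1 := Nat.mul_le_mul_left _ (hh x)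
      _ = d x := mul_one _
  refine key _ fun x => ?_
  refine MvPolynomial.totalDegree_finsetSum_le fun l _ => ?_
  refine (MvPolynomial.totalDegree_mul _ _).trans ?_
  rw [MvPolynomial.totalDegree_C, zero_add, MvPolynomial.totalDegree_X]

/-- substitution in the matrix variables -/
private theorem rt_subP {r : ℕ} (A : Matrix (Fin r) (Fin r) ℤ)
    (q : MvPolynomial ((Fin m ⊕ Unit) ⊕ Fin r × Fin r) Qbar) :
    ∃ q' : MvPolynomial ((Fin m ⊕ Unit) ⊕ Fin r × Fin r) Qbar,
      ∀ (x : Fin m → ℂ) (y : ℂ) (M : Matrix (Fin r) (Fin r) ℂ),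
        evP q' x y M = evP q x y (M * A.map (Int.cast : ℤ → ℂ)) := by
  refine ⟨MvPolynomial.aeval (Sum.elim (fun i => MvPolynomial.X (Sum.inl i))
    (fun p : Fin r × Fin r => ∑ l, MvPolynomial.C ((A l p.2 : ℤ) : Qbar) *
      MvPolynomial.X (Sum.inr (p.1, l)))) q, fun x y M => ?_⟩
  unfold evP
  rw [MvPolynomial.comp_aeval_apply]
  refine congrArg (fun f => MvPolynomial.aeval f q) ?_
  funext z
  rcases z with z | z
  · rw [Sum.elim_inl, MvPolynomial.aeval_X]
    rfl
  · rw [Sum.elim_inr, Sum.elim_inr, map_sum, Matrix.mul_apply]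
    refine Finset.sum_congr rfl fun l _ => ?_
    rw [map_mul, MvPolynomial.aeval_C, MvPolynomial.aeval_X, map_intCast, Matrix.map_apply,
      mul_comm]
    rfl

private theorem rt_map_mul {r : ℕ} {A B : Matrix (Fin r) (Fin r) ℤ} (h : A * B = 1) :
    A.map (Int.cast : ℤ → ℂ) * B.map (Int.cast : ℤ → ℂ) = 1 := by
  have h1 : (A * B).map (Int.castRingHom ℂ) = A.map (Int.castRingHom ℂ) * B.map (Int.castRingHom ℂ) :=
    Matrix.map_mul
  rw [h] at h1
  have h2 : (1 : Matrix (Fin r) (Fin r) ℤ).map (Int.castRingHom ℂ) = 1 :=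
    Matrix.map_one _ (map_zero _) (map_one _)
  rw [h2] at h1
  exact h1.symm

theorem rel_germ {ι : Type} [Fintype ι] [DecidableEq ι] {a b : Element m ι} (ha : a.IsAnalytic)
    (hb : b.IsAnalytic) {t : Fin m → ℂ} (hta : t ∈ a.U) (htb : t ∈ b.U)
    (heq : ∀ᶠ s in nhds t, a.w s = b.w s ∧ a.P s = b.P s) {δ : ℕ}
    (h : HasRelationM a.U a.w a.P t κ δ) : HasRelationM b.U b.w b.P t κ δ := by
  obtain ⟨e1, e2⟩ := heq.self_of_nhds
  have hB : BFibreM a.U a.w a.P t = BFibreM b.U b.w b.P t := by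
    ext M
    constructor
    · rintro ⟨h1, h2⟩
      refine ⟨h1, fun q hq => ?_⟩
      rw [← e1]
      exact h2 q (rt_evP_iff hb ha htb hta (heq.mono fun x hx => ⟨hx.1.symm, hx.2.symm⟩) q hq)
    · rintro ⟨h1, h2⟩
      refine ⟨h1, fun q hq => ?_⟩
      rw [e1]
      exact h2 q (rt_evP_iff ha hb hta htb heq q hq)
  unfold HasRelationM at h ⊢
  rw [hB, e1, e2] at h
  exact h

theorem rel_rmul {r : ℕ} {U : Set (Fin m → ℂ)} {w : (Fin m → ℂ) → ℂ}
    {P : (Fin m → ℂ) → Matrix (Fin r) (Fin r) ℂ} {t : Fin m → ℂ} (γ : GL (Fin r) ℤ) {δ : ℕ}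
    (h : HasRelationM U w (fun u => P u * (γ : Matrix (Fin r) (Fin r) ℤ).map (Int.cast : ℤ → ℂ)) t κ δ) :
    HasRelationM U w P t κ δ := by
  set A : Matrix (Fin r) (Fin r) ℤ := (γ : Matrix (Fin r) (Fin r) ℤ) with hA
  set B : Matrix (Fin r) (Fin r) ℤ := ((γ⁻¹ : GL (Fin r) ℤ) : Matrix (Fin r) (Fin r) ℤ) with hB
  have hAB : A.map (Int.cast : ℤ → ℂ) * B.map (Int.cast : ℤ → ℂ) = 1 :=
    rt_map_mul (by rw [hA, hB, ← Units.val_mul, mul_inv_cancel, Units.val_one])
  have hBA : B.map (Int.cast : ℤ → ℂ) * A.map (Int.cast : ℤ → ℂ) = 1 :=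
    rt_map_mul (by rw [hA, hB, ← Units.val_mul, inv_mul_cancel, Units.val_one])
  have hAd : IsUnit (A.map (Int.cast : ℤ → ℂ)).det := by
    have h1 := congrArg Matrix.det hAB
    rw [Matrix.det_mul, Matrix.det_one] at h1
    exact IsUnit.of_mul_eq_one _ h1
  have hBd : IsUnit (B.map (Int.cast : ℤ → ℂ)).det := by
    have h1 := congrArg Matrix.det hBA
    rw [Matrix.det_mul, Matrix.det_one] at h1
    exact IsUnit.of_mul_eq_one _ h1
  obtain ⟨p, hp1, hp2, hp3⟩ := h
  refine ⟨rtSub _ A p, (rt_totalDegree A p).trans hp1, fun M hM => ?_, fun hcon => hp3 fun M hM => ?_⟩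
  · have h1 : M * A.map (Int.cast : ℤ → ℂ) ∈ ZClosure (P t * A.map (Int.cast : ℤ → ℂ)) := by
      refine ⟨?_, fun q hq => ?_⟩
      · rw [Matrix.det_mul]
        exact hM.1.mul hAd
      · rw [← rt_sub_aeval] at hq ⊢
        exact hM.2 _ hq
    have h2 := hp2 _ h1
    unfold evK at h2 ⊢
    rw [rt_sub_aeval]
    exact h2
  · have h1 : M * B.map (Int.cast : ℤ → ℂ) ∈ BFibreM U w P t := by
      refine ⟨?_, fun q hq => ?_⟩
      · rw [Matrix.det_mul]
        exact hM.1.mul hBd
      · obtain ⟨q', hq'⟩ := rt_subP (m := m) B q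
        rw [← hq']
        refine hM.2 q' fun u hu => ?_
        rw [hq', Matrix.mul_assoc, hAB, Matrix.mul_one]
        exact hq u hu
    have h2 := hcon _ h1
    unfold evK at h2 ⊢
    rw [rt_sub_aeval, Matrix.mul_assoc, hBA, Matrix.mul_one] at h2
    exact h2

end Pool.Agent.Helper79.GB
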