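import Pool.Agent.Helper79.FY.Germs
import Pool.Agent.Helper79.GB.Cls

/-!
# GB-06: a uniform bound for the number of the branches over a convex open set

This is `exists_reps` of `Pool/Agent/Helper79/FY/Germs.lean` with a bound. Let `A = Fin r → ZMod (ℓ ^ k)`. The elements `⟨b.U, b.w, pmat b⟩` of the reached `b` are reached (`FX.Reach`, forgetting the `y`; copy the private lemmas `h45_fg_reach`, `h45_fg_base` of `Germs.lean`), so by `exists_w_reps`
(`GB/Cls.lean`) the functions `b.w` on `D` are among `n₁ ≤ μ` functions `f_i`. For each `i` for which there is a reached `b` over `D` with `b.w = f_i` on `D` choose one, `b_i`. If `b` is reached over `D` and `b.w = f_i` on `D` then by `int` `y_v` of `b` is `y_(γ v)` of `b_i` on `D`, so `val k b` on `D` is determined by `i` and the map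
`actZ γ : A → A`. So the set of the restrictions to `D` of the `val k b` (functions `D → Vx Y k → ℂ`), `b` reached over `D`, is the image of a subset of `Fin n₁ × (A → A)`: it has at most `μ * card (A → A)` elements. Choose one `b` for each of them.
-/

namespace Pool.Agent.Helper79.GB

open Matrix Pool.Agent.Helper79.BB Pool.Agent.Helper79.HH Pool.Agent.Helper79.HG Pool.Agent.Helper79.FY
  Pool.Agent.Helper64.Per

variable {κ : Type} [Field κ] [Algebra κ ℂ] {m r ℓ μ : ℕ} [Fact ℓ.Prime] {U : Set (Fin m → ℂ)}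
  {w : (Fin m → ℂ) → ℂ} {S : MvPolynomial (Fin m) κ} {P : (Fin m → ℂ) → Matrix (Fin r) (Fin r) ℂ}
  {Y : ∀ k : ℕ, CoverData κ (Fin r → ZMod (ℓ ^ k)) U w} {lev : Fin r → ℤ} {j : ℤ}
  {ψ : Matrix (Fin r) (Fin r) ℤ}

/-- The element with the period matrix only. -/
private def gb6_fg (b : Elem m (Ix Y)) : Element m (Fin r) := ⟨b.U, b.w, pmat b⟩

private theorem gb6_fg_analytic {b : Elem m (Ix Y)} (hb : b.IsAnalytic) : (gb6_fg b).IsAnalytic :=
  ⟨hb.1, hb.2.1, hb.2.2.1, fun _ _ => hb.2.2.2 _⟩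

private theorem gb6_fg_reach {a b : Elem m (Ix Y)} (h : FY.Reach S a b) :
    FX.Reach (S.map (algebraMap κ ℂ)) (gb6_fg a) (gb6_fg b) := by
  induction h with
  | refl => exact Relation.ReflTransGen.refl
  | @tail b c _ h2 ih =>
    obtain ⟨⟨hb, hc, O, hO, hO1, hOa, hOb, ht⟩, hS⟩ := h2
    refine Relation.ReflTransGen.tail ih ⟨⟨gb6_fg_analytic hb, gb6_fg_analytic hc, O, hO, hO1,
      hOa, hOb, fun t htO => ⟨(ht t htO).1, ?_⟩⟩, fun t ht => ?_⟩
    · ext x y
      exact (ht t htO).2 _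
    · rw [MvPolynomial.eval_map, ← MvPolynomial.aeval_def]
      exact hS t ht

private theorem gb6_fg_base (P : (Fin m → ℂ) → Matrix (Fin r) (Fin r) ℂ)
    (Y : ∀ k : ℕ, CoverData κ (Fin r → ZMod (ℓ ^ k)) U w) :
    gb6_fg (base P Y) = ⟨U, w, P⟩ := by
  unfold gb6_fg
  rw [pmat_base]
  rfl

theorem exists_reps_le (h : IsLocalSystem S P Y lev j ψ) (hw : IsBranchM κ U μ w) (k : ℕ)
    {D : Set (Fin m → ℂ)} (hD : IsOpen D) (hD' : Convex ℝ D)
    (hDS : ∀ t ∈ D, MvPolynomial.aeval t S ≠ 0) (hDne : D.Nonempty) :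
    ∃ n ≤ μ * Fintype.card ((Fin r → ZMod (ℓ ^ k)) → (Fin r → ZMod (ℓ ^ k))),
      ∃ G : Fin n → Elem m (Ix Y), IsReps S P Y k D G := by
  classical
  obtain ⟨n, hnμ, f, _, hf⟩ := exists_w_reps (k := κ) (μ := μ)
    (a := (⟨U, w, P⟩ : Element m (Fin r))) (S := S.map (algebraMap κ ℂ)) (D := D) (by
      rw [← gb6_fg_base P Y]
      exact gb6_fg_analytic h.analytic) hw hDne
  let R : Type := {b : Elem m (Ix Y) // FY.Reach S (base P Y) b ∧ b.U = D}
  let Φ : R → D → Vx Y k → ℂ := fun b t => val k b.1 t.1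
  let I : Type := {i : Fin n // ∃ b : R, ∀ t ∈ D, b.1.w t = (f i).w t}
  let B : I → R := fun i => i.2.choose
  have hB : ∀ (i : I), ∀ t ∈ D, (B i).1.w t = (f i.1).w t := fun i => i.2.choose_spec
  let Ψ : I × ((Fin r → ZMod (ℓ ^ k)) → (Fin r → ZMod (ℓ ^ k))) → D → Vx Y k → ℂ :=
    fun p t => Sum.elim (fun _ => (B p.1).1.w t.1)
      fun e => (B p.1).1.f (Sum.inr ⟨k, (p.2 e.1, e.2)⟩) t.1
  have hsub : Set.range Φ ⊆ Set.range Ψ := by
    rintro _ ⟨b, rfl⟩
    have h1 : FX.Reach (S.map (algebraMap κ ℂ)) ⟨U, w, P⟩ (gb6_fg b.1) := by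
      rw [← gb6_fg_base P Y]
      exact gb6_fg_reach b.2.1
    obtain ⟨i, hi⟩ := hf _ h1 b.2.2
    have hi' : ∀ t ∈ D, b.1.w t = (f i).w t := hi
    let i' : I := ⟨i, b, hi'⟩
    obtain ⟨γ, _, hγ⟩ := h.int (B i').1 b.1 (B i').2.1 b.2.1 (by rw [(B i').2.2, b.2.2]) (by
      intro t ht
      rw [(B i').2.2] at ht
      rw [hB i' t ht, hi' t ht])
    refine ⟨(i', actZ (γ : Matrix (Fin r) (Fin r) ℤ)), ?_⟩
    funext t
    funext e
    rcases e with e | e
    · change (B i').1.w t.1 = b.1.w t.1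
      rw [hB i' t.1 t.2, hi' t.1 t.2]
    · change (B i').1.f (Sum.inr ⟨k, (actZ (γ : Matrix (Fin r) (Fin r) ℤ) e.1, e.2)⟩) t.1 =
        b.1.f (Sum.inr ⟨k, e⟩) t.1
      have h2 := (hγ t.1 (by rw [(B i').2.2]; exact t.2)).2 k e.1 e.2
      exact h2.symm
  have hI : Finite I := Subtype.finite
  have hfinΨ : (Set.range Ψ).Finite := Set.finite_range Ψ
  have hfin : (Set.range Φ).Finite := hfinΨ.subset hsub
  have hfin' : Finite (Set.range Φ) := hfin
  obtain ⟨N, ⟨e⟩⟩ := Finite.exists_equiv_fin (Set.range Φ)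
  have hN : N ≤ μ * Fintype.card ((Fin r → ZMod (ℓ ^ k)) → (Fin r → ZMod (ℓ ^ k))) := by
    have h1 : Nat.card (Set.range Φ) = N := Nat.card_eq_of_equiv_fin e
    have h2 : Nat.card (Set.range Φ) ≤ Nat.card (Set.range Ψ) := Nat.card_mono hfinΨ hsub
    have h3 : Nat.card (Set.range Ψ) ≤
        Nat.card (I × ((Fin r → ZMod (ℓ ^ k)) → (Fin r → ZMod (ℓ ^ k)))) :=
      Finite.card_range_le Ψ
    have h4 : Nat.card I ≤ n := by
      have h5 : Nat.card I ≤ Nat.card (Fin n) := Finite.card_subtype_le _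
      rwa [Nat.card_eq_fintype_card (α := Fin n), Fintype.card_fin] at h5
    rw [Nat.card_prod, Nat.card_eq_fintype_card
      (α := (Fin r → ZMod (ℓ ^ k)) → (Fin r → ZMod (ℓ ^ k)))] at h3
    rw [← h1]
    exact h2.trans (h3.trans (Nat.mul_le_mul_right _ (h4.trans hnμ)))
  let g : Fin N → R := fun i => (e.symm i).2.choose
  have hg : ∀ i, Φ (g i) = (e.symm i).1 := fun i => (e.symm i).2.choose_spec
  refine ⟨N, hN, fun i => (g i).1, fun i => (g i).2, fun b hb hbD => ?_⟩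
  let b' : R := ⟨b, hb, hbD⟩
  refine ⟨e ⟨Φ b', b', rfl⟩, fun t ht => ?_, fun i hi => ?_⟩
  · have h1 := hg (e ⟨Φ b', b', rfl⟩)
    rw [Equiv.symm_apply_apply] at h1
    exact (congrFun h1 ⟨t, ht⟩).symm
  · have h1 : Φ b' = Φ (g i) := by
      funext t
      exact hi t.1 t.2
    rw [hg i] at h1
    have h2 : (⟨Φ b', b', rfl⟩ : Set.range Φ) = e.symm i := Subtype.ext h1
    rw [h2, Equiv.apply_symm_apply]

end Pool.Agent.Helper79.GB
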