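import Pool.Agent.Helper79.GB.Main
import Pool.Agent.Helper79.GB.RelT
import Pool.Agent.Helper79.GB.Reps
import Pool.Agent.Helper79.GB.LevZ
import Pool.Agent.Helper79.HG.Level

/-!
# GB: quantitative Hilbert irreducibility at all points of the base

The proofs are those of `Pool/Agent/Helper79/HG/Level.lean` (helper79)
-/

set_option linter.unusedSectionVars false

namespace Pool.Agent.Helper79.GB

open Matrix Pool.Agent.Helper79.BB Pool.Agent.Helper79.HH Pool.Agent.Helper79.HG Pool.Agent.Helper79.FY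
  Pool.Agent.Helper64.Per Pool.Agent.Helper79.DD

section

variable {κ : IntermediateField ℚ Qbar} {m r ℓ μ : ℕ} [Fact ℓ.Prime] {U : Set (Fin m → ℂ)}
  {w : (Fin m → ℂ) → ℂ} {S : MvPolynomial (Fin m) κ} {P : (Fin m → ℂ) → Matrix (Fin r) (Fin r) ℂ}
  {Y : ∀ k : ℕ, CoverData κ (Fin r → ZMod (ℓ ^ k)) U w} {lev : Fin r → ℤ} {j : ℤ}
  {ψ : Matrix (Fin r) (Fin r) ℤ}

/-- The permutation `π` of the points of the cover `Y k` is given by analytic continuation of the element `b`, but not by an element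
of the Galois group of `κ(t, w t)` at `t`. -/
def NoGal (κ : IntermediateField ℚ Qbar) {U : Set (Fin m → ℂ)} {w : (Fin m → ℂ) → ℂ}
    {Y : ∀ k : ℕ, CoverData κ (Fin r → ZMod (ℓ ^ k)) U w} (k : ℕ) (b : Elem m (Ix Y)) (t : Fin m → ℂ) :
    Prop :=
  ∃ π : Equiv.Perm (Fin r → ZMod (ℓ ^ k)), Relation.ReflTransGen Elem.Next
      (⟨b.U, b.w, fun e => b.f (Sum.inr ⟨k, e⟩)⟩ : Elem m ((Fin r → ZMod (ℓ ^ k)) × Fin (Y k).N))
      ⟨b.U, b.w, fun e => b.f (Sum.inr ⟨k, (π e.1, e.2)⟩)⟩ ∧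
      ¬ ∃ σ : Qbar ≃ₐ[kapM κ t (b.w t)] Qbar, ∀ a i (u : Qbar),
        (u : ℂ) = b.f (Sum.inr ⟨k, (a, i)⟩) t → ((σ u : Qbar) : ℂ) = b.f (Sum.inr ⟨k, (π a, i)⟩) t

/-- The integer parameters `a` with coordinates of absolute value at most `X` such that for an algebraic root `θ` of
`F_a` with `G_0(θ) ≠ 0` and the point `t = (G_1(θ) / G_0(θ), …, G_m(θ) / G_0(θ))` there is a reached element `b`, with `t` in its
domain, with the property `NoGal`. -/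
def SmallGalG {J : Type} [Fintype J] (ω : Module.Basis J ℚ κ) (N' : Finset (ℕ × J))
    (S : MvPolynomial (Fin m) κ) (P : (Fin m → ℂ) → Matrix (Fin r) (Fin r) ℂ)
    (Y : ∀ k : ℕ, CoverData κ (Fin r → ZMod (ℓ ^ k)) U w) (k D e X : ℕ) :
    Set (DD.Px m D e J N' → ℤ) :=
  {a | (∀ p, |a p| ≤ X) ∧ ∃ θ : Qbar, polyU ω N' a θ = 0 ∧ denU ω N' a θ ≠ 0 ∧
    ∃ b, FY.Reach S (base P Y) b ∧ pointU ω N' a θ ∈ b.U ∧ NoGal κ k b (pointU ω N' a θ)}

/-- The part of the bad set for the combination with parameters `x`, `x'`. -/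
def BadXXG {J : Type} [Fintype J] (ω : Module.Basis J ℚ κ) (N' : Finset (ℕ × J))
    (S : MvPolynomial (Fin m) κ) (P : (Fin m → ℂ) → Matrix (Fin r) (Fin r) ℂ)
    (Y : ∀ k : ℕ, CoverData κ (Fin r → ZMod (ℓ ^ k)) U w) (k D e : ℕ)
    (o : (Fin r → ZMod (ℓ ^ k)) → ℕ) (x x' X : ℕ) : Set (DD.Px m D e J N' → ℤ) :=
  {a | (∀ p, |a p| ≤ X) ∧ ∃ θ : Qbar, polyU ω N' a θ = 0 ∧ denU ω N' a θ ≠ 0 ∧
    ∃ b, FY.Reach S (base P Y) b ∧ pointU ω N' a θ ∈ b.U ∧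
      (Function.Injective fun a' => sE k x b a' (pointU ω N' a θ)) ∧
      (Function.Injective fun π => zE k o x x' b π (pointU ω N' a θ)) ∧
      NoGal κ k b (pointU ω N' a θ)}

/-- The property of points for the count. -/
def GLev (κ : IntermediateField ℚ Qbar) (S : MvPolynomial (Fin m) κ)
    (P : (Fin m → ℂ) → Matrix (Fin r) (Fin r) ℂ)
    (Y : ∀ k : ℕ, CoverData κ (Fin r → ZMod (ℓ ^ k)) U w) (k : ℕ)
    (o : (Fin r → ZMod (ℓ ^ k)) → ℕ) (x x' : ℕ) {M : ℕ}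
    (π : Fin M → Equiv.Perm (Fin r → ZMod (ℓ ^ k))) (δ : ℕ) (t : Fin m → ℂ) : Prop :=
  ∃ b, FY.Reach S (base P Y) b ∧ t ∈ b.U ∧ (Function.Injective fun π => zE k o x x' b π t) ∧
    HasRelationM b.U b.w (Zel k o x x' π b).P t κ δ

theorem isReach_lev (h : IsLocalSystem S P Y lev j ψ) (hw : IsBranchM κ U μ w) (k : ℕ)
    (o : (Fin r → ZMod (ℓ ^ k)) → ℕ) (x x' : ℕ) {M : ℕ}
    (π : Fin M → Equiv.Perm (Fin r → ZMod (ℓ ^ k))) (hπ : Function.Injective π)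
    {F : FamiliesM κ m} {μ' r₀ : ℕ} {E : F.Sub μ' r₀ (Fin M)}
    (hP : E.IsPeriod U w (Zel k o x x' π (base P Y)).P)
    {f : Fin μ' → MvPolynomial (Fin m) κ}
    (hf : ∀ t ∈ U, w t ^ μ' = ∑ l : Fin μ', MvPolynomial.aeval t (f l) * w t ^ (l : ℕ)) (δ : ℕ) :
    IsReach E S f (μ * Fintype.card ((Fin r → ZMod (ℓ ^ k)) → (Fin r → ZMod (ℓ ^ k)))) δ
      (GLev κ S P Y k o x x' π δ) := by
  intro x₀ R₀ hR₀ hball
  have hDS : ∀ t ∈ Metric.ball x₀ R₀, MvPolynomial.aeval t S ≠ 0 := by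
    intro t ht h0
    exact hball t ht (by rw [map_mul, h0, mul_zero])
  have hZa : (Zel k o x x' π (base P Y)).IsAnalytic := Zel_analytic h.analytic
  have hflat : IsFlat E (Zel k o x x' π (base P Y)).U (Zel k o x x' π (base P Y)).w
      (Zel k o x x' π (base P Y)).P := by
    rcases U.eq_empty_or_nonempty with he | ⟨t₁, ht₁⟩
    · intro t ht
      change t ∈ U at ht
      rw [he] at ht
      exact ht.elim
    · refine flat_of_period h.analytic.1 hP ?_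
      rcases Nat.eq_zero_or_pos μ' with h0 | h0
      · subst h0
        have h1 := hf _ ht₁
        simp at h1
      · exact h0
  obtain ⟨n, hn, G, hG⟩ := exists_reps_le h hw k Metric.isOpen_ball (convex_ball x₀ R₀) hDS
    ⟨x₀, Metric.mem_ball_self hR₀⟩
  refine ⟨n, hn, fun i => Zel k o x x' π (G i), fun i => ⟨Zel_analytic
    (reach_analytic h.analytic (hG.1 i).1), (hG.1 i).2,
    eqn_reach (a := Zel k o x x' π (base P Y)) hZa hf (Zel_reach (hG.1 i).1),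
    flat_reach (a := Zel k o x x' π (base P Y)) (Zel_reach (hG.1 i).1) hflat⟩, ?_⟩
  rintro s hs ⟨b, hb, hsb, hinj, hrel⟩
  obtain ⟨c, hc, hcU, heq⟩ := h.reach_ext hb Metric.isOpen_ball (convex_ball x₀ R₀) hDS hsb hs
  obtain ⟨i, hi, -⟩ := hG.2 c hc hcU
  have hba := reach_analytic h.analytic hb
  have hGa := reach_analytic h.analytic (hG.1 i).1
  have hsG : s ∈ (G i).U := by rw [(hG.1 i).2]; exact hs
  -- the values of `b` and `G i` near `s`
  have hnear : ∀ᶠ u in nhds s, b.w u = (G i).w u ∧ ∀ e, b.f (Sum.inr ⟨k, e⟩) u =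
      (G i).f (Sum.inr ⟨k, e⟩) u := by
    filter_upwards [heq, Metric.isOpen_ball.mem_nhds hs] with u hu hu'
    have h1 := hi u hu'
    exact ⟨hu.1.trans (congrFun h1 (Sum.inl ())), fun e => (hu.2 _).trans (congrFun h1 (Sum.inr e))⟩
  have hz : ∀ u, (∀ e, b.f (Sum.inr ⟨k, e⟩) u = (G i).f (Sum.inr ⟨k, e⟩) u) →
      ∀ π', zE k o x x' b π' u = zE k o x x' (G i) π' u := by
    intro u hu π'
    unfold zE sE
    simp only [hu]
  refine ⟨i, ?_, ?_⟩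
  · have h1 : (Matrix.of fun i' c : Fin M => zE k o x x' (G i) (π c) s ^ (i' : ℕ)) =
        (Matrix.vandermonde fun c => zE k o x x' (G i) (π c) s).transpose := by
      ext i' c
      rfl
    change IsUnit (Matrix.of fun i' c : Fin M => zE k o x x' (G i) (π c) s ^ (i' : ℕ)).det
    rw [h1, Matrix.det_transpose, isUnit_iff_ne_zero, Matrix.det_vandermonde_ne_zero_iff]
    intro c c' hcc
    have h2 := (hz s hnear.self_of_nhds.2)
    simp only [← h2] at hcc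
    exact hπ (hinj hcc)
  · refine rel_germ (a := Zel k o x x' π b) (b := Zel k o x x' π (G i)) (Zel_analytic hba)
      (Zel_analytic hGa) hsb hsG ?_ hrel
    filter_upwards [hnear] with u hu
    refine ⟨hu.1, ?_⟩
    change (Matrix.of fun i' c : Fin M => zE k o x x' b (π c) u ^ (i' : ℕ)) =
      Matrix.of fun i' c : Fin M => zE k o x x' (G i) (π c) u ^ (i' : ℕ)
    ext i' c
    simp only [Matrix.of_apply]
    rw [hz u hu.2]

theorem zE_base (k : ℕ) (o : (Fin r → ZMod (ℓ ^ k)) → ℕ) (x x' : ℕ) :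
    zE k o x x' (base P Y) = HG.zc (Y k) o x x' := by
  funext π t
  unfold zE sE HG.zc HG.sc
  have h2 : ∀ v i, (base P Y).f (Sum.inr ⟨k, (v, i)⟩) t = (Y k).y v i t := fun v i =>
    congrFun (base_inr (P := P) k v i) t
  simp only [h2]

theorem sE_inj {b : Elem m (Ix Y)}
    (hb : FY.Reach S (base P Y) b) {k x : ℕ} {t : Fin m → ℂ} (ht : t ∈ b.U)
    (hs : Function.Injective fun a => sE k x b a t) :
    ∃ t ∈ U, Function.Injective fun a => sc (Y k) x a t := by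
  classical
  by_contra hex
  push Not at hex
  have h1 := reach_rel (S := S) (a := base P Y) (b := b)
    (G := fun t ω φ => ∏ p ∈ (Finset.univ : Finset (Fin r → ZMod (ℓ ^ k))).offDiag,
      (∑ i : Fin (Y k).N, (x : ℂ) ^ (i : ℕ) * φ (Sum.inr ⟨k, (p.1, i)⟩) -
        ∑ i : Fin (Y k).N, (x : ℂ) ^ (i : ℕ) * φ (Sum.inr ⟨k, (p.2, i)⟩))) ?_ hb ?_ t ht
  · obtain ⟨p, hp, h2⟩ := Finset.prod_eq_zero_iff.1 h1
    exact (Finset.mem_offDiag.1 hp).2.2 (hs (sub_eq_zero.1 h2))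
  · intro c hc
    refine Finset.analyticOnNhd_fun_prod _ fun p _ => ?_
    refine AnalyticOnNhd.sub ?_ ?_
    · exact Finset.analyticOnNhd_fun_sum _ fun i _ => analyticOnNhd_const.mul (hc.2.2.2 _)
    · exact Finset.analyticOnNhd_fun_sum _ fun i _ => analyticOnNhd_const.mul (hc.2.2.2 _)
  · intro u hu
    have h2 := hex u hu
    unfold Function.Injective at h2
    push Not at h2
    obtain ⟨a, a', h3, h4⟩ := h2
    refine Finset.prod_eq_zero (i := (a, a')) (Finset.mem_offDiag.2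
      ⟨Finset.mem_univ _, Finset.mem_univ _, h4⟩) ?_
    have h5 : ∀ v i, (base P Y).f (Sum.inr ⟨k, (v, i)⟩) u = (Y k).y v i u := fun v i =>
      congrFun (base_inr (P := P) k v i) u
    simp only [h5]
    rw [sub_eq_zero]
    exact h3

end

theorem badXXG_count {κ : IntermediateField ℚ Qbar} [FiniteDimensional ℚ κ] {m : ℕ} (hm : 1 ≤ m)
    {r ℓ μ : ℕ} [Fact ℓ.Prime] {U : Set (Fin m → ℂ)} {w : (Fin m → ℂ) → ℂ}
    {S : MvPolynomial (Fin m) κ} {P : (Fin m → ℂ) → Matrix (Fin r) (Fin r) ℂ}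
    {Y : ∀ k : ℕ, CoverData κ (Fin r → ZMod (ℓ ^ k)) U w} {lev : Fin r → ℤ} {j : ℤ}
    {ψ : Matrix (Fin r) (Fin r) ℤ} (h : IsLocalSystem S P Y lev j ψ) (hw : IsEtaleCover κ S U μ w)
    (k : ℕ) {J : Type} [Fintype J] (ω : Module.Basis J ℚ κ)
    {D : ℕ} (hD : 1 ≤ D) (e : ℕ) (N : Finset (ℕ × J)) (hN : ∃ j, (0, j) ∈ N)
    (o : (Fin r → ZMod (ℓ ^ k)) → ℕ) (x x' : ℕ) :
    ∃ C θ₀ : ℝ, 0 < θ₀ ∧ ∀ X : ℕ, 1 ≤ X → ((BadXXG ω N S P Y k D e o x x' X).ncard : ℝ) ≤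
      C * (X : ℝ) ^ ((((D + 1 + m * (e + 1)) * Module.finrank ℚ κ + N.card : ℕ) : ℝ) - θ₀) := by
  classical
  have hwb : IsBranchM κ U μ w := by
    obtain ⟨h1, f, h2, -⟩ := hw
    exact ⟨h1, f, h2⟩
  by_cases hex : ∃ t ∈ U, Function.Injective fun a => HG.sc (Y k) x a t
  swap
  · -- the combinations coincide at all points of all charts
    refine ⟨0, 1, one_pos, fun X _ => ?_⟩
    have : BadXXG ω N S P Y k D e o x x' X = ∅ := by
      rw [Set.eq_empty_iff_forall_notMem]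
      rintro a ⟨_, θ, _, _, b, hb, htb, hs, _, _⟩
      exact hex (sE_inj hb htb hs)
    rw [this, Set.ncard_empty, Nat.cast_zero, zero_mul]
  obtain ⟨t₁, ht₁, hinj₁⟩ := hex
  -- the cover by one function
  set sub : MvPolynomial ((Fin m ⊕ Unit) ⊕ (Fin (Y k).N ⊕ Unit)) κ →ₐ[κ]
      MvPolynomial ((Fin m ⊕ Unit) ⊕ Unit) κ := MvPolynomial.aeval
    (Sum.elim (fun i => MvPolynomial.X (Sum.inl i))
      (Sum.elim (fun i => MvPolynomial.C ((x : κ) ^ (i : ℕ))) fun _ : Unit => MvPolynomial.X (Sum.inr ()))) with hsub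
  have hΦ : ∀ t ∈ U, ∀ Z : ℂ, MvPolynomial.aeval (Sum.elim (Sum.elim t fun _ => w t) fun _ => Z)
      (sub (Y k).Φ) = MvPolynomial.aeval (Sum.elim t fun _ => w t) (Y k).q * ∏ a, (Z - sc (Y k) x a t) := by
    intro t ht Z
    have h1 := (Y k).eqn t ht (fun i => (x : ℂ) ^ (i : ℕ)) Z
    rw [hsub]
    have h2 : (MvPolynomial.aeval (Sum.elim (Sum.elim t fun _ => w t) fun _ => Z) :
        MvPolynomial ((Fin m ⊕ Unit) ⊕ Unit) κ →ₐ[κ] ℂ).comp (MvPolynomial.aeval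
        (Sum.elim (fun i => MvPolynomial.X (Sum.inl i))
        (Sum.elim (fun i : Fin (Y k).N => MvPolynomial.C ((x : κ) ^ (i : ℕ))) fun _ : Unit => MvPolynomial.X (Sum.inr ())))) =
        MvPolynomial.aeval (Sum.elim (Sum.elim t fun _ => w t)
          (Sum.elim (fun i : Fin (Y k).N => (x : ℂ) ^ (i : ℕ)) fun _ : Unit => Z)) := by
      apply MvPolynomial.algHom_ext
      rintro (i | i | i)
      · simp
      · simp
      · simp
    have h3 := congrArg (fun f => f (Y k).Φ) h2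
    simp only [AlgHom.comp_apply] at h3
    rw [h3, h1]
    rfl
  obtain ⟨F, μ', M, E, π, -, hw', hP, ⟨b₀, hb₀⟩, hπ, hconj⟩ := exists_cover h.analytic.1
    h.analytic.2.1 ⟨t₁, ht₁⟩ hwb (sc (Y k) x)
    (analytic_sc (Y k) x) (fun a b hab => ⟨t₁, ht₁, fun h => hab (hinj₁ h)⟩) (Y k).q (sub (Y k).Φ)
    ⟨t₁, ht₁, (Y k).q_ne t₁ ht₁⟩ hΦ (fun a => (x' : ℤ) ^ o a) (HG.zc (Y k) o x x') (fun _ _ => rfl)
    (one_ne_zero : (1 : MvPolynomial (Fin m) κ) ≠ 0)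
  have hne : Nonempty (Fin M) := ⟨b₀⟩
  obtain ⟨f, hf⟩ := hw'.eqn
  obtain ⟨A, hA⟩ := mainR hm E h.ne f
    (μ * Fintype.card ((Fin r → ZMod (ℓ ^ k)) → (Fin r → ZMod (ℓ ^ k)))) ω hN hD e
  set δ : ℕ := (Fintype.card (Fin r → ZMod (ℓ ^ k))).factorial with hδ
  have hP' : E.IsPeriod U w (Zel k o x x' π (base P Y)).P := by
    have h1 : (Zel k o x x' π (base P Y)).P =
        fun t => Matrix.of fun i b : Fin M => HG.zc (Y k) o x x' (π b) t ^ (i : ℕ) := by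
      funext t
      change (Matrix.of fun i c : Fin M => zE k o x x' (base P Y) (π c) t ^ (i : ℕ)) = _
      rw [zE_base]
    rw [h1]
    exact hP
  refine ⟨Real.exp (((δ : ℝ) + 2) ^ A), 1 / ((δ : ℝ) + 2) ^ A, by positivity, fun X hX => ?_⟩
  refine le_trans ?_ (hA δ _ (isReach_lev h hwb k o x x' π hπ hP' hf δ) X hX)
  have hfin : ({a : DD.Px m D e J N → ℤ | (∀ p, |a p| ≤ X) ∧ ∃ θ : ℂ, polyU ω N a θ = 0 ∧
      denU ω N a θ ≠ 0 ∧ GLev κ S P Y k o x x' π δ (pointU ω N a θ)}).Finite :=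
    (AA.box_card X _ fun a ha => ha.1).1
  have hsubset : BadXXG ω N S P Y k D e o x x' X ⊆ {a : DD.Px m D e J N → ℤ | (∀ p, |a p| ≤ X) ∧
      ∃ θ : ℂ, polyU ω N a θ = 0 ∧ denU ω N a θ ≠ 0 ∧
        GLev κ S P Y k o x x' π δ (pointU ω N a θ)} := by
    rintro a ⟨ha, θ, hθ, hq, b, hb, htb, hs, hz, π', hchain, hσ⟩
    refine ⟨ha, θ, hθ, hq, b, hb, htb, hz, ?_⟩
    by_contra hno
    have hbw : IsBranchM κ b.U μ b.w := by
      obtain ⟨h1, f, h2⟩ := etale_chart h hw hb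
      exact ⟨h1, f, fun t ht => (h2 t ht).1⟩
    have halg := algebraic_pointU ω N a θ
    obtain ⟨h1, h2⟩ := algebraic_point hbw (chartY h hb k) htb halg
    refine hσ (sigma_of_noRel (chartY h hb k) htb halg h1 h2 x (fun a => (x' : ℤ) ^ o a)
      (zE k o x x' b) (fun _ _ => rfl) hz π hπ hb₀ ?_ hno hchain)
    intro π₁ hπ₁
    refine conj_cont h hb ?_ π₁ hπ₁
    intro π₂ hπ₂
    rw [zE_base] at hπ₂ ⊢
    exact hconj π₂ hπ₂
  exact_mod_cast Set.ncard_le_ncard hsubset hfin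

theorem levelG_count {κ : IntermediateField ℚ Qbar} [FiniteDimensional ℚ κ] {m : ℕ} (hm : 1 ≤ m)
    {r ℓ μ : ℕ} [Fact ℓ.Prime] {U : Set (Fin m → ℂ)} {w : (Fin m → ℂ) → ℂ}
    {S : MvPolynomial (Fin m) κ} {P : (Fin m → ℂ) → Matrix (Fin r) (Fin r) ℂ}
    {Y : ∀ k : ℕ, CoverData κ (Fin r → ZMod (ℓ ^ k)) U w} {lev : Fin r → ℤ} {j : ℤ}
    {ψ : Matrix (Fin r) (Fin r) ℤ} (h : IsLocalSystem S P Y lev j ψ) (hw : IsEtaleCover κ S U μ w)
    (k : ℕ) {J : Type} [Fintype J] (ω : Module.Basis J ℚ κ)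
    {D : ℕ} (hD : 1 ≤ D) (e : ℕ) (N : Finset (ℕ × J)) (hN : ∃ j, (0, j) ∈ N) :
    ∃ C θ₀ : ℝ, 0 < θ₀ ∧ ∀ X : ℕ, 1 ≤ X → ((SmallGalG ω N S P Y k D e X).ncard : ℝ) ≤
      C * (X : ℝ) ^ ((((D + 1 + m * (e + 1)) * Module.finrank ℚ κ + N.card : ℕ) : ℝ) - θ₀) := by
  classical
  -- a numbering of the points
  set A : Type := Fin r → ZMod (ℓ ^ k) with hA
  set o : A → ℕ := fun a => (Fintype.equivFin A a : ℕ) with ho
  have ho1 : Function.Injective o := fun a b h => (Fintype.equivFin A).injective (Fin.ext h)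
  have ho2 : ∀ a, o a < Fintype.card A := fun a => (Fintype.equivFin A a).2
  set B₁ : ℕ := Fintype.card A ^ 2 * (Y k).N with hB₁
  set B₂ : ℕ := (Fintype.card A).factorial ^ 2 * Fintype.card A with hB₂
  obtain ⟨C, θ₀, hθ₀, hC⟩ := sum_bound (Finset.range (B₁ + 1) ×ˢ Finset.range (B₂ + 1))
    (f := fun p X => ((BadXXG ω N S P Y k D e o p.1 p.2 X).ncard : ℝ))
    (n := (((D + 1 + m * (e + 1)) * Module.finrank ℚ κ + N.card : ℕ) : ℝ))
    fun p _ => badXXG_count hm h hw k ω hD e N hN o p.1 p.2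
  refine ⟨C, θ₀, hθ₀, fun X hX => le_trans ?_ (hC X hX)⟩
  have hsub : SmallGalG ω N S P Y k D e X ⊆
      ⋃ p ∈ Finset.range (B₁ + 1) ×ˢ Finset.range (B₂ + 1), BadXXG ω N S P Y k D e o p.1 p.2 X := by
    rintro a ⟨ha, θ, hθ, hq, b, hb, htb, hπ⟩
    obtain ⟨x, hx, hxi⟩ := exists_sep (fun a' i => b.f (Sum.inr ⟨k, (a', i)⟩) (pointU ω N a θ))
      (h.cover b hb _ htb k).2
    obtain ⟨x', hx', hxi'⟩ := exists_sep_perm o ho1 ho2 (fun a' => sE k x b a' (pointU ω N a θ)) hxi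
    rw [Set.mem_iUnion₂]
    refine ⟨(x, x'), ?_, ha, θ, hθ, hq, b, hb, htb, hxi, hxi', hπ⟩
    rw [Finset.mem_product, Finset.mem_range, Finset.mem_range]
    exact ⟨Nat.lt_succ_of_le hx, Nat.lt_succ_of_le hx'⟩
  have hfin : ∀ p : ℕ × ℕ, (BadXXG ω N S P Y k D e o p.1 p.2 X).Finite := fun p =>
    (AA.box_card X _ fun a ha => ha.1).1
  have h1 : (SmallGalG ω N S P Y k D e X).ncard ≤
      ∑ p ∈ Finset.range (B₁ + 1) ×ˢ Finset.range (B₂ + 1),
        (BadXXG ω N S P Y k D e o p.1 p.2 X).ncard := by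
    refine (Set.ncard_le_ncard hsub (Set.Finite.biUnion (Finset.finite_toSet _) fun p _ => hfin p)).trans ?_
    exact Finset.set_ncard_biUnion_le _ _
  exact_mod_cast h1

end Pool.Agent.Helper79.GB
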