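import Mathlib.Data.Complex.Basic
import Mathlib.Algebra.BigOperators.Ring.Finset
import Mathlib.Data.Fintype.BigOperators

/-!
# GB: the parameters of the points

The coordinates of the points are `G_i(θ) / G_0(θ)`, where `θ` is a root of a polynomial `F` of degree at most `D`, the `G_i`
are polynomials of degree at most `e`, with coefficients `∑_j a_j c_j`, `a_j` integers, and `G_0` is a combination of the
monomials `c_j y^k`, `(k, j) ∈ N`, with integral coefficients.
-/

namespace Pool.Agent.Helper79.GB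

/-- The indices of the integer parameters of a point: the coefficients of `F_a`, of `G_1, …, G_m`, and of `G_0`. -/
abbrev Idx (m D e : ℕ) (J ν : Type) : Type :=
  (Fin (D + 1) × J) ⊕ ((Fin m × (Fin (e + 1) × J)) ⊕ ν)

variable {J : Type} [Fintype J] {m D e : ℕ} (c : J → ℂ)

/-- The value at `θ` of the polynomial `F_a = ∑_k (∑_j a_(k,j) c_j) y^k` of degree at most `D`. -/
noncomputable def polyC {ν : Type} (a : Idx m D e J ν → ℤ) (θ : ℂ) : ℂ :=
  ∑ l : Fin (D + 1) × J, (a (Sum.inl l) : ℂ) * c l.2 * θ ^ (l.1 : ℕ)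

variable (N : Finset (ℕ × J))

/-- The value at `θ` of the denominator `G_0 = ∑_((k,j) ∈ N) a_(k,j) c_j y^k`. -/
noncomputable def denC (a : Idx m D e J N → ℤ) (θ : ℂ) : ℂ :=
  ∑ l : N, (a (Sum.inr (Sum.inr l)) : ℂ) * c l.1.2 * θ ^ l.1.1

/-- The point `(G_1(θ) / G_0(θ), …, G_m(θ) / G_0(θ))`, where `G_i = ∑_k (∑_j a_(i,k,j) c_j) y^k` is of degree at most `e`. -/
noncomputable def pointC (a : Idx m D e J N → ℤ) (θ : ℂ) : Fin m → ℂ := fun i =>
  (∑ l : Fin (e + 1) × J, (a (Sum.inr (Sum.inl (i, l))) : ℂ) * c l.2 * θ ^ (l.1 : ℕ)) / denC c N a θ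

end Pool.Agent.Helper79.GB
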