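import Pool.Agent.Helper79.GB.StatE
import Pool.Agent.Helper79.GB.StatQ

/-!
# GB: the bad sets, with the definitions of `Pool/Agent/Helper79/DD/StatU.lean`
-/

namespace Pool.Agent.Helper79.GB

open Matrix Pool.Agent.Helper79.BB Pool.Agent.Helper79.HH Pool.Agent.Helper79.HG Pool.Agent.Helper79.HI
  Pool.Agent.Helper79.FY Pool.Agent.Helper64.Per Pool.Agent.Helper88.MT Pool.Agent.Helper79.DD

/-- The integer parameters `a` with coordinates of absolute value at most `X` such that for an algebraic root `θ` of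
`F_a` with `G_0(θ) ≠ 0` and the point `t = (G_1(θ) / G_0(θ), …, G_m(θ) / G_0(θ))` there is a continuation `b` of `(w, P, y)` in the
complement of `S = 0`, with `t` in its domain, for which the equality of the Mumford-Tate conjecture at `ℓ` does not hold for the fibre
at `(t, w t)`, over the field `κ(t, w t)`. -/
def SmallEqG {κ : IntermediateField ℚ Qbar} {J : Type} [Fintype J] (ω : Module.Basis J ℚ κ)
    (N' : Finset (ℕ × J)) {m r ℓ : ℕ} [Fact ℓ.Prime] {U : Set (Fin m → ℂ)} {w : (Fin m → ℂ) → ℂ}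
    (S : MvPolynomial (Fin m) κ) (P : (Fin m → ℂ) → Matrix (Fin r) (Fin r) ℂ)
    (Y : ∀ k : ℕ, CoverData κ (Fin r → ZMod (ℓ ^ k)) U w) (lev : Fin r → ℤ)
    (ψ : Matrix (Fin r) (Fin r) ℤ) (N : Submodule ℚ (Fin r → ℚ)) (D e X : ℕ) :
    Set (DD.Px m D e J N' → ℤ) :=
  {a | (∀ p, |a p| ≤ X) ∧ ∃ θ : Qbar, polyU ω N' a θ = 0 ∧ denU ω N' a θ ≠ 0 ∧
    ∃ b, FY.Reach S (base P Y) b ∧ pointU ω N' a θ ∈ b.U ∧ ¬ EqElem κ lev b (pointU ω N' a θ) ψ N}

/-- The integer parameters `a` with coordinates of absolute value at most `X` such that for an algebraic root `θ` of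
`F_a` with `G_0(θ) ≠ 0` and the point `t = (G_1(θ) / G_0(θ), …, G_m(θ) / G_0(θ))` there is a continuation `b` of `(w, P, y)` in the
complement of `S = 0`, with `t` in its domain, for which the equality of the Mumford-Tate conjecture at `ℓ` does not hold for the fibre
at `(t, w t)`, over the field `κ(t, w t)`. -/
def SmallQ1G {κ : IntermediateField ℚ Qbar} {J : Type} [Fintype J] (ω : Module.Basis J ℚ κ)
    (N' : Finset (ℕ × J)) {m r ℓ : ℕ} [Fact ℓ.Prime] {U : Set (Fin m → ℂ)} {w : (Fin m → ℂ) → ℂ}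
    (S : MvPolynomial (Fin m) κ) (P : (Fin m → ℂ) → Matrix (Fin r) (Fin r) ℂ)
    (Y : ∀ k : ℕ, CoverData κ (Fin r → ZMod (ℓ ^ k)) U w) (lev : Fin r → ℤ) (D e X : ℕ) :
    Set (DD.Px m D e J N' → ℤ) :=
  {a | (∀ p, |a p| ≤ X) ∧ ∃ θ : Qbar, polyU ω N' a θ = 0 ∧ denU ω N' a θ ≠ 0 ∧
    ∃ b, FY.Reach S (base P Y) b ∧ pointU ω N' a θ ∈ b.U ∧ ¬ Q1Elem κ lev b (pointU ω N' a θ)}

end Pool.Agent.Helper79.GB
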