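import Pool.Agent.Helper79.FZ.Final
import Pool.Agent.Helper79.GB.FMain
import Pool.Agent.Helper79.GB.LevCount
import Pool.Agent.Helper79.GB.AtPt
import Pool.Agent.Helper79.GB.SetsM

/-!
# GB: the Mumford-Tate conjecture for `H^2` holds for most fibres, for all points of the base

(helper79)
-/

set_option linter.unusedSectionVars false

namespace Pool.Agent.Helper79.GB

open Matrix Module Pool.Agent.Helper79.BB Pool.Agent.Helper79.HH Pool.Agent.Helper79.HG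
  Pool.Agent.Helper79.HI Pool.Agent.Helper64.Per Pool.Agent.Helper88.MT Pool.Agent.Helper79.DD
  Pool.Agent.Helper46.GG Pool.Agent.Helper79.FX Pool.Agent.Helper79.FY Pool.Agent.Helper79.FZ

theorem IsEtaleCover.branch {k : Type} [Field k] [Algebra k ℂ] {m μ : ℕ} {S : MvPolynomial (Fin m) k}
    {U : Set (Fin m → ℂ)} {w : (Fin m → ℂ) → ℂ} (hw : IsEtaleCover k S U μ w) : IsBranchM k U μ w := by
  obtain ⟨h1, f, h2, -⟩ := hw
  exact ⟨h1, f, h2⟩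

/-- The Galois action, at a point outside the bad set. -/
theorem hgal_of {κ : IntermediateField ℚ Qbar} {m r ℓ : ℕ} [Fact ℓ.Prime] {U : Set (Fin m → ℂ)}
    {w : (Fin m → ℂ) → ℂ} {S : MvPolynomial (Fin m) κ} {P : (Fin m → ℂ) → Matrix (Fin r) (Fin r) ℂ}
    {Y : ∀ k : ℕ, CoverData κ (Fin r → ZMod (ℓ ^ k)) U w} {lev : Fin r → ℤ} {j : ℤ}
    {ψ : Matrix (Fin r) (Fin r) ℤ} {b : Elem m (Ix Y)} (h : IsLocalSystem S P Y lev j ψ)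
    (hb : FY.Reach S (base P Y) b) {K : ℕ} {t : Fin m → ℂ} (hno : ¬ NoGal κ K b t) :
    ∀ π : Equiv.Perm (Fin r → ZMod (ℓ ^ K)), Relation.ReflTransGen Elem.Next
      (⟨b.U, b.w, fun e : (Fin r → ZMod (ℓ ^ K)) × Fin (chartY h hb K).N =>
        (chartY h hb K).y e.1 e.2⟩ : Elem m ((Fin r → ZMod (ℓ ^ K)) × Fin (chartY h hb K).N))
      ⟨b.U, b.w, fun e => (chartY h hb K).y (π e.1) e.2⟩ →
      ∃ σ : Qbar ≃ₐ[kapM κ t (b.w t)] Qbar, ∀ a' i (u : Qbar),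
        (u : ℂ) = (chartY h hb K).y a' i t → ((σ u : Qbar) : ℂ) = (chartY h hb K).y (π a') i t := by
  intro π hπ
  by_contra hcon
  exact hno ⟨π, hπ, hcon⟩

theorem mostG_aux {κ : IntermediateField ℚ Qbar} [FiniteDimensional ℚ κ] {m : ℕ} (hm : 1 ≤ m)
    {F : FamiliesM κ m} {μ r₀ r : ℕ} (E : F.Sub μ r₀ (Fin r)) {S : MvPolynomial (Fin m) κ}
    {U : Set (Fin m → ℂ)} {w : (Fin m → ℂ) → ℂ} (hw : IsEtaleCover κ S U μ w)
    {P : (Fin m → ℂ) → Matrix (Fin r) (Fin r) ℂ} (hP : E.IsPeriod U w P) {ℓ : ℕ} [Fact ℓ.Prime]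
    (Y : ∀ k : ℕ, CoverData κ (Fin r → ZMod (ℓ ^ k)) U w) {lev : Fin r → ℤ}
    (hlev : ∀ x, 0 ≤ lev x ∧ lev x ≤ 2) {ψ : Matrix (Fin r) (Fin r) ℤ}
    (h : IsLocalSystem S P Y lev 2 ψ) {N : Submodule ℚ (Fin r → ℚ)}
    (hN : ∀ v ∈ N, ∀ γ ∈ MG P Y S ψ h.dom,
      (γ : Matrix (Fin r) (Fin r) ℤ).map (Int.cast : ℤ → ℚ) *ᵥ v = v)
    {t₁ : Fin m → ℂ} (ht₁ : t₁ ∈ U)
    (hNH : ∀ v ∈ N, (fun i => ((v i : ℚ) : ℂ)) ∈ hodgePart lev 2 (P t₁) 1)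
    (hcent : ∀ Γ : Subgroup (GL (Fin r) ℤ), Γ ≤ MG P Y S ψ h.dom →
      Γ.relIndex (MG P Y S ψ h.dom) ≠ 0 → ∀ x : Matrix (Fin r) (Fin r) ℚ,
        xᵀ * ψ.map (Int.cast : ℤ → ℚ) + ψ.map (Int.cast : ℤ → ℚ) * x = 0 → (∀ v ∈ N, x *ᵥ v = 0) →
        (∀ γ ∈ Γ, (γ : Matrix (Fin r) (Fin r) ℤ).map (Int.cast : ℤ → ℚ) * x =
          x * (γ : Matrix (Fin r) (Fin r) ℤ).map (Int.cast : ℤ → ℚ)) → x = 0)
    {J : Type} [Fintype J] (ω : Module.Basis J ℚ κ)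
    {D : ℕ} (hD : 1 ≤ D) (e : ℕ) (N' : Finset (ℕ × J)) (hN' : ∃ j, (0, j) ∈ N') :
    ∃ C θ₀ : ℝ, 0 < θ₀ ∧ ∀ X : ℕ, 1 ≤ X → ((SmallEqG ω N' S P Y lev ψ N D e X).ncard : ℝ) ≤
      C * (X : ℝ) ^ ((((D + 1 + m * (e + 1)) * Module.finrank ℚ κ + N'.card : ℕ) : ℝ) - θ₀) := by
  classical
  have hv := h.vhs
  have hwb := hw.branch
  have hdetP := hv.det ⟨U, w, P⟩ Relation.ReflTransGen.refl t₁ ht₁
  have hpol : IsPolarized lev 2 (ψ.map (Int.cast : ℤ → ℚ)) (P t₁) :=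
    hv.pol ⟨U, w, P⟩ Relation.ReflTransGen.refl t₁ ht₁
  have hne : U.Nonempty := ⟨t₁, ht₁⟩
  obtain ⟨Γ, hΓ, hfin, hdense, hdet1, hperf⟩ := exists_group hv hwb ht₁
  have hiso := FX.isom_qp hv.dom hΓ
  have hMG : Γ ≤ MG P Y S ψ h.dom := fun γ hγ => mem_MG_of_MM h hne (hΓ hγ)
  have hMM : MG P Y S ψ h.dom = MM (S.map (algebraMap κ ℂ)) ⟨U, w, P⟩ (ψ.map (Int.cast : ℤ → ℚ))
      h.vhs.dom :=
    le_antisymm (fun γ hγ => mem_MM_of_MG h hγ) fun γ hγ => mem_MG_of_MM h hne hγ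
  have hfin' : Γ.relIndex (MG P Y S ψ h.dom) ≠ 0 := by
    rw [hMM]
    exact hfin
  obtain ⟨H, hHψ, hHs⟩ := exists_lattice hlev hdetP hpol
  have hψd : ψ.det ≠ 0 := by rw [← hHψ]; exact H.det_ne_zero
  have hψq : (ψ.map (Int.cast : ℤ → ℚ)).det ≠ 0 := det_map_ne hψd
  obtain ⟨K, hK⟩ : ∃ K, Level Γ ℓ K := group_big hψq hiso hdet1 hperf ℓ
  -- facts on the group
  have hNfix : ∀ γ ∈ qp Γ, ∀ v ∈ N, (γ : Matrix (Fin r) (Fin r) ℚ) *ᵥ v = v := by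
    rintro _ ⟨γ, hγ, rfl⟩ v hv
    exact hN v hv γ (hMG hγ)
  have hcz : CentZero (ψ.map (Int.cast : ℤ → ℚ)) N (lieS (qp Γ)) := by
    intro x hx1 hx2 hx3
    refine hcent Γ hMG hfin' x hx1 hx2 fun γ hγ => ?_
    exact hdense.comm_of_lie (fun y hy => (hx3 y hy).symm) _ ⟨γ, hγ, rfl⟩
  -- the counts
  obtain ⟨A, hA⟩ := relG_count hm E (periodMap_of_VHS hv) hwb hP ω hD e N' hN'
  set δ : ℕ := 2 * Fintype.card (Fin r) + 2 with hδ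
  obtain ⟨C₂, θ₂, hθ₂, h₂⟩ := levelG_count hm h hw K ω hD e N' hN'
  obtain ⟨C, θ₀, hθ₀, hC⟩ := sum_bound (Finset.univ : Finset (Fin 2))
    (f := fun p X => if p = 0 then
      ((RelPointG ω N' S (⟨U, w, P⟩ : Element m (Fin r)) δ D e X).ncard : ℝ)
      else ((SmallGalG ω N' S P Y K D e X).ncard : ℝ))
    (n := (((D + 1 + m * (e + 1)) * Module.finrank ℚ κ + N'.card : ℕ) : ℝ)) (by
      intro p _
      fin_cases p
      · exact ⟨Real.exp (((δ : ℝ) + 2) ^ A), 1 / ((δ : ℝ) + 2) ^ A, by positivity, fun X hX => hA δ X hX⟩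
      · exact ⟨C₂, θ₂, hθ₂, h₂⟩)
  refine ⟨C, θ₀, hθ₀, fun X hX => le_trans ?_ (hC X hX)⟩
  rw [Fin.sum_univ_two]
  simp only [if_true, Fin.isValue, one_ne_zero, if_false]
  have hsub : SmallEqG ω N' S P Y lev ψ N D e X ⊆
      RelPointG ω N' S (⟨U, w, P⟩ : Element m (Fin r)) δ D e X ∪ SmallGalG ω N' S P Y K D e X := by
    rintro a ⟨ha, θ, hθ, hq, b, hb, htb, hne'⟩
    by_contra hcon
    rw [Set.mem_union, not_or] at hcon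
    obtain ⟨hA, hB⟩ := hcon
    refine hne' ?_
    have hbv := fg_base hb
    have hbs := chart_sys h hb
    have halg : ∀ i, IsAlgebraic ℚ (pointU ω N' a θ i) := algebraic_pointU ω N' a θ
    have hrel : ¬ HasRelationM b.U b.w (pmat b) (pointU ω N' a θ) κ δ := fun hrel =>
      hA ⟨ha, θ, hθ, hq, ⟨b.U, b.w, pmat b⟩, hbv, htb, hrel⟩
    have hnog : ¬ NoGal κ K b (pointU ω N' a θ) := fun hg => hB ⟨ha, θ, hθ, hq, b, hb, htb, hg⟩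
    have hMMb := MM_reach (ψ := ψ.map (Int.cast : ℤ → ℚ)) hv.dom hbv
    exact eq_at (Γ := Γ) (etale_chart h hw hb) hlev hbs (by
        rw [hMMb]
        exact hΓ) (by
        rw [hMMb]
        exact hfin) hdense hdet1 hperf hNfix hcz hK htb halg (fun v hvN =>
          type_transport hv hne hwb hΓ hfin hdet1 (b := ⟨b.U, b.w, pmat b⟩) (c := ⟨U, w, P⟩) hbv
            Relation.ReflTransGen.refl htb ht₁ (fun γ hγ => hNfix γ hγ v hvN) (hNH v hvN))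
      (mtContains_of_noRel htb hrel (h.det b hb _ htb) (h.pol b hb _ htb)) (hgal_of h hb hnog)
  have hfin2 : (RelPointG ω N' S (⟨U, w, P⟩ : Element m (Fin r)) δ D e X ∪
      SmallGalG ω N' S P Y K D e X).Finite := by
    refine Set.Finite.union ?_ ?_
    · exact (AA.box_card X _ fun a ha => ha.1).1
    · exact (AA.box_card X _ fun a ha => ha.1).1
  have h3 := (Set.ncard_le_ncard hsub hfin2).trans (Set.ncard_union_le _ _)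
  exact_mod_cast h3

theorem mostG {κ : IntermediateField ℚ Qbar} [FiniteDimensional ℚ κ] {m : ℕ} (hm : 1 ≤ m)
    {F : FamiliesM κ m} {μ r₀ r : ℕ} (E : F.Sub μ r₀ (Fin r)) {S : MvPolynomial (Fin m) κ}
    {U : Set (Fin m → ℂ)} {w : (Fin m → ℂ) → ℂ} (hw : IsEtaleCover κ S U μ w)
    {P : (Fin m → ℂ) → Matrix (Fin r) (Fin r) ℂ} (hP : E.IsPeriod U w P) {ℓ : ℕ} [Fact ℓ.Prime]
    (Y : ∀ k : ℕ, CoverData κ (Fin r → ZMod (ℓ ^ k)) U w) {lev : Fin r → ℤ}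
    (hlev : ∀ x, 0 ≤ lev x ∧ lev x ≤ 2) {ψ : Matrix (Fin r) (Fin r) ℤ}
    (h : IsLocalSystem S P Y lev 2 ψ) {N : Submodule ℚ (Fin r → ℚ)} (hN : NoCent S P Y ψ N)
    {t₁ : Fin m → ℂ} (ht₁ : t₁ ∈ U)
    (hNH : ∀ v ∈ N, (fun i => ((v i : ℚ) : ℂ)) ∈ hodgePart lev 2 (P t₁) 1)
    {J : Type} [Fintype J] (ω : Module.Basis J ℚ κ)
    {D : ℕ} (hD : 1 ≤ D) (e : ℕ) (N' : Finset (ℕ × J)) (hN' : ∃ j, (0, j) ∈ N') :
    ∃ C θ₀ : ℝ, 0 < θ₀ ∧ ∀ X : ℕ, 1 ≤ X → ((SmallEqG ω N' S P Y lev ψ N D e X).ncard : ℝ) ≤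
      C * (X : ℝ) ^ ((((D + 1 + m * (e + 1)) * Module.finrank ℚ κ + N'.card : ℕ) : ℝ) - θ₀) := by
  classical
  have hne : U.Nonempty := ⟨t₁, ht₁⟩
  refine mostG_aux hm E hw hP Y hlev h (fun v hv γ hγ => ?_) ht₁ hNH ?_ ω hD e N' hN'
  · exact (hN.fixed v).1 hv γ ((mem_MG_iff h hne γ).1 hγ)
  · intro Γ hΓ hfin x hx1 hx2 hx3
    refine hN.cent (Γ.relIndex (MG P Y S ψ h.dom)).factorial (Nat.factorial_pos _) x hx1 hx2
      fun γ hγ => ?_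
    have hmem := Subgroup.pow_mem_of_relIndex_ne_zero_of_dvd hfin ((mem_MG_iff h hne γ).2 hγ)
      (n := (Γ.relIndex (MG P Y S ψ h.dom)).factorial) fun k hk hk' => Nat.dvd_factorial hk hk'
    have h1 := hx3 _ hmem.1
    have h2 : ((γ ^ (Γ.relIndex (MG P Y S ψ h.dom)).factorial : GL (Fin r) ℤ) :
        Matrix (Fin r) (Fin r) ℤ).map (Int.cast : ℤ → ℚ) =
        (γ : Matrix (Fin r) (Fin r) ℤ).map (Int.cast : ℤ → ℚ) ^
          (Γ.relIndex (MG P Y S ψ h.dom)).factorial := by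
      rw [Units.val_pow_eq_pow_val]
      exact map_pow (Int.castRingHom ℚ).mapMatrix _ _
    rw [h2] at h1
    exact h1

end Pool.Agent.Helper79.GB
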