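import Pool.Agent.Helper79.GB.Count
import Pool.Agent.Helper79.GB.Flat
import Pool.Agent.Helper79.HG.MainV

/-!
# GB: the theorem on period relations, with solutions on balls

(helper79)
-/

open Polynomial

namespace Pool.Agent.Helper79.GB

open Pool.Agent.Helper79.GX Pool.Agent.Helper64.Per Pool.Agent.Helper79.GA Pool.Agent.Helper79.CU
  Pool.Agent.Helper79.AA Pool.Agent.Helper79.BB Pool.Agent.Helper79.DD Pool.Agent.Helper79.HH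

/-- Over each ball on which `T S` has no zeros there are at most `n₀` solutions of the equations of `E` such that at the
points with the property `G` one of them has a relation of degree at most `δ`. -/
def IsReach {κ : IntermediateField ℚ Qbar} {m : ℕ} {F : FamiliesM κ m} {μ r₀ : ℕ} {ι : Type}
    [Fintype ι] [DecidableEq ι] (E : F.Sub μ r₀ ι) (S : MvPolynomial (Fin m) κ)
    (f : Fin μ → MvPolynomial (Fin m) κ) (n₀ δ : ℕ) (G : (Fin m → ℂ) → Prop) : Prop :=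
  ∀ (x₀ : Fin m → ℂ) (R₀ : ℝ), 0 < R₀ →
    (∀ x ∈ Metric.ball x₀ R₀, MvPolynomial.aeval x (F.T * S) ≠ 0) →
    ∃ n ≤ n₀, ∃ c : Fin n → Element m ι,
      (∀ k, (c k).IsAnalytic ∧ (c k).U = Metric.ball x₀ R₀ ∧
        (∀ t ∈ (c k).U, (c k).w t ^ μ =
          ∑ l : Fin μ, MvPolynomial.aeval t (f l) * (c k).w t ^ (l : ℕ)) ∧
        IsFlat E (c k).U (c k).w (c k).P) ∧
      ∀ x ∈ Metric.ball x₀ R₀, G x → ∃ k, IsUnit ((c k).P x).det ∧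
        HasRelationM (c k).U (c k).w (c k).P x κ δ

section

variable {κ : IntermediateField ℚ Qbar} [FiniteDimensional ℚ κ] {m : ℕ} (hm : 1 ≤ m)
    {F : FamiliesM κ m} {μ r₀ : ℕ} {ι : Type} [Fintype ι] [DecidableEq ι] [Nonempty ι]
    (E : F.Sub μ r₀ ι) {S : MvPolynomial (Fin m) κ} (hS : S ≠ 0)
    (f : Fin μ → MvPolynomial (Fin m) κ) (n₀ : ℕ) {J : Type} [Fintype J] (ω : Module.Basis J ℚ κ)
    {N : Finset (ℕ × J)} (hN : ∃ j, (0, j) ∈ N)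

include hm hS hN

theorem mainR₀ {D : ℕ} (hD : 1 ≤ D) (e : ℕ) :
    ∃ (θ₀ C : ℝ) (N₁ s c₁ δ₀ : ℕ), 0 < θ₀ ∧ 0 ≤ C ∧ ∀ (δ : ℕ) (G : (Fin m → ℂ) → Prop),
      IsReach E S f n₀ δ G → ∀ X : ℕ, 1 ≤ X →
      (({x : DD.Px m D e J N → ℤ | (∀ p, |x p| ≤ X) ∧ ∃ θ : ℂ, polyU ω N x θ = 0 ∧
        denU ω N x θ ≠ 0 ∧ G (pointU ω N x θ)}).ncard : ℝ) ≤
        C * (X : ℝ) ^ ((Fintype.card (DD.Px m D e J N) : ℝ) - θ₀) +
        C * (bB m (N₁ * (δ + 2) ^ s) δ₀ (c₁ * (δ + 2)) + 1) *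
          (X : ℝ) ^ ((Fintype.card (DD.Px m D e J N) : ℝ) -
            1 / (2 * (bE (N₁ * (δ + 2) ^ s) : ℝ) + 4)) := by
  classical
  have hJ : Nonempty J := ω.index_nonempty
  obtain ⟨j₀⟩ := hJ
  obtain ⟨j₁, hj₁⟩ := hN
  set l₀ : N := ⟨(0, j₁), hj₁⟩ with hl₀
  set gd : N → ℕ × J := fun l => l.1 with hgd
  -- the system of the letters
  obtain ⟨𝔇, hstar⟩ := exists_uniM ω gd l₀ (m := m) e hD j₀ F.T_ne
    (A := fun i => wm (SubTensorM.B E i)) fun i => fam_tame_wm F E i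
  set δ₀ : ℕ := 𝔇.Θ.totalDegree + ∑ i, ∑ x, ∑ y, (𝔇.M i x y).totalDegree with hδ₀
  have hδM : ∀ i x y, (𝔇.M i x y).totalDegree ≤ δ₀ := by
    intro i x y
    have h1 : (𝔇.M i x y).totalDegree ≤ ∑ y, (𝔇.M i x y).totalDegree :=
      Finset.single_le_sum (f := fun y => (𝔇.M i x y).totalDegree) (fun _ _ => Nat.zero_le _)
        (Finset.mem_univ y)
    have h2 : ∑ y, (𝔇.M i x y).totalDegree ≤ ∑ x, ∑ y, (𝔇.M i x y).totalDegree :=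
      Finset.single_le_sum (f := fun x => ∑ y, (𝔇.M i x y).totalDegree)
        (fun _ _ => Nat.zero_le _) (Finset.mem_univ x)
    have h3 : ∑ x, ∑ y, (𝔇.M i x y).totalDegree ≤ ∑ i, ∑ x, ∑ y, (𝔇.M i x y).totalDegree :=
      Finset.single_le_sum (f := fun i => ∑ x, ∑ y, (𝔇.M i x y).totalDegree)
        (fun _ _ => Nat.zero_le _) (Finset.mem_univ i)
    omega
  obtain ⟨θ₀, C, hθ₀, hC, hcount⟩ := countG ω (gd := gd) (T := F.T) F.T_ne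
    (mul_ne_zero F.T_ne hS) hm hD j₀ (l₀ := l₀) rfl 𝔇.Θ_ne n₀
  refine ⟨θ₀, C, Fintype.card 𝔇.Γ, Fintype.card (Al μ ι), 6 * (𝔇.c + 1), δ₀, hθ₀, hC,
    fun δ G hG X hX => ?_⟩
  set ρ : ℕ := δ + 1 with hρ
  set 𝔈 := (𝔇.tens hstar ρ).quo (cls (β := Al μ ι) (r := ρ)) rep cls_rep
    (fun i => tensB_qinv (𝔇.M i)) with h𝔈
  have hcard : Fintype.card (𝔈.Γ × Wt (Al μ ι) ρ) ≤
      Fintype.card 𝔇.Γ * (δ + 2) ^ Fintype.card (Al μ ι) := by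
    rw [Fintype.card_prod]
    exact Nat.mul_le_mul le_rfl (card_Wt ρ)
  have hbox : DD.BoxC m (Fintype.card 𝔇.Γ * (δ + 2) ^ Fintype.card (Al μ ι)) δ₀
      (6 * (𝔇.c + 1) * (δ + 2))
      (bB m (Fintype.card 𝔇.Γ * (δ + 2) ^ Fintype.card (Al μ ι)) δ₀ (6 * (𝔇.c + 1) * (δ + 2)))
      (bE (Fintype.card 𝔇.Γ * (δ + 2) ^ Fintype.card (Al μ ι))) :=
    box_coreX m _ δ₀ _ hm
  have hc : 6 * 𝔈.c = 6 * (𝔇.c + 1) * (δ + 2) := by
    change 6 * ((𝔇.c + 1) * (ρ + 1)) = _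
    rw [hρ]
    ring
  have hbox' : DD.BoxC m (Fintype.card (𝔈.Γ × Wt (Al μ ι) ρ)) δ₀ (6 * 𝔈.c)
      (bB m (Fintype.card 𝔇.Γ * (δ + 2) ^ Fintype.card (Al μ ι)) δ₀ (6 * (𝔇.c + 1) * (δ + 2)))
      (bE (Fintype.card 𝔇.Γ * (δ + 2) ^ Fintype.card (Al μ ι))) := by
    rw [hc]
    exact DD.BoxC.mono @hbox hcard
  have hdM : ∀ i x y, (𝔈.M i x y).totalDegree ≤ δ₀ := by
    intro i x y
    change (qM (fun x : 𝔇.Γ × (Fin ρ → Al μ ι) => (x.1, cls x.2))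
      (fun s : 𝔇.Γ × Wt (Al μ ι) ρ => (s.1, rep s.2)) (tensB ρ (𝔇.M i)) x y).totalDegree ≤ δ₀
    exact totalDegree_qM _ _ _ (totalDegree_tensB ρ _ (hδM i)) x y
  refine hcount (Wt (Al μ ι) ρ) _ 𝔈 G rfl ?_ δ₀ _ _
    (by change 𝔇.Θ.totalDegree ≤ δ₀; omega) hdM @hbox' X hX
  intro x₀ R₀ hR₀ hball
  obtain ⟨n, hn, c, hc1, hc2⟩ := hG x₀ R₀ hR₀ hball
  have hwords : ∀ k, (∀ α : Fin ρ → Al μ ι,
      AnalyticOnNhd ℂ (fun t => wd ρ ((c k).w t) ((c k).P t) α) (c k).U) ∧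
      ∀ t ∈ (c k).U, ∀ s (α : Fin ρ → Al μ ι),
        MvPolynomial.aeval t F.T * pd s (fun t => wd ρ ((c k).w t) ((c k).P t) α) t =
        ∑ α', MvPolynomial.aeval t (tens ρ (wm (SubTensorM.B E s)) α α') *
          wd ρ ((c k).w t) ((c k).P t) α' := fun k =>
    words_of_flat (hc1 k).1.1 (hc1 k).1.2.2.1 (hc1 k).1.2.2.2 (hc1 k).2.2.2 ρ
  have hsym : ∀ k, ∀ t ∈ (c k).U, ∀ I : Fin ρ → Al μ ι, wd ρ ((c k).w t) ((c k).P t) I =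
      wd ρ ((c k).w t) ((c k).P t) (rep (cls I)) :=
    fun k t _ I => wd_sym ρ _ _ I
  refine ⟨n, hn, fun k t s => wd (μ := μ) ρ ((c k).w t) ((c k).P t) (rep s), ?_, ?_, ?_⟩
  · intro k s
    rw [← (hc1 k).2.1]
    exact (hwords k).1 (rep s)
  · intro k t ht s i
    have h1 := sys_q (hsym k) (hwords k).2
    exact h1 t (by rw [(hc1 k).2.1]; exact ht) s i
  · intro x hx hGx
    obtain ⟨k, hk1, hk2⟩ := hc2 x hx hGx
    have hxU : x ∈ (c k).U := by rw [(hc1 k).2.1]; exact hx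
    refine ⟨k, ?_⟩
    have h1 := kbad_q cls_rep (hsym k) hxU (kbadM_of_rel (hc1 k).2.2.1 hxU hk1 hk2)
    rw [(hc1 k).2.1] at h1
    exact h1

/-- The theorem on the points of bounded degree, uniform in the degree of the relations. -/
theorem mainR {D : ℕ} (hD : 1 ≤ D) (e : ℕ) :
    ∃ A : ℕ, ∀ (δ : ℕ) (G : (Fin m → ℂ) → Prop), IsReach E S f n₀ δ G → ∀ X : ℕ, 1 ≤ X →
      (({x : DD.Px m D e J N → ℤ | (∀ p, |x p| ≤ X) ∧ ∃ θ : ℂ, polyU ω N x θ = 0 ∧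
        denU ω N x θ ≠ 0 ∧ G (pointU ω N x θ)}).ncard : ℝ) ≤
      Real.exp (((δ : ℝ) + 2) ^ A) *
        (X : ℝ) ^ ((((D + 1 + m * (e + 1)) * Module.finrank ℚ κ + N.card : ℕ) : ℝ) -
          1 / ((δ : ℝ) + 2) ^ A) := by
  obtain ⟨θ₀, C, N₁, s, c₁, δ₀, hθ₀, hC, h⟩ := mainR₀ hm E hS f n₀ ω hN hD e
  have hc : Fintype.card (DD.Px m D e J N) =
      (D + 1 + m * (e + 1)) * Module.finrank ℚ κ + N.card := by
    rw [Module.finrank_eq_card_basis ω]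
    simp only [DD.Px, Fintype.card_sum, Fintype.card_prod, Fintype.card_fin, Fintype.card_coe]
    ring
  rw [← hc]
  obtain ⟨a, ha⟩ := num_final (m := m) (N₁ := N₁) (s := s) (c₁ := c₁) (δ₀ := δ₀)
    (n := (Fintype.card (DD.Px m D e J N) : ℝ)) hθ₀ hC
  exact ⟨a, fun δ G hG X hX => (h δ G hG X hX).trans (ha δ X hX)⟩

end

end Pool.Agent.Helper79.GB
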