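import Pool.Agent.Helper79.HI.Point

/-!
# GB: the comparison at a point, with the data at the base point in another chart

The proof is that of `q1_of` in `Pool/Agent/Helper79/HI/Point.lean` (helper79)
-/

set_option linter.unusedSectionVars false

namespace Pool.Agent.Helper79.GB

open Matrix Module Pool.Agent.Helper79.BB Pool.Agent.Helper79.HH Pool.Agent.Helper79.HG
  Pool.Agent.Helper79.HI Pool.Agent.Helper64.Per Pool.Agent.Helper88.MT Pool.Agent.Helper46.GG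

variable {κ : IntermediateField ℚ Qbar} {m r ℓ : ℕ} [Fact ℓ.Prime] {U : Set (Fin m → ℂ)}
  {w : (Fin m → ℂ) → ℂ} {Y : ∀ k : ℕ, CoverData κ (Fin r → ZMod (ℓ ^ k)) U w} {lev : Fin r → ℤ}
  {ψ : Matrix (Fin r) (Fin r) ℤ} {P : (Fin m → ℂ) → Matrix (Fin r) (Fin r) ℂ}
  {Γ : Subgroup (GL (Fin r) ℤ)}

/-- The tangent vectors of the group are tangent to the monodromy group. -/
theorem tangent_of_mono (hmono : ∀ γ ∈ Γ, (γ : Matrix (Fin r) (Fin r) ℤ) ∈ MonoL ψ P Y) :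
    ∀ x ∈ lieS (qp Γ),
    x.map (Rat.cast : ℚ → ℂ) ∈ HH.tangent (Mono (ψ.map (Int.cast : ℤ → ℚ)) U w P) := by
  intro x hx q hq
  refine map_mem_tangent hx q ?_
  rintro _ ⟨_, ⟨γ, hγ, rfl⟩, rfl⟩
  have h1 : ((Matrix.GeneralLinearGroup.map (Int.castRingHom ℚ) γ : GL (Fin r) ℚ) :
      Matrix (Fin r) (Fin r) ℚ).map (Rat.cast : ℚ → ℂ) =
      (γ : Matrix (Fin r) (Fin r) ℤ).map (Int.cast : ℤ → ℂ) := by
    ext i j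
    change (((γ : Matrix (Fin r) (Fin r) ℤ) i j : ℤ) : ℚ) = ((γ : Matrix (Fin r) (Fin r) ℤ) i j : ℂ)
    simp
  have h2 := hq _ (mono_of_monoL (hmono γ hγ))
  rw [← h1] at h2
  exact h2

/-- The proof at a point. -/
theorem q1_ofX [FiniteDimensional ℚ κ] {μ : ℕ} (hw : IsBranchM κ U μ w)
    (hlev : ∀ x, 0 ≤ lev x ∧ lev x ≤ 2) (hψ : ψ.det ≠ 0)
    (hmono : ∀ γ ∈ Γ, (γ : Matrix (Fin r) (Fin r) ℤ) ∈ MonoL ψ P Y)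
    (hconnΓ : IsConn (qp Γ : Set (GL (Fin r) ℚ)))
    (hdetΓ : ∀ γ ∈ qp Γ, (γ : Matrix (Fin r) (Fin r) ℚ).det = 1)
    (hperf : ∀ W : Submodule ℚ (Matrix (Fin r) (Fin r) ℚ),
      (∀ x ∈ lieS (qp Γ), ∀ y ∈ lieS (qp Γ), x * y - y * x ∈ W) → lieS (qp Γ) ≤ W)
    {m' : ℕ} {t₀ : Fin m' → ℂ} {z₀ : ℂ} {P₀ : Matrix (Fin r) (Fin r) ℂ} {n₀ : ℕ → ℕ}
    {y₀ : ∀ k, (Fin r → ZMod (ℓ ^ k)) → Fin (n₀ k) → ℂ}
    (hP₀ : IsUnit P₀.det) (hpol₀ : IsPolarized lev 2 (ψ.map (Int.cast : ℤ → ℚ)) P₀)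
    {ρ₀ : (Qbar ≃ₐ[kapM κ t₀ z₀] Qbar) →* GL (Fin r) ℤ_[ℓ]}
    (hρ₀ : IsGalRep (fun σ z => σ z) y₀ ρ₀)
    {G₀ : Subgroup (Qbar ≃ₐ[kapM κ t₀ z₀] Qbar)} (hG₀ : G₀.FiniteIndex)
    (h₀ : (IsConn (toQl '' (G₀.map ρ₀ : Set (GL (Fin r) ℤ_[ℓ]))) ∧
        IsEq lev P₀ (G₀.map ρ₀)) ∨
      ((∀ u a, IsHodgeElt lev P₀ u a → a ∈ zar ℂ (qp Γ : Set (GL (Fin r) ℚ))) ∧
        ∀ σ ∈ G₀, toQl (ρ₀ σ) ∈ zar ℚ_[ℓ] (qp Γ : Set (GL (Fin r) ℚ))))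
    {K : ℕ} (hK : Level Γ ℓ K) {t : Fin m → ℂ} (htU : t ∈ U)
    (ht : ∀ i, IsAlgebraic ℚ (t i)) (hP : IsUnit (P t).det)
    (hpol : IsPolarized lev 2 (ψ.map (Int.cast : ℤ → ℚ)) (P t))
    (hhodge : ∀ (u : ℂ) (a a₀ : GL (Fin r) ℂ), IsHodgeElt lev (P t) u a →
      IsHodgeElt lev P₀ u a₀ → a * a₀⁻¹ ∈ zar ℂ (qp Γ : Set (GL (Fin r) ℚ)))
    (hgalois : ∃ G₁ : Subgroup (Qbar ≃ₐ[ℚ] Qbar),
      G₁.FiniteIndex ∧ ∀ σ ∈ G₁, ∀ g g₀ : GL (Fin r) ℤ_[ℓ],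
      IsGalElt σ (pts Y t) g → IsGalElt σ y₀ g₀ →
        toQl (g * g₀⁻¹) ∈ zar ℚ_[ℓ] (qp Γ : Set (GL (Fin r) ℚ)) ∧
        ∀ a ∈ zar ℚ_[ℓ] (qp Γ : Set (GL (Fin r) ℚ)),
          toQl g * a * (toQl g)⁻¹ ∈ zar ℚ_[ℓ] (qp Γ : Set (GL (Fin r) ℚ)))
    (hMT : MTContains lev 2 (P t) (HH.tangent (Mono (ψ.map (Int.cast : ℤ → ℚ)) U w P)))
    (hgal : ∀ π : Equiv.Perm (Fin r → ZMod (ℓ ^ K)), Relation.ReflTransGen Elem.Next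
      (⟨U, w, fun e : (Fin r → ZMod (ℓ ^ K)) × Fin (Y K).N => (Y K).y e.1 e.2⟩ :
        Elem m ((Fin r → ZMod (ℓ ^ K)) × Fin (Y K).N))
      ⟨U, w, fun e => (Y K).y (π e.1) e.2⟩ →
      ∃ σ : Qbar ≃ₐ[kapM κ t (w t)] Qbar, ∀ a' i (u : Qbar),
        (u : ℂ) = (Y K).y a' i t → ((σ u : Qbar) : ℂ) = (Y K).y (π a') i t) :
    Q1At (G := Qbar ≃ₐ[kapM κ t (w t)] Qbar) (fun σ z => σ z) (pts Y t) lev (P t) := by
  classical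
  intro ρ hρ G' hG' hconn
  -- the Hodge side
  have hMTΓ := map_mem_MTat hlev hP hpol hconnΓ hdetΓ hperf hMT (tangent_of_mono hmono)
  have hcl : ∀ a : GL (Fin r) ℂ, a ∈ MTat lev (P t) ↔
      ∀ f ∈ vanGL ℚ (MTat lev (P t) : Set (GL (Fin r) ℂ)), evGL a f = 0 := MTat_closed
  obtain ⟨T₀, hβ, hγ, hδ, hα⟩ := exists_base (ρ₀ := ρ₀) (G₀ := G₀) (Γ := Γ) h₀
  have hT₀ : T₀ ≤ MTat lev (P t) := by
    refine hα _ hcl hMTΓ ?_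
    intro u a₀ ha₀
    obtain ⟨a, ha⟩ := exists_hodgeElt hlev hP hpol ha₀.1
    have h1 := zar_le_closed hcl hMTΓ (hhodge u a a₀ ha ha₀)
    have h2 := (MTat lev (P t)).mul_mem ((MTat lev (P t)).inv_mem h1) (isHodgeElt_mem ha)
    have h3 : (a * a₀⁻¹)⁻¹ * a = a₀ := by group
    rwa [h3] at h2
  -- the groups
  obtain ⟨G₁, hG₁, hgal₁⟩ := hgalois
  set res : (Qbar ≃ₐ[kapM κ t (w t)] Qbar) →* (Qbar ≃ₐ[ℚ] Qbar) := AlgEquiv.restrictScalarsHom ℚ with hres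
  set res₀ : (Qbar ≃ₐ[kapM κ t₀ z₀] Qbar) →* (Qbar ≃ₐ[ℚ] Qbar) :=
    AlgEquiv.restrictScalarsHom ℚ with hres₀
  have hA₀ : (G₀.map res₀).FiniteIndex := finiteIndex_map hG₀
  set G₂ : Subgroup (Qbar ≃ₐ[kapM κ t (w t)] Qbar) := G' ⊓ (G₁ ⊓ G₀.map res₀).comap res with hG₂
  have hG₂' : G₂.FiniteIndex := by
    have h1 : (G₁ ⊓ G₀.map res₀).FiniteIndex := inferInstance
    have h2 : ((G₁ ⊓ G₀.map res₀).comap res).FiniteIndex := finiteIndex_comap res h1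
    exact inferInstance
  -- the pairs
  have hpair : ∀ σ ∈ G₂, ∃ τ ∈ G₀, res₀ τ = res σ ∧
      toQl (ρ σ * (ρ₀ τ)⁻¹) ∈ zar ℚ_[ℓ] (qp Γ : Set (GL (Fin r) ℚ)) ∧
      ∀ a ∈ zar ℚ_[ℓ] (qp Γ : Set (GL (Fin r) ℚ)),
          toQl (ρ σ) * a * (toQl (ρ σ))⁻¹ ∈ zar ℚ_[ℓ] (qp Γ : Set (GL (Fin r) ℚ)) := by
    intro σ hσ
    obtain ⟨τ, hτ, hτσ⟩ := hσ.2.2
    refine ⟨τ, hτ, hτσ, ?_⟩
    refine hgal₁ (res σ) hσ.2.1 (ρ σ) (ρ₀ τ) (hρ σ) ?_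
    rw [← hτσ]
    exact hρ₀ τ
  have hE1 : ∀ σ ∈ G₂, ∀ f ∈ vanGL ℚ (MTat lev (P t) : Set (GL (Fin r) ℂ)),
      evGL (toQl (ρ σ)) f = 0 := by
    intro σ hσ
    obtain ⟨τ, hτ, -, h1, -⟩ := hpair σ hσ
    refine van_of_pair hT₀ hMTΓ (hβ τ hτ) ?_
    have h2 : toQl (ρ σ * (ρ₀ τ)⁻¹) = toQl (ρ σ) * (toQl (ρ₀ τ))⁻¹ := by
      rw [toQl, map_mul, map_inv]
      rfl
    rwa [h2] at h1
  -- the determinants
  have hdet₂ : ∀ σ ∈ G₂, (ρ σ : Matrix (Fin r) (Fin r) ℤ_[ℓ]).det = 1 := by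
    intro σ hσ
    have h1 := hE1 σ hσ (MvPolynomial.rename some (eqDet (Fin r) ℚ) : GLPoly r ℚ) (by
      intro a ha
      rw [evGL_rename, evM_eqDet, (MTat_isom hlev hP hpol ha).2, sub_self])
    rw [evGL_rename, evM_eqDet, sub_eq_zero, det_toQl,
      ← map_one (algebraMap ℤ_[ℓ] ℚ_[ℓ])] at h1
    exact IsFractionRing.injective ℤ_[ℓ] ℚ_[ℓ] h1
  -- the image contains the monodromy group modulo `ℓ^K`
  have hcong : ∀ γ ∈ Γ, ∃ g ∈ ρ.range, ∀ i j,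
      PadicInt.toZModPow K ((g : Matrix (Fin r) (Fin r) ℤ_[ℓ]) i j) =
        (((γ : Matrix (Fin r) (Fin r) ℤ) i j : ℤ) : ZMod (ℓ ^ K)) := by
    intro γ hγ
    obtain ⟨π, hπ⟩ := exists_perm_actZ (ℓ := ℓ) hψ (hmono γ hγ).1 K
    have h1 := chain_of_monoL (hmono γ hγ) K
    have h2 : (⟨U, w, fun e => (Y K).y (HG.actZ (γ : Matrix (Fin r) (Fin r) ℤ) e.1) e.2⟩ :
        Elem m ((Fin r → ZMod (ℓ ^ K)) × Fin (Y K).N)) = ⟨U, w, fun e => (Y K).y (π e.1) e.2⟩ := by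
      congr 1
      funext e
      rw [hπ]
    rw [h2] at h1
    obtain ⟨σ, hσ⟩ := hgal π h1
    refine ⟨ρ σ, ⟨σ, rfl⟩, ?_⟩
    obtain ⟨-, h3⟩ := algebraic_point hw (Y K) htU ht
    have h4 : ∀ v : Fin r → ZMod (ℓ ^ K), actP (ρ σ) v = HG.actZ (γ : Matrix (Fin r) (Fin r) ℤ) v := by
      intro v
      apply (Y K).inj t htU
      funext i
      have h5 : (((⟨(Y K).y v i t, mem_algebraicClosure_iff.2 (h3 v i)⟩ : Qbar) : Qbar) : ℂ) =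
          (Y K).y v i t := rfl
      have h6 : (((σ ⟨(Y K).y v i t, mem_algebraicClosure_iff.2 (h3 v i)⟩ : Qbar) : Qbar) : ℂ) =
          (Y K).y (actP (ρ σ) v) i t := hρ σ K v i _ h5
      rw [hσ v i _ h5, hπ] at h6
      exact h6.symm
    intro i j
    have h7 := congrFun (h4 (Pi.single j 1)) i
    rw [actP, HG.actZ, mulVec_single_one, mulVec_single_one] at h7
    exact h7
  -- the level
  have hlie : mspan ℚ_[ℓ] (lieS (qp Γ)) ≤ lieS (gal (G₂.map ρ)) := by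
    refine hK ρ.range (G₂.map ρ) ?_ ?_ hcong
    · rintro _ ⟨σ, rfl⟩
      obtain ⟨n, hn, -, hσn⟩ := Subgroup.exists_pow_mem_of_index_ne_zero hG₂'.index_ne_zero σ
      exact ⟨n, hn, σ ^ n, hσn, map_pow _ _ _⟩
    · rintro _ ⟨σ, hσ, rfl⟩ x hx
      refine conj_mem_mspan ?_ ?_ hx
      · obtain ⟨τ, -, -, -, h1⟩ := hpair σ hσ
        exact h1
      · obtain ⟨τ, -, -, -, h1⟩ := hpair σ⁻¹ (G₂.inv_mem hσ)
        rw [map_inv] at h1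
        exact h1
  have hΓ₂ := mem_zar_of_lie hconnΓ hdetΓ (G := gal (G₂.map ρ)) (by
    rintro _ ⟨_, ⟨σ, hσ, rfl⟩, rfl⟩
    have h1 := det_toQl (ρ σ)
    rw [hdet₂ σ hσ, map_one] at h1
    exact h1) hlie
  have hΓR : ∀ γ ∈ qp Γ, Matrix.GeneralLinearGroup.map (algebraMap ℚ ℚ_[ℓ]) γ ∈
      zar ℚ_[ℓ] (gal (G'.map ρ) : Set (GL (Fin r) ℚ_[ℓ])) := by
    intro γ hγ f hf
    refine hΓ₂ γ hγ f ?_
    rintro _ ⟨_, ⟨σ, hσ, rfl⟩, rfl⟩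
    exact hf _ ⟨_, ⟨σ, hσ.1, rfl⟩, rfl⟩
  -- the group at the base point
  have hG₃ : ((G₂.map res).comap res₀).FiniteIndex := finiteIndex_comap res₀ (finiteIndex_map hG₂')
  have hpc₀ := hγ (gal (G'.map ρ)) hΓR ((G₂.map res).comap res₀) hG₃ (by
    intro τ hτ hτ'
    obtain ⟨σ, hσ, hστ⟩ := hτ'
    obtain ⟨τ', hτ', hτ'σ, h1, -⟩ := hpair σ hσ
    have h2 : τ' = τ := AlgEquiv.restrictScalarsHom_injective ℚ (hτ'σ.trans hστ)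
    subst h2
    have h3 : toQl (ρ σ * (ρ₀ τ')⁻¹) ∈ zarG ℚ_[ℓ] (gal (G'.map ρ)) := zar_trans hΓR h1
    have h4 : toQl (ρ σ) ∈ zarG ℚ_[ℓ] (gal (G'.map ρ)) := fun f hf =>
      hf _ ⟨_, ⟨σ, hσ.1, rfl⟩, rfl⟩
    have h5 := (zarG ℚ_[ℓ] (gal (G'.map ρ))).mul_mem ((zarG ℚ_[ℓ] (gal (G'.map ρ))).inv_mem h3) h4
    have h6 : (toQl (ρ σ * (ρ₀ τ')⁻¹))⁻¹ * toQl (ρ σ) = toQl (ρ₀ τ') := by
      have h7 : toQl (ρ σ * (ρ₀ τ')⁻¹) = toQl (ρ σ) * (toQl (ρ₀ τ'))⁻¹ := by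
        rw [toQl, map_mul, map_inv]
        rfl
      rw [h7]
      group
    rwa [h6] at h5)
  have hpc := pc_mem_of_group (lev := lev) (P := P t) hΓR hpc₀ (by
    intro u a ha
    obtain ⟨a₀, ha₀⟩ := exists_hodgeElt hlev hP₀ hpol₀ ha.1
    exact ⟨a₀, hδ u a₀ ha₀, hhodge u a a₀ ha ha₀⟩)
  -- conclusion
  refine (map_eq_iff _ _).2 (le_antisymm ?_ ?_)
  · rw [Ideal.map_le_iff_le_comap]
    intro f hf
    rw [Ideal.mem_comap]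
    have h1 : ∀ g ∈ gal (G'.map ρ), evGL g (MvPolynomial.map (algebraMap ℚ ℚ_[ℓ]) f) = 0 := by
      refine van_of_finite (Γ := gal (G'.map ρ)) (Γ' := gal ((G₂ ⊓ G').map ρ)) ?_ ?_ ?_
      · rw [coe_gal]
        exact hconn
      · rw [gal, gal, Subgroup.map_map, Subgroup.map_map]
        exact relIndex_map_ne_zero _ hG₂'
      · rintro _ ⟨_, ⟨σ, hσ, rfl⟩, rfl⟩ _
        have h2 := hE1 σ hσ.1 f hf
        rw [evGL_mapPoly]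
        exact h2
    intro g hg
    exact h1 g hg
  · intro f hf
    refine mem_map_iff_pc.2 fun φ => ?_
    exact hpc f hf φ

end Pool.Agent.Helper79.GB
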