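import Pool.Agent.Helper79.GB.DefsM
import Pool.Agent.Helper79.GB.Par

/-!
# GB: the Mumford-Tate conjecture at all points of the base: definitions for the statement of `MostFibres`
-/

namespace Pool.Agent.Helper79.GB

open Matrix Pool.Agent.Helper79.BB Pool.Agent.Helper79.HG Pool.Agent.Helper79.FY Pool.Agent.Helper64.Per

/-- The statement `Q` about groups acting on `Qbar` holds for the Galois group of the field `κ(t, y)`. -/
def ForGal (κ : IntermediateField ℚ Qbar) {m : ℕ} (t : Fin m → ℂ) (y : ℂ)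
    (Q : ∀ (G : Type) [Group G], (G → Qbar → Qbar) → Prop) : Prop :=
  Q (Qbar ≃ₐ[kapM κ t y] Qbar) fun σ z => σ z

/-- The equality of the Mumford-Tate conjecture at `ℓ` holds for the fibre at `(t, w t)`, over the field `κ(t, w t)`, `w` the
branch of the continuation `b` of `(w, P, y)`. -/
def EqElem (κ : IntermediateField ℚ Qbar) {m r ℓ : ℕ} [Fact ℓ.Prime] {n : ℕ → ℕ} (lev : Fin r → ℤ)
    (b : Elem m ((Fin r × Fin r) ⊕ (Σ k : ℕ, (Fin r → ZMod (ℓ ^ k)) × Fin (n k)))) (t : Fin m → ℂ)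
    (ψ : Matrix (Fin r) (Fin r) ℤ) (N : Submodule ℚ (Fin r → ℚ)) : Prop :=
  ForGal κ t (b.w t) fun _ _ act => EqHolds act (yE b t) lev ψ N (pmat b t)

/-- The integer parameters `a` with coordinates of absolute value at most `X` such that for an algebraic root `θ` of
`F_a` with `G_0(θ) ≠ 0` and the point `t = (G_1(θ) / G_0(θ), …, G_m(θ) / G_0(θ))` there is a continuation `b` of `(w, P, y)` in the
complement of `S = 0`, with `t` in its domain, for which the equality of the Mumford-Tate conjecture at `ℓ` does not hold for the fibre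
at `(t, w t)`, over the field `κ(t, w t)`. -/
def SmallEqC {κ : IntermediateField ℚ Qbar} {J : Type} [Fintype J] (c : J → ℂ)
    (N' : Finset (ℕ × J)) {m r ℓ : ℕ} [Fact ℓ.Prime] {U : Set (Fin m → ℂ)} {w : (Fin m → ℂ) → ℂ}
    (S : MvPolynomial (Fin m) κ) (P : (Fin m → ℂ) → Matrix (Fin r) (Fin r) ℂ)
    (Y : ∀ k : ℕ, CoverData κ (Fin r → ZMod (ℓ ^ k)) U w) (lev : Fin r → ℤ)
    (ψ : Matrix (Fin r) (Fin r) ℤ) (N : Submodule ℚ (Fin r → ℚ)) (D e X : ℕ) :
    Set (Idx m D e J N' → ℤ) :=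
  {a | (∀ p, |a p| ≤ X) ∧ ∃ θ : Qbar, polyC c a θ = 0 ∧ denC c N' a θ ≠ 0 ∧
    ∃ b, Reach S (base P Y) b ∧ pointC c N' a θ ∈ b.U ∧ ¬ EqElem κ lev b (pointC c N' a θ) ψ N}

end Pool.Agent.Helper79.GB
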