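import Pool.Agent.Helper79.FX.Stat
import Pool.Agent.Helper79.GB.Par

/-!
# GB: the points which are not Hodge generic: definition for the statement of `HodgeGeneric`
-/

namespace Pool.Agent.Helper79.GB

open Pool.Agent.Helper79.BB Pool.Agent.Helper79.HH Pool.Agent.Helper79.FX Pool.Agent.Helper64.Per

/-- The integer parameters `x` with coordinates of absolute value at most `X` such that for a root `θ` of
`F_x` with `G_0(θ) ≠ 0` and the point `t = (G_1(θ) / G_0(θ), …, G_m(θ) / G_0(θ))` there is a continuation `b` of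
`a` in the complement of `S = 0`, with `t` in its domain, for which `t` is not Hodge generic. -/
def NotGenericC {κ : IntermediateField ℚ Qbar} {J : Type} [Fintype J] (c : J → ℂ) (N : Finset (ℕ × J))
    {m r : ℕ} (S : MvPolynomial (Fin m) κ) (a : Element m (Fin r)) (lev : Fin r → ℤ) (j : ℤ)
    (D e X : ℕ) : Set (Idx m D e J N → ℤ) :=
  {x | (∀ p, |x p| ≤ X) ∧ ∃ θ : ℂ, polyC c x θ = 0 ∧ denC c N x θ ≠ 0 ∧
    ∃ b, Reach (S.map (algebraMap κ ℂ)) a b ∧ pointC c N x θ ∈ b.U ∧
      ¬ IsGeneric (S.map (algebraMap κ ℂ)) b lev j (pointC c N x θ)}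

end Pool.Agent.Helper79.GB
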