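import Pool.Agent.Helper79.FY.TwoPt
import Pool.Agent.Helper79.GB.Chart

/-!
# GB-07: the Galois action at two points in two charts

`C = chartY h hb` is the family of the covers, seen from the chart `b`; `base (pmat b) C = b` (`base_chartY`), the elements reached from `b` and from `base P Y` are the same (`chart_reach`), `MG (pmat b) C S ψ _ = MG P Y S ψ _` (`MG_chart`). The types `Ix C` and `Ix Y`, `Vx C k` and `Vx Y k` are equal by definition
(`(C k).N` is `(Y k).N`), so `exact`, `change` and `Iff.rfl` see through them (`rw` sometimes needs `change` or `exact Iff.rfl` afterwards; see the proofs in `GB/Chart.lean`).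
* `reps_chart`: `IsReps` for `C` is `IsReps` for `Y` (`chart_reach`).
* `ms_chart`: by definition of `ms` and `reps_chart` (the two conditions in `ms` are the same proposition; `dif` and `choose` of equal things: prove that the predicates `fun M => ...` are equal with `funext`, `propext`, and `simp only`/`congr`; or by `ms_eq` at points with `S ≠ 0` and, for `S t = 0`, both are `0` since there is no `D`).
* `pair_chart`: `IsPair` only depends on `ms` (through `Qf` and `Tf`, see `Pool/Agent/Helper79/FY/Trace.lean`).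
* `two_points_chart`: let `X` be as in `exists_star` for `P`, `Y` (`U` is not empty, `etale_base`, `f` from `hw`). `star_fixed` at `t₀` for `P`, `Y`: `π' ∈ X ↔ ∃ γ ∈ MG, π' = π₀ ∘ actZ γ`. `star_fixed` for the chart `b` (`chart_sys`, `f`; the equation and the simple roots on `b.U` as in the proof of `etale_chart`)
  at `t` with the same `X` (`pair_chart`, `chart_reach`): `π ∈ X`, with `γ = 1`. So `π = π₀ ∘ actZ γ`.
-/

set_option linter.unusedSectionVars false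

namespace Pool.Agent.Helper79.GB

open Matrix Pool.Agent.Helper79.BB Pool.Agent.Helper79.HH Pool.Agent.Helper79.HG Pool.Agent.Helper79.FY
  Pool.Agent.Helper64.Per

variable {κ : IntermediateField ℚ Qbar} {m r ℓ μ : ℕ} [Fact ℓ.Prime] {U : Set (Fin m → ℂ)}
  {w : (Fin m → ℂ) → ℂ} {S : MvPolynomial (Fin m) κ} {P : (Fin m → ℂ) → Matrix (Fin r) (Fin r) ℂ}
  {Y : ∀ k : ℕ, CoverData κ (Fin r → ZMod (ℓ ^ k)) U w} {lev : Fin r → ℤ} {j : ℤ}
  {ψ : Matrix (Fin r) (Fin r) ℤ} {b : Elem m (Ix Y)}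

theorem reps_chart (h : IsLocalSystem S P Y lev j ψ) (hb : FY.Reach S (base P Y) b) {k : ℕ}
    {D : Set (Fin m → ℂ)} {n : ℕ} {G : Fin n → Elem m (Ix Y)} :
    IsReps S (pmat b) (chartY h hb) k D G ↔ IsReps S P Y k D G := by
  constructor
  · intro hG
    exact ⟨fun i => ⟨(chart_reach h hb).1 (hG.1 i).1, (hG.1 i).2⟩,
      fun b' hb' hU => hG.2 b' ((chart_reach h hb).2 hb') hU⟩
  · intro hG
    exact ⟨fun i => ⟨(chart_reach h hb).2 (hG.1 i).1, (hG.1 i).2⟩,
      fun b' hb' hU => hG.2 b' ((chart_reach h hb).1 hb') hU⟩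

open Classical in
private noncomputable def msF {A : Type} (p : Multiset A → Prop) : Multiset A :=
  if h : ∃ M, p M then h.choose else 0

theorem ms_chart (h : IsLocalSystem S P Y lev j ψ) (hb : FY.Reach S (base P Y) b) (k : ℕ)
    (t : Fin m → ℂ) : ms S (pmat b) (chartY h hb) k t = ms S P Y k t := by
  have h1 : ms S (pmat b) (chartY h hb) k t = msF (fun M : Multiset (Vx Y k → ℂ) =>
      ∃ (D : Set (Fin m → ℂ)) (n : ℕ) (G : Fin n → Elem m (Ix Y)),
        IsOpen D ∧ Convex ℝ D ∧ t ∈ D ∧ (∀ t ∈ D, MvPolynomial.aeval t S ≠ 0) ∧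
          IsReps S (pmat b) (chartY h hb) k D G ∧
          M = Finset.univ.val.map fun i => val k (G i) t) := rfl
  have h2 : ms S P Y k t = msF (fun M : Multiset (Vx Y k → ℂ) =>
      ∃ (D : Set (Fin m → ℂ)) (n : ℕ) (G : Fin n → Elem m (Ix Y)),
        IsOpen D ∧ Convex ℝ D ∧ t ∈ D ∧ (∀ t ∈ D, MvPolynomial.aeval t S ≠ 0) ∧
          IsReps S P Y k D G ∧ M = Finset.univ.val.map fun i => val k (G i) t) := rfl
  have h3 : (fun M : Multiset (Vx Y k → ℂ) =>
      ∃ (D : Set (Fin m → ℂ)) (n : ℕ) (G : Fin n → Elem m (Ix Y)),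
        IsOpen D ∧ Convex ℝ D ∧ t ∈ D ∧ (∀ t ∈ D, MvPolynomial.aeval t S ≠ 0) ∧
          IsReps S (pmat b) (chartY h hb) k D G ∧
          M = Finset.univ.val.map fun i => val k (G i) t) =
      (fun M : Multiset (Vx Y k → ℂ) =>
      ∃ (D : Set (Fin m → ℂ)) (n : ℕ) (G : Fin n → Elem m (Ix Y)),
        IsOpen D ∧ Convex ℝ D ∧ t ∈ D ∧ (∀ t ∈ D, MvPolynomial.aeval t S ≠ 0) ∧
          IsReps S P Y k D G ∧ M = Finset.univ.val.map fun i => val k (G i) t) := by
    funext M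
    apply propext
    constructor
    · rintro ⟨D, n, G, a1, a2, a3, a4, a5, a6⟩
      exact ⟨D, n, G, a1, a2, a3, a4, (reps_chart h hb).1 a5, a6⟩
    · rintro ⟨D, n, G, a1, a2, a3, a4, a5, a6⟩
      exact ⟨D, n, G, a1, a2, a3, a4, (reps_chart h hb).2 a5, a6⟩
  exact h1.trans ((congrArg msF h3).trans h2.symm)

private noncomputable def qfM {A : Type} (q : MvPolynomial (Fin m ⊕ Unit) κ) (t : Fin m → ℂ)
    (M : Multiset (Unit ⊕ A → ℂ)) : ℂ :=
  (M.map fun p => MvPolynomial.aeval (Sum.elim t fun _ => p (Sum.inl ())) q).prod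

private theorem qf_eq {U' : Set (Fin m → ℂ)} {w' : (Fin m → ℂ) → ℂ}
    (P' : (Fin m → ℂ) → Matrix (Fin r) (Fin r) ℂ)
    (Y' : ∀ k : ℕ, CoverData κ (Fin r → ZMod (ℓ ^ k)) U' w') (k : ℕ) (t : Fin m → ℂ) :
    Qf S P' Y' k t = qfM (Y' k).q t (ms S P' Y' k t) := rfl

private noncomputable def tfM {B : Type} (e : MvPolynomial B ℚ) (M : Multiset (B → ℂ)) : ℂ :=
  (M.map fun p => MvPolynomial.aeval p e).sum

private theorem tf_eq {U' : Set (Fin m → ℂ)} {w' : (Fin m → ℂ) → ℂ}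
    (P' : (Fin m → ℂ) → Matrix (Fin r) (Fin r) ℂ)
    (Y' : ∀ k : ℕ, CoverData κ (Fin r → ZMod (ℓ ^ k)) U' w') (k : ℕ)
    (e : MvPolynomial (Vx Y' k) ℚ) (t : Fin m → ℂ) :
    Tf S P' Y' k e t = tfM e (ms S P' Y' k t) := rfl

private theorem qf_chart (h : IsLocalSystem S P Y lev j ψ) (hb : FY.Reach S (base P Y) b) (k : ℕ)
    (t : Fin m → ℂ) : Qf S (pmat b) (chartY h hb) k t = Qf S P Y k t := by
  rw [qf_eq, qf_eq]
  exact congrArg (qfM (Y k).q t) (ms_chart h hb k t)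

private theorem tf_chart (h : IsLocalSystem S P Y lev j ψ) (hb : FY.Reach S (base P Y) b) (k : ℕ)
    (e' : MvPolynomial (Vx Y k) ℚ) (t : Fin m → ℂ) :
    Tf S (pmat b) (chartY h hb) k e' t = Tf S P Y k e' t := by
  have h1 : Tf S (pmat b) (chartY h hb) k e' t =
      tfM e' (ms S (pmat b) (chartY h hb) k t) := tf_eq (pmat b) (chartY h hb) k e' t
  have h2 : Tf S P Y k e' t = tfM e' (ms S P Y k t) := tf_eq P Y k e' t
  exact h1.trans ((congrArg (tfM e') (ms_chart h hb k t)).trans h2.symm)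

theorem pair_chart (h : IsLocalSystem S P Y lev j ψ) (hb : FY.Reach S (base P Y) b) {k : ℕ}
    {e : MvPolynomial ((Fin r → ZMod (ℓ ^ k)) × Fin (Y k).N) ℚ} {n : ℕ}
    {q' : MvPolynomial (Fin m) Qbar} {g : Fin μ → MvPolynomial (Fin m) Qbar} :
    IsPair S (pmat b) (chartY h hb) k e n q' g ↔ IsPair S P Y k e n q' g := by
  have hQ : ∀ t : Fin m → ℂ, Qf S (pmat b) (chartY h hb) k t = Qf S P Y k t := qf_chart h hb k
  have hT : ∀ (e' : MvPolynomial (Vx Y k) ℚ) (t : Fin m → ℂ),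
      Tf S (pmat b) (chartY h hb) k e' t = Tf S P Y k e' t := tf_chart h hb k
  constructor
  · intro hp t ht
    obtain ⟨a1, a2⟩ := hp t ht
    refine ⟨(hQ t).symm.trans a1, fun l => ?_⟩
    have a3 := a2 l
    rw [hQ t] at a3
    exact (congrArg (fun z => Qf S P Y k t ^ n * z) (hT _ t).symm).trans a3
  · intro hp t ht
    obtain ⟨a1, a2⟩ := hp t ht
    refine ⟨(hQ t).trans a1, fun l => ?_⟩
    have a3 := a2 l
    rw [hQ t]
    exact (congrArg (fun z => Qf S P Y k t ^ n * z) (hT _ t)).trans a3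

theorem two_points_chart (h : IsLocalSystem S P Y lev j ψ) (hw : IsEtaleCover κ S U μ w)
    (hb : FY.Reach S (base P Y) b) (σ : Qbar ≃ₐ[κ] Qbar) (k : ℕ) {t t₀ : Fin m → Qbar}
    (ht : cv t ∈ b.U) (ht₀ : cv t₀ ∈ U) {π π₀ : Equiv.Perm (Fin r → ZMod (ℓ ^ k))}
    (hσ : ActsBy (chartY h hb) σ k t π) (hσ₀ : ActsBy Y σ k t₀ π₀) :
    ∃ γ ∈ MG P Y S ψ h.dom, ∀ v, π v = π₀ (actZ (γ : Matrix (Fin r) (Fin r) ℤ) v) := by
  obtain ⟨hwa, f, hf, hsep⟩ := hw
  have hne : U.Nonempty := ⟨_, ht₀⟩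
  have hwB : IsBranchM κ U μ w := ⟨hwa, f, hf⟩
  have hfU : ∀ t ∈ U, w t ^ μ = ∑ l : Fin μ, MvPolynomial.aeval t (f l) * w t ^ (l : ℕ) ∧
      (μ : ℂ) * w t ^ (μ - 1) ≠
        ∑ l : Fin μ, (l : ℕ) * MvPolynomial.aeval t (f l) * w t ^ ((l : ℕ) - 1) :=
    fun t ht => ⟨hf t ht, hsep t (w t) (h.dom t ht) (hf t ht)⟩
  obtain ⟨X, hX⟩ := exists_star h hne hwB hfU σ k
  have hba := reach_analytic h.analytic hb
  have h1 : ∀ t ∈ b.U, b.w t ^ μ = ∑ l : Fin μ, MvPolynomial.aeval t (f l) * b.w t ^ (l : ℕ) := by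
    intro t ht
    refine sub_eq_zero.1 (reach_rel (S := S) (a := base P Y) (b := b)
      (G := fun t ω φ => ω ^ μ - ∑ l : Fin μ, MvPolynomial.aeval t (f l) * ω ^ (l : ℕ)) ?_ hb ?_ t ht)
    · intro c hc
      refine (hc.2.2.1.pow μ).sub (Finset.analyticOnNhd_fun_sum _ fun l _ => ?_)
      exact (analytic_mv (f l) (fun t => t) analytic_proj).mul (hc.2.2.1.pow l)
    · intro t ht
      rw [sub_eq_zero]
      exact hf t ht
  have hfC : ∀ t ∈ b.U, b.w t ^ μ = ∑ l : Fin μ, MvPolynomial.aeval t (f l) * b.w t ^ (l : ℕ) ∧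
      (μ : ℂ) * b.w t ^ (μ - 1) ≠
        ∑ l : Fin μ, (l : ℕ) * MvPolynomial.aeval t (f l) * b.w t ^ ((l : ℕ) - 1) :=
    fun t ht => ⟨h1 t ht, hsep t (b.w t) (reach_dom h.dom hb t ht) (h1 t ht)⟩
  have hwC : IsBranchM κ b.U μ b.w := ⟨hba.2.2.1, f, h1⟩
  have hπ : π ∈ X := (star_fixed (chart_sys h hb) hwC hfC
    (fun e n q' g hp c hc t ht => hX e n q' g ((pair_chart h hb).1 hp) c
      ((chart_reach h hb).1 hc) t ht) ht hσ π).2
    ⟨1, Subgroup.one_mem _, fun v => by rw [Units.val_one, actZ_one]⟩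
  exact (star_fixed h hwB hfU hX ht₀ hσ₀ π).1 hπ

end Pool.Agent.Helper79.GB
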